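import Pool.Agent.Lib.MP_a717c1_al.DQ.Defs

/-!
# Direct squares, module BLK: blocks and the selection of slots
-/

set_option linter.unusedSectionVars false
set_option linter.unusedDecidableInType false

namespace QSym

open Finset SimpleGraph Relation

section split

variable {J : Type*} [DecidableEq J] {V : J → Type*}

/-- `p` on `T` and `q` off `T` -/
def mix52 (T : Finset J) (p q : ∀ j, V j) : ∀ j, V j := fun j => if j ∈ T then p j else q j

/-- the relation `R` splits at `T` -/
def Spl52 (R : (∀ j, V j) → (∀ j, V j) → Prop) (T : Finset J) : Prop :=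
  ∀ p p' q q', R p p' → R q q' → R (mix52 T p q) (mix52 T p' q')

variable {R : (∀ j, V j) → (∀ j, V j) → Prop}

theorem mix52_in {T : Finset J} {p q : ∀ j, V j} {j : J} (h : j ∈ T) : mix52 T p q j = p j :=
  if_pos h

theorem mix52_out {T : Finset J} {p q : ∀ j, V j} {j : J} (h : j ∉ T) : mix52 T p q j = q j :=
  if_neg h

theorem mix52_eq {T : Finset J} {p q n : ∀ j, V j} (h : ∀ j ∈ T, p j = n j)
    (h' : ∀ j, j ∉ T → q j = n j) : mix52 T p q = n := by
  funext j
  by_cases hj : j ∈ T
  · rw [mix52_in hj, h j hj]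
  · rw [mix52_out hj, h' j hj]

theorem Spl52.inter {S T : Finset J} (hS : Spl52 R S) (hT : Spl52 R T) : Spl52 R (S ∩ T) := by
  intro p p' q q' h h'
  have e : ∀ p q : ∀ j, V j, mix52 (S ∩ T) p q = mix52 S (mix52 T p q) q := by
    intro p q
    refine mix52_eq ?_ ?_
    · intro j hj
      rw [Finset.mem_inter] at hj
      rw [mix52_in hj.1, mix52_in hj.2]
    · intro j hj
      by_cases h1 : j ∈ S
      · rw [mix52_in h1, mix52_out]
        intro h2
        exact hj (Finset.mem_inter.2 ⟨h1, h2⟩)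
      · rw [mix52_out h1]
  rw [e, e]
  exact hS _ _ _ _ (hT _ _ _ _ h h') h'

variable [Fintype J]

theorem Spl52.compl {T : Finset J} (hT : Spl52 R T) : Spl52 R Tᶜ := by
  intro p p' q q' h h'
  have e : ∀ p q : ∀ j, V j, mix52 Tᶜ p q = mix52 T q p := by
    intro p q
    refine mix52_eq ?_ ?_
    · intro j hj
      rw [mix52_out (Finset.mem_compl.1 hj)]
    · intro j hj
      rw [mix52_in]
      rw [Finset.mem_compl, not_not] at hj
      exact hj
  rw [e, e]
  exact hT _ _ _ _ h' h

theorem Spl52.univ : Spl52 R (Finset.univ : Finset J) := by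
  intro p p' q q' h _
  have e : ∀ p q : ∀ j, V j, mix52 (Finset.univ : Finset J) p q = p := fun p q =>
    mix52_eq (fun _ _ => rfl) (fun j hj => absurd (Finset.mem_univ j) hj)
  rw [e, e]
  exact h

theorem Spl52.union {S T : Finset J} (hS : Spl52 R S) (hT : Spl52 R T) : Spl52 R (S ∪ T) := by
  have := (hS.compl.inter hT.compl).compl
  rwa [← Finset.compl_union, compl_compl] at this

theorem Spl52.empty : Spl52 R (∅ : Finset J) := by
  have := (Spl52.univ (R := R)).compl
  rwa [Finset.compl_univ] at this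

/-- the same block -/
def Blk52 (R : (∀ j, V j) → (∀ j, V j) → Prop) (i i' : J) : Prop :=
  ∀ T : Finset J, Spl52 R T → (i ∈ T ↔ i' ∈ T)

/-- a union of blocks splits -/
theorem Spl52.of_sat {S : Finset J} (h : ∀ i i', Blk52 R i i' → (i ∈ S ↔ i' ∈ S)) :
    Spl52 R S := by
  have h1 : ∀ i i', i ∈ S → i' ∉ S → ∃ T : Finset J, Spl52 R T ∧ i ∈ T ∧ i' ∉ T := by
    intro i i' hi hi'
    have h2 : ¬ Blk52 R i i' := fun h3 => hi' ((h i i' h3).1 hi)
    unfold Blk52 at h2
    push Not at h2
    obtain ⟨T, hT, h3⟩ := h2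
    rcases h3 with h3 | h3
    · exact ⟨T, hT, h3.1, h3.2⟩
    · exact ⟨Tᶜ, hT.compl, Finset.mem_compl.2 h3.1, fun h4 => Finset.mem_compl.1 h4 h3.2⟩
  have h2 : ∀ i i', ∃ T : Finset J, Spl52 R T ∧ (i ∈ S → i' ∉ S → i ∈ T ∧ i' ∉ T) := by
    intro i i'
    by_cases h3 : i ∈ S ∧ i' ∉ S
    · obtain ⟨T, hT, h4, h5⟩ := h1 i i' h3.1 h3.2
      exact ⟨T, hT, fun _ _ => ⟨h4, h5⟩⟩
    · exact ⟨∅, Spl52.empty, fun h4 h5 => absurd ⟨h4, h5⟩ h3⟩
  choose T hT hT2 using h2
  have e : S = S.sup (fun i => Sᶜ.inf (fun i' => T i i')) := by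
    ext a
    rw [Finset.mem_sup]
    constructor
    · intro ha
      refine ⟨a, ha, ?_⟩
      rw [Finset.mem_inf]
      intro i' hi'
      exact (hT2 a i' ha (Finset.mem_compl.1 hi')).1
    · rintro ⟨i, hi, ha⟩
      by_contra hn
      rw [Finset.mem_inf] at ha
      exact (hT2 i a hi hn).2 (ha a (Finset.mem_compl.2 hn))
  rw [e]
  refine Finset.sup_induction ?_ ?_ ?_
  · exact Spl52.empty
  · intro a ha b hb
    exact ha.union hb
  · intro i _
    refine Finset.inf_induction ?_ ?_ ?_
    · exact Spl52.univ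
    · intro a ha b hb
      exact ha.inter hb
    · intro i' _
      exact hT i i'

end split

/-! ### Partial coordinates of the image -/

section ps

variable {J : Type*} [Fintype J] [DecidableEq J] {V : J → Type*} [∀ j, Fintype (V j)]
  [∀ j, DecidableEq (V j)]
variable {A : Type*} [Ring A] [StarRing A] [FReal A]
variable {x : ∀ j, SimpleGraph (V j)} {u : (∀ j, V j) → (∀ j, V j) → A}

/-- the coordinates of the image of `z` in the slots of `S` are those of `w` -/
def PS52 (u : (∀ j, V j) → (∀ j, V j) → A) (S : Finset J) (z w : ∀ j, V j) : A :=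
  ∑ w', if (∀ k ∈ S, w' k = w k) then u z w' else 0

theorem PS52_congr {S : Finset J} {z w w' : ∀ j, V j} (h : ∀ k ∈ S, w k = w' k) :
    PS52 u S z w = PS52 u S z w' := by
  unfold PS52
  refine Finset.sum_congr rfl fun v _ => ?_
  have : (∀ k ∈ S, v k = w k) ↔ (∀ k ∈ S, v k = w' k) := by
    constructor
    · intro h1 k hk; rw [h1 k hk, h k hk]
    · intro h1 k hk; rw [h1 k hk, h k hk]
  simp only [this]

/-- a nonzero product of two partial sums -/
theorem ex_of_sums52 {α β : Type*} [Fintype α] [Fintype β] {p : α → Prop} {q : β → Prop}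
    [DecidablePred p] [DecidablePred q] {f : α → A} {g : β → A}
    (h : (∑ a, if p a then f a else 0) * (∑ b, if q b then g b else 0) ≠ 0) :
    ∃ a b, p a ∧ q b ∧ f a * g b ≠ 0 := by
  by_contra hcon
  push Not at hcon
  apply h
  rw [Finset.sum_mul_sum]
  refine Finset.sum_eq_zero fun a _ => Finset.sum_eq_zero fun b _ => ?_
  by_cases h2 : p a <;> by_cases h3 : q b
  · rw [if_pos h2, if_pos h3]; exact hcon a b h2 h3
  · rw [if_neg h3, mul_zero]
  · rw [if_neg h2, zero_mul]
  · rw [if_neg h2, zero_mul]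

variable (hu : QI (PiBox x) (PiBox x) u)
include hu

theorem QI.PS_mul_u52 (S : Finset J) (z w v : ∀ j, V j) :
    PS52 u S z w * u z v = if (∀ k ∈ S, v k = w k) then u z v else 0 := by
  unfold PS52
  rw [Finset.sum_mul, Finset.sum_eq_single v]
  · split_ifs
    · exact hu.mul_self _ _
    · exact zero_mul _
  · intro w' _ hw'
    split_ifs
    · exact hu.row_orth hw'
    · exact zero_mul _
  · simp

theorem QI.u_mul_PS52 (S : Finset J) (z w v : ∀ j, V j) :
    u z v * PS52 u S z w = if (∀ k ∈ S, v k = w k) then u z v else 0 := by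
  unfold PS52
  rw [Finset.mul_sum, Finset.sum_eq_single v]
  · split_ifs
    · exact hu.mul_self _ _
    · exact mul_zero _
  · intro w' _ hw'
    split_ifs
    · exact hu.row_orth (Ne.symm hw')
    · exact mul_zero _
  · simp

theorem QI.PS_Ck52 {S : Finset J} {k : J} (hk : k ∈ S) (z w : ∀ j, V j) :
    PS52 u S z w * Ck u k z (w k) = PS52 u S z w := by
  unfold PS52
  rw [Finset.sum_mul]
  refine Finset.sum_congr rfl fun v _ => ?_
  split_ifs with h
  · rw [hu.u_mul_Ck, if_pos (h k hk)]
  · rw [zero_mul]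

theorem QI.PS_insert52 (S : Finset J) (k : J) (z w : ∀ j, V j) :
    PS52 u (insert k S) z w = PS52 u S z w * Ck u k z (w k) := by
  unfold PS52
  rw [Finset.sum_mul]
  refine Finset.sum_congr rfl fun w' _ => ?_
  by_cases h1 : ∀ k ∈ S, w' k = w k
  · rw [if_pos h1, hu.u_mul_Ck]
    by_cases h2 : w' k = w k
    · rw [if_pos h2, if_pos]
      intro k' hk'
      rcases Finset.mem_insert.1 hk' with rfl | hk'
      · exact h2
      · exact h1 k' hk'
    · rw [if_neg h2, if_neg]
      intro h3
      exact h2 (h3 k (Finset.mem_insert_self _ _))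
  · rw [if_neg h1, zero_mul, if_neg]
    intro h3
    exact h1 (fun k' hk' => h3 k' (Finset.mem_insert_of_mem hk'))

/-- the slots of `S` depend on their sources only -/
theorem QI.PS_dep52 (hd : Decided x u) (hc : ∀ j, (x j).Connected) {σ : J → J}
    (hσ : IsSig x u σ) (w : ∀ j, V j) (S : Finset J) {z z' : ∀ j, V j}
    (h : ∀ j, σ j ∈ S → z j = z' j) : PS52 u S z w = PS52 u S z' w := by
  induction S using Finset.induction_on with
  | empty =>
    unfold PS52
    simp [hu.row]
  | insert k S _ ih =>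
    rw [hu.PS_insert52, hu.PS_insert52, ih (fun j hj => h j (Finset.mem_insert_of_mem hj)),
      hu.Ck_dep hd hc hσ (fun j hj => h j (by rw [hj]; exact Finset.mem_insert_self _ _))]

/-- the same element as a sum over the sources -/
theorem QI.PS_col52 (hd : Decided x u) (hc : ∀ j, (x j).Connected) {σ : J → J}
    (hσ : IsSig x u σ) (hb : Function.Bijective σ) (T : Finset J) (n w : ∀ j, V j) :
    PS52 u (T.image σ) n w = ∑ z, if (∀ j ∈ T, z j = n j) then u z w else 0 := by
  have e : PS52 u (T.image σ) n w = ∑ z, PS52 u (T.image σ) n w * u z w := by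
    rw [← Finset.mul_sum, hu.col, mul_one]
  rw [e]
  refine Finset.sum_congr rfl fun z _ => ?_
  split_ifs with h
  · have e2 : PS52 u (T.image σ) n w = PS52 u (T.image σ) z w := by
      refine hu.PS_dep52 hd hc hσ w _ ?_
      intro j hj
      obtain ⟨j', hj', h2⟩ := Finset.mem_image.1 hj
      have := hb.1 h2
      subst this
      exact (h j' hj').symm
    rw [e2, hu.PS_mul_u52, if_pos (fun _ _ => rfl)]
  · push Not at h
    obtain ⟨j, hj, hne⟩ := h
    have hk : σ j ∈ T.image σ := Finset.mem_image_of_mem _ hj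
    have e3 : u z w = Ck u (σ j) z (w (σ j)) * u z w := by
      rw [hu.Ck_mul_u, if_pos rfl]
    rw [← hu.PS_Ck52 hk, e3, mul_assoc, ← mul_assoc (Ck u (σ j) n (w (σ j)))]
    have e4 : Ck u (σ j) n (w (σ j)) * Ck u (σ j) z (w (σ j)) = 0 := by
      by_contra h5
      exact hne ((hu.Ck_QI hd hc hσ hb j n z h5).1.2 rfl).symm
    rw [e4, zero_mul, mul_zero]

theorem QI.ex_col52 (hd : Decided x u) (hc : ∀ j, (x j).Connected) {σ : J → J}
    (hσ : IsSig x u σ) (hb : Function.Bijective σ) (T : Finset J) {n n' w w' : ∀ j, V j}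
    (h : PS52 u (T.image σ) n w * PS52 u (T.image σ) n' w' ≠ 0) :
    ∃ z z', (∀ j ∈ T, z j = n j) ∧ (∀ j ∈ T, z' j = n' j) ∧ u z w * u z' w' ≠ 0 := by
  rw [hu.PS_col52 hd hc hσ hb, hu.PS_col52 hd hc hσ hb] at h
  exact ex_of_sums52 h

omit hu in
theorem ex_row52 (S : Finset J) {n n' w w' : ∀ j, V j}
    (h : PS52 u S n w * PS52 u S n' w' ≠ 0) :
    ∃ v v', (∀ k ∈ S, v k = w k) ∧ (∀ k ∈ S, v' k = w' k) ∧ u n v * u n' v' ≠ 0 := by
  unfold PS52 at h
  exact ex_of_sums52 h

theorem QI.PS_ne52 (S : Finset J) {n n' m m' : ∀ j, V j} (h : u n m * u n' m' ≠ 0) :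
    PS52 u S n m * PS52 u S n' m' ≠ 0 := by
  intro h1
  apply h
  have e1 : u n m = u n m * PS52 u S n m := by rw [hu.u_mul_PS52, if_pos (fun _ _ => rfl)]
  have e2 : u n' m' = PS52 u S n' m' * u n' m' := by
    rw [hu.PS_mul_u52, if_pos (fun _ _ => rfl)]
  rw [e1, e2, mul_assoc, ← mul_assoc (PS52 u S n m), h1, zero_mul, mul_zero]

theorem QI.spl_iff52 (h1 : (1 : A) ≠ 0) (hd : Decided x u) (hc : ∀ j, (x j).Connected)
    {σ : J → J} (hσ : IsSig x u σ) (hb : Function.Bijective σ)
    {D : (∀ j, V j) → (∀ j, V j) → Prop}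
    (hD : ∀ z z' w w', u z w * u z' w' ≠ 0 → (D z z' ↔ D w w')) (T : Finset J) :
    Spl52 D T ↔ Spl52 D (T.image σ) := by
  have hmem : ∀ j, σ j ∈ T.image σ ↔ j ∈ T := by
    intro j
    rw [Finset.mem_image]
    constructor
    · rintro ⟨j', hj', h2⟩
      rwa [← hb.1 h2]
    · intro h2
      exact ⟨j, h2, rfl⟩
  have hcompl : (T.image σ)ᶜ = Tᶜ.image σ := by
    ext k
    obtain ⟨j, rfl⟩ := hb.2 k
    rw [Finset.mem_compl, hmem, Finset.mem_image]
    constructor
    · intro h2
      exact ⟨j, Finset.mem_compl.2 h2, rfl⟩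
    · rintro ⟨j', hj', h2⟩
      rw [← hb.1 h2]
      exact Finset.mem_compl.1 hj'
  constructor
  · intro hT w w' y y' hw hy
    set m := mix52 (T.image σ) w y with hm
    set m' := mix52 (T.image σ) w' y' with hm'
    obtain ⟨n, n', hn⟩ : ∃ n n', u n m * u n' m' ≠ 0 := by
      by_contra hcon
      push Not at hcon
      apply h1
      calc (1 : A) = (∑ n, u n m) * (∑ n', u n' m') := by rw [hu.col, hu.col, mul_one]
        _ = 0 := by
          rw [Finset.sum_mul_sum]
          exact Finset.sum_eq_zero fun w _ => Finset.sum_eq_zero fun w' _ => hcon w w'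
    have a1 := hu.PS_ne52 (T.image σ) hn
    have f1 : PS52 u (T.image σ) n m = PS52 u (T.image σ) n w :=
      PS52_congr (fun k hk => by rw [hm, mix52_in hk])
    have f2 : PS52 u (T.image σ) n' m' = PS52 u (T.image σ) n' w' :=
      PS52_congr (fun k hk => by rw [hm', mix52_in hk])
    rw [f1, f2] at a1
    obtain ⟨z, z', b1, b2, b3⟩ := hu.ex_col52 hd hc hσ hb T a1
    have a2 := hu.PS_ne52 (Tᶜ.image σ) hn
    have f3 : PS52 u (Tᶜ.image σ) n m = PS52 u (Tᶜ.image σ) n y :=
      PS52_congr (fun k hk => by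
        rw [← hcompl, Finset.mem_compl] at hk; rw [hm, mix52_out hk])
    have f4 : PS52 u (Tᶜ.image σ) n' m' = PS52 u (Tᶜ.image σ) n' y' :=
      PS52_congr (fun k hk => by
        rw [← hcompl, Finset.mem_compl] at hk; rw [hm', mix52_out hk])
    rw [f3, f4] at a2
    obtain ⟨a, a', c1, c2, c3⟩ := hu.ex_col52 hd hc hσ hb Tᶜ a2
    have d1 := hT _ _ _ _ ((hD _ _ _ _ b3).2 hw) ((hD _ _ _ _ c3).2 hy)
    rw [mix52_eq b1 (fun j hj => c1 j (Finset.mem_compl.2 hj)),
      mix52_eq b2 (fun j hj => c2 j (Finset.mem_compl.2 hj))] at d1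
    exact (hD _ _ _ _ hn).1 d1
  · intro hT z z' a a' hz ha
    set n := mix52 T z a with hn
    set n' := mix52 T z' a' with hn'
    obtain ⟨m, m', hm⟩ : ∃ m m', u n m * u n' m' ≠ 0 := by
      by_contra hcon
      push Not at hcon
      apply h1
      calc (1 : A) = (∑ m, u n m) * (∑ m', u n' m') := by rw [hu.row, hu.row, mul_one]
        _ = 0 := by
          rw [Finset.sum_mul_sum]
          exact Finset.sum_eq_zero fun w _ => Finset.sum_eq_zero fun w' _ => hcon w w'
    have a1 := hu.PS_ne52 (T.image σ) hm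
    have f1 : PS52 u (T.image σ) n m = PS52 u (T.image σ) z m :=
      hu.PS_dep52 hd hc hσ m (T.image σ) (fun j hj => by rw [hn, mix52_in ((hmem j).1 hj)])
    have f2 : PS52 u (T.image σ) n' m' = PS52 u (T.image σ) z' m' :=
      hu.PS_dep52 hd hc hσ m' (T.image σ) (fun j hj => by rw [hn', mix52_in ((hmem j).1 hj)])
    rw [f1, f2] at a1
    obtain ⟨w, w', b1, b2, b3⟩ := ex_row52 _ a1
    have a2 := hu.PS_ne52 ((T.image σ)ᶜ) hm
    have f3 : PS52 u ((T.image σ)ᶜ) n m = PS52 u ((T.image σ)ᶜ) a m :=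
      hu.PS_dep52 hd hc hσ m ((T.image σ)ᶜ) (fun j hj => by
          rw [Finset.mem_compl, hmem] at hj
          rw [hn, mix52_out hj])
    have f4 : PS52 u ((T.image σ)ᶜ) n' m' = PS52 u ((T.image σ)ᶜ) a' m' :=
      hu.PS_dep52 hd hc hσ m' ((T.image σ)ᶜ) (fun j hj => by
          rw [Finset.mem_compl, hmem] at hj
          rw [hn', mix52_out hj])
    rw [f3, f4] at a2
    obtain ⟨y, y', c1, c2, c3⟩ := ex_row52 _ a2
    have d1 := hT _ _ _ _ ((hD _ _ _ _ b3).1 hz) ((hD _ _ _ _ c3).1 ha)
    rw [mix52_eq b1 (fun j hj => c1 j (Finset.mem_compl.2 hj)),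
      mix52_eq b2 (fun j hj => c2 j (Finset.mem_compl.2 hj))] at d1
    exact (hD _ _ _ _ hm).2 d1

end ps

/-! ### The splitting sets of the square relation -/

section dd

variable {ι : Type*} [DecidableEq ι] {V : ι → Type*} {X : SimpleGraph (∀ i, V i)}

/-- the copy `β` of a vertex of the square -/
def cp52 (β : Bool) (z : ∀ j : ι × Bool, V j.1) : ∀ i, V i := fun i => z (i, β)

theorem dd_iff52 {z z' : ∀ j : ι × Bool, V j.1} :
    DD X z z' ↔ ∀ β, X.Adj (cp52 β z) (cp52 β z') := by
  constructor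
  · rintro ⟨h1, h2⟩ β
    cases β
    · exact h2
    · exact h1
  · intro h
    exact ⟨h true, h false⟩

/-- a subset of the slots, restricted to one copy -/
def res52 [Fintype ι] (β : Bool) (T : Finset (ι × Bool)) : Finset ι :=
  Finset.univ.filter (fun i => (i, β) ∈ T)

theorem mem_res52 [Fintype ι] {β : Bool} {T : Finset (ι × Bool)} {i : ι} :
    i ∈ res52 β T ↔ (i, β) ∈ T := by
  simp [res52]

theorem cp_mix52 [Fintype ι] (β : Bool) (T : Finset (ι × Bool)) (z y : ∀ j : ι × Bool, V j.1) :
    cp52 β (mix52 T z y) = mix52 (res52 β T) (cp52 β z) (cp52 β y) := by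
  funext i
  by_cases h : (i, β) ∈ T
  · rw [mix52_in (mem_res52.2 h)]
    exact mix52_in h
  · rw [mix52_out (fun h2 => h (mem_res52.1 h2))]
    exact mix52_out h

/-- if both copies split, so does the square relation -/
theorem dd_spl52 [Fintype ι] {T : Finset (ι × Bool)} (h : ∀ β, Spl52 X.Adj (res52 β T)) :
    Spl52 (DD X) T := by
  intro z z' y y' hz hy
  rw [dd_iff52] at hz hy ⊢
  intro β
  rw [cp_mix52, cp_mix52]
  exact h β _ _ _ _ (hz β) (hy β)

/-- and conversely -/
theorem spl_of_dd52 [Fintype ι] (hX : ∃ p p', X.Adj p p') {T : Finset (ι × Bool)}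
    (h : Spl52 (DD X) T) (β : Bool) : Spl52 X.Adj (res52 β T) := by
  obtain ⟨e, e', he⟩ := hX
  intro p p' q q' hp hq
  let F : (∀ i, V i) → (∀ i, V i) → (∀ j : ι × Bool, V j.1) := fun p e j =>
    if j.2 = β then p j.1 else e j.1
  have hF : ∀ p e, cp52 β (F p e) = p := by
    intro p e
    funext i
    simp [cp52, F]
  have hF2 : ∀ p e γ, γ ≠ β → cp52 γ (F p e) = e := by
    intro p e γ hγ
    funext i
    simp [cp52, F, hγ]
  have hDD : ∀ p p', X.Adj p p' → DD X (F p e) (F p' e') := by
    intro p p' h1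
    rw [dd_iff52]
    intro γ
    by_cases hγ : γ = β
    · subst hγ
      rw [hF, hF]
      exact h1
    · rw [hF2 _ _ _ hγ, hF2 _ _ _ hγ]
      exact he
  have h2 := h _ _ _ _ (hDD p p' hp) (hDD q q' hq)
  rw [dd_iff52] at h2
  have h3 := h2 β
  rw [cp_mix52, cp_mix52, hF, hF, hF, hF] at h3
  exact h3

/-- the blocks of the square relation -/
theorem blk_iff52 [Fintype ι] (hX : ∃ p p', X.Adj p p') (j j' : ι × Bool) :
    Blk52 (DD X) j j' ↔ (j.2 = j'.2 ∧ Blk52 X.Adj j.1 j'.1) := by
  obtain ⟨i, β⟩ := j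
  obtain ⟨i', β'⟩ := j'
  constructor
  · intro h
    have hβ : β = β' := by
      have hT : Spl52 (DD X) (Finset.univ.filter (fun j : ι × Bool => j.2 = β)) := by
        apply dd_spl52
        intro γ
        by_cases hγ : γ = β
        · have : res52 γ (Finset.univ.filter (fun j : ι × Bool => j.2 = β)) =
              (Finset.univ : Finset ι) := by
            ext a
            rw [mem_res52]
            simp [hγ]
          rw [this]
          exact Spl52.univ
        · have : res52 γ (Finset.univ.filter (fun j : ι × Bool => j.2 = β)) =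
              (∅ : Finset ι) := by
            ext a
            rw [mem_res52]
            simp [hγ]
          rw [this]
          exact Spl52.empty
      have h2 := h _ hT
      simp only [Finset.mem_filter, Finset.mem_univ, true_and, true_iff] at h2
      exact h2.symm
    subst hβ
    refine ⟨rfl, ?_⟩
    intro S hS
    have hT : Spl52 (DD X) (Finset.univ.filter (fun j : ι × Bool => j.2 = β ∧ j.1 ∈ S)) := by
      apply dd_spl52
      intro γ
      by_cases hγ : γ = β
      · have : res52 γ (Finset.univ.filter (fun j : ι × Bool => j.2 = β ∧ j.1 ∈ S)) = S := by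
          ext a
          rw [mem_res52]
          simp [hγ]
        rw [this]
        exact hS
      · have : res52 γ (Finset.univ.filter (fun j : ι × Bool => j.2 = β ∧ j.1 ∈ S)) =
            (∅ : Finset ι) := by
          ext a
          rw [mem_res52]
          simp [hγ]
        rw [this]
        exact Spl52.empty
    have h2 := h _ hT
    simpa only [Finset.mem_filter, Finset.mem_univ, true_and] using h2
  · rintro ⟨h1, h2⟩
    simp only at h1 h2
    subst h1
    intro T hT
    have h3 := h2 _ (spl_of_dd52 hX hT β)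
    rwa [mem_res52, mem_res52] at h3

end dd

/-! ### A selection which is constant on the blocks -/

theorem selection_blk52 {ι : Type*} [Fintype ι] [DecidableEq ι] (σ : ι × Bool → ι × Bool)
    (hσ : Function.Bijective σ) (r : ι → ι → Prop) (hr : Equivalence r)
    (hE : ∀ j j' : ι × Bool, (j.2 = j'.2 ∧ r j.1 j'.1) ↔
      ((σ j).2 = (σ j').2 ∧ r (σ j).1 (σ j').1)) :
    ∃ (s b : ι → Bool) (f f' : ι ≃ ι), (∀ i i', r i i' → s i = s i') ∧
      (∀ i i', r i i' → b i = b i') ∧
      (∀ i, σ (i, s i) = (f i, b (f i))) ∧ (∀ i, σ (i, !(s i)) = (f' i, !(b (f' i)))) := by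
  classical
  let st : Setoid ι := ⟨r, hr⟩
  let Q := Quotient st
  have : Finite Q := Quotient.finite st
  have : Fintype Q := Fintype.ofFinite Q
  let π : ι × Bool → Q × Bool := fun j => (Quotient.mk st j.1, j.2)
  have hπ : Function.Surjective π := by
    rintro ⟨q, β⟩
    obtain ⟨i, rfl⟩ := Quotient.exists_rep q
    exact ⟨(i, β), rfl⟩
  have hπ2 : ∀ j j', π j = π j' ↔ (j.2 = j'.2 ∧ r j.1 j'.1) := by
    intro j j'
    constructor
    · intro h
      have e1 : (π j).2 = (π j').2 := by rw [h]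
      have e2 : (π j).1 = (π j').1 := by rw [h]
      exact ⟨e1, Quotient.exact e2⟩
    · rintro ⟨h1, h2⟩
      exact Prod.ext (Quotient.sound h2) h1
  have hπσ : ∀ j j', π j = π j' ↔ π (σ j) = π (σ j') := by
    intro j j'
    rw [hπ2, hπ2]
    exact hE j j'
  let τ : Q × Bool → Q × Bool := fun c => π (σ (Function.surjInv hπ c))
  have hτ : ∀ j, τ (π j) = π (σ j) := fun j =>
    (hπσ _ _).1 (Function.surjInv_eq hπ (π j))
  have hinj : Function.Injective τ := by
    intro c c' h
    obtain ⟨j, rfl⟩ := hπ c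
    obtain ⟨j', rfl⟩ := hπ c'
    rw [hτ, hτ] at h
    exact (hπσ _ _).2 h
  obtain ⟨s, b, f, f', h1, h2⟩ := selection τ (Finite.injective_iff_bijective.1 hinj)
  have key1 : ∀ i, σ (i, s (Quotient.mk st i)) =
      ((σ (i, s (Quotient.mk st i))).1,
        b (Quotient.mk st (σ (i, s (Quotient.mk st i))).1)) := by
    intro i
    have e1 := hτ (i, s (Quotient.mk st i))
    have e2 : τ (π (i, s (Quotient.mk st i))) =
        (f (Quotient.mk st i), b (f (Quotient.mk st i))) := h1 (Quotient.mk st i)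
    rw [e1] at e2
    have e3 : Quotient.mk st (σ (i, s (Quotient.mk st i))).1 = f (Quotient.mk st i) :=
      congrArg Prod.fst e2
    have e4 : (σ (i, s (Quotient.mk st i))).2 = b (f (Quotient.mk st i)) :=
      congrArg Prod.snd e2
    refine Prod.ext rfl ?_
    simp only
    rw [e4, e3]
  have key2 : ∀ i, σ (i, !(s (Quotient.mk st i))) =
      ((σ (i, !(s (Quotient.mk st i)))).1,
        !(b (Quotient.mk st (σ (i, !(s (Quotient.mk st i)))).1))) := by
    intro i
    have e1 := hτ (i, !(s (Quotient.mk st i)))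
    have e2 : τ (π (i, !(s (Quotient.mk st i)))) =
        (f' (Quotient.mk st i), !(b (f' (Quotient.mk st i)))) := h2 (Quotient.mk st i)
    rw [e1] at e2
    have e3 : Quotient.mk st (σ (i, !(s (Quotient.mk st i)))).1 = f' (Quotient.mk st i) :=
      congrArg Prod.fst e2
    have e4 : (σ (i, !(s (Quotient.mk st i)))).2 = !(b (f' (Quotient.mk st i))) :=
      congrArg Prod.snd e2
    refine Prod.ext rfl ?_
    simp only
    rw [e4, e3]
  have inj1 : Function.Injective (fun i => (σ (i, s (Quotient.mk st i))).1) := by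
    intro i i' h
    simp only at h
    have e : σ (i, s (Quotient.mk st i)) = σ (i', s (Quotient.mk st i')) := by
      rw [key1 i, key1 i', h]
    exact congrArg Prod.fst (hσ.1 e)
  have inj2 : Function.Injective (fun i => (σ (i, !(s (Quotient.mk st i)))).1) := by
    intro i i' h
    simp only at h
    have e : σ (i, !(s (Quotient.mk st i))) = σ (i', !(s (Quotient.mk st i'))) := by
      rw [key2 i, key2 i', h]
    exact congrArg Prod.fst (hσ.1 e)
  refine ⟨fun i => s (Quotient.mk st i), fun i => b (Quotient.mk st i),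
    Equiv.ofBijective _ (Finite.injective_iff_bijective.1 inj1),
    Equiv.ofBijective _ (Finite.injective_iff_bijective.1 inj2), ?_, ?_, key1, key2⟩
  · intro i i' h
    simp only
    rw [Quotient.sound (s := st) h]
  · intro i i' h
    simp only
    rw [Quotient.sound (s := st) h]

/-! ### The quantum automorphism of `X` -/

section fin

variable {ι : Type*} [Fintype ι] [DecidableEq ι] {V : ι → Type*} [∀ i, Fintype (V i)]
  [∀ i, DecidableEq (V i)]
variable {A : Type*} [Ring A] [StarRing A] [FReal A]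
variable {x : ∀ i, SimpleGraph (V i)} {X : SimpleGraph (∀ i, V i)}
variable {u : (∀ j : ι × Bool, V j.1) → (∀ j : ι × Bool, V j.1) → A}

theorem cp_dup52 (β : Bool) (p : ∀ i, V i) : cp52 β (dup p) = p := rfl

theorem dd_dup52 {p p' : ∀ i, V i} : DD X (dup p) (dup p') ↔ X.Adj p p' := by
  rw [dd_iff52]
  constructor
  · intro h
    exact h true
  · intro h β
    exact h

theorem Wm_eq52 (b : ι → Bool) (p q : ∀ i, V i) : Wm u b p q =
    PS52 u (Finset.univ.image (fun k => (k, b k))) (dup p) (dup q) := by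
  unfold Wm PS52
  refine Finset.sum_congr rfl fun w _ => ?_
  have e : (∀ j ∈ (Finset.univ.image (fun k => (k, b k)) : Finset (ι × Bool)),
      w j = (dup q : ∀ j : ι × Bool, V j.1) j) ↔ (∀ k, w (k, b k) = q k) := by
    constructor
    · intro h k
      exact h (k, b k) (Finset.mem_image_of_mem _ (Finset.mem_univ k))
    · intro h j hj
      obtain ⟨k, _, rfl⟩ := Finset.mem_image.1 hj
      exact h k
  by_cases h : ∀ k, w (k, b k) = q k
  · rw [if_pos h, if_pos (e.2 h)]
  · rw [if_neg h, if_neg (fun h2 => h (e.1 h2))]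

/-- a vertex of `X` as a mixture of two copies -/
theorem mix_of_trans52 (b : ι → Bool) {v : ∀ j : ι × Bool, V j.1} {q : ∀ i, V i}
    (h : ∀ j ∈ (Finset.univ.image (fun k => (k, b k)) : Finset (ι × Bool)),
      v j = (dup q : ∀ j : ι × Bool, V j.1) j) :
    mix52 (Finset.univ.filter (fun k => b k = true)) (cp52 true v) (cp52 false v) = q := by
  have h2 : ∀ k, v (k, b k) = q k := fun k =>
    h (k, b k) (Finset.mem_image_of_mem _ (Finset.mem_univ k))
  refine mix52_eq ?_ ?_
  · intro k hk
    have hk2 : b k = true := by simpa using hk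
    have := h2 k
    rw [hk2] at this
    exact this
  · intro k hk
    have hk2 : b k = false := by simpa using hk
    have := h2 k
    rw [hk2] at this
    exact this

variable (hu : QI (PiBox (fun j : ι × Bool => x j.1)) (PiBox (fun j : ι × Bool => x j.1)) u)
    (hd : Decided (fun j : ι × Bool => x j.1) u) (hc : ∀ i, (x i).Connected)
    {σ : ι × Bool → ι × Bool} (hσ : IsSig (fun j : ι × Bool => x j.1) u σ)
    (hb : Function.Bijective σ) {s b : ι → Bool} {f : ι ≃ ι}
    (hf : ∀ i, σ (i, s i) = (f i, b (f i)))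
include hu hd hc hσ hb hf

theorem QI.Wm_QI_X52 (hs : Spl52 X.Adj (Finset.univ.filter (fun i => s i = true)))
    (hb2 : Spl52 X.Adj (Finset.univ.filter (fun i => b i = true)))
    (hD : ∀ z z' w w', u z w * u z' w' ≠ 0 → (DD X z z' ↔ DD X w w')) :
    QI X X (Wm u b) := by
  have h := hu.Wm_QI hd hc hσ hb hf
  refine ⟨h.star_eq, h.mul_self, h.row, h.col, ?_⟩
  intro p p' q q' hne
  have hT : (Finset.univ.image (fun i => (i, s i)) : Finset (ι × Bool)).image σ =
      Finset.univ.image (fun k => (k, b k)) := by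
    ext j
    rw [Finset.mem_image, Finset.mem_image]
    constructor
    · rintro ⟨j', hj', rfl⟩
      obtain ⟨i, _, rfl⟩ := Finset.mem_image.1 hj'
      exact ⟨f i, Finset.mem_univ _, (hf i).symm⟩
    · rintro ⟨k, _, rfl⟩
      refine ⟨(f.symm k, s (f.symm k)),
        Finset.mem_image_of_mem _ (Finset.mem_univ (f.symm k)), ?_⟩
      rw [hf, Equiv.apply_symm_apply]
  constructor
  · intro hp
    rw [Wm_eq52, Wm_eq52] at hne
    obtain ⟨v, v', h1, h2, h3⟩ := ex_row52 _ hne
    have h4 := (hD _ _ _ _ h3).1 (dd_dup52.2 hp)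
    rw [dd_iff52] at h4
    have h5 := hb2 _ _ _ _ (h4 true) (h4 false)
    rwa [mix_of_trans52 b h1, mix_of_trans52 b h2] at h5
  · intro hq
    rw [Wm_eq52, Wm_eq52, ← hT] at hne
    obtain ⟨z, z', h1, h2, h3⟩ :=
      hu.ex_col52 (J := ι × Bool) hd (fun j => hc j.1) hσ hb _ hne
    have h4 := (hD _ _ _ _ h3).2 (dd_dup52.2 hq)
    rw [dd_iff52] at h4
    have h5 := hs _ _ _ _ (h4 true) (h4 false)
    rwa [mix_of_trans52 s h1, mix_of_trans52 s h2] at h5

/-- the selected coordinates commute -/
theorem QI.Ck_commute_of52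
    (hW : ∀ i j k l, Wm u b i j * Wm u b k l = Wm u b k l * Wm u b i j) (i : ι)
    (z z' : ∀ j : ι × Bool, V j.1) (c c' : V (f i)) :
    Ck u (f i, b (f i)) z c * Ck u (f i, b (f i)) z' c' =
      Ck u (f i, b (f i)) z' c' * Ck u (f i, b (f i)) z c := by
  have e : ∀ (z : ∀ j : ι × Bool, V j.1) (c : V (f i)), Ck u (f i, b (f i)) z c =
      ∑ q : ∀ i, V i, if q (f i) = c then Wm u b (fun i' => z (i', s i')) q else 0 := by
    intro z c
    have e1 : Ck u (f i, b (f i)) z c =
        Ck u (f i, b (f i)) (dup (fun i' => z (i', s i'))) c := by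
      refine hu.Ck_dep (J := ι × Bool) (k := (f i, b (f i))) hd (fun j => hc j.1) hσ ?_ c
      intro j hj
      rw [← hf i] at hj
      have := hb.1 hj
      subst this
      rfl
    rw [e1]
    unfold Ck Wm
    have e2 : ∀ q : ∀ i, V i, (if q (f i) = c then
        (∑ w : ∀ j : ι × Bool, V j.1, if (∀ k, w (k, b k) = q k) then
          u (dup (fun i' => z (i', s i'))) w else 0) else 0) =
        ∑ w : ∀ j : ι × Bool, V j.1, if q (f i) = c then (if (∀ k, w (k, b k) = q k) then
          u (dup (fun i' => z (i', s i'))) w else 0) else 0 := by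
      intro q
      split_ifs
      · rfl
      · simp
    simp only [e2]
    rw [Finset.sum_comm]
    refine Finset.sum_congr rfl fun w _ => ?_
    rw [Finset.sum_eq_single (fun k => w (k, b k))]
    · simp
    · intro q _ hq
      split_ifs with h1 h2
      · exfalso
        exact hq (funext fun k => (h2 k).symm)
      · rfl
      · rfl
    · simp
  rw [e, e, Finset.sum_mul_sum, Finset.sum_mul_sum, Finset.sum_comm]
  refine Finset.sum_congr rfl fun q _ => Finset.sum_congr rfl fun q' _ => ?_
  split_ifs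
  · exact hW _ _ _ _
  · simp
  · simp
  · simp

end fin

/-- module BLK -/
theorem stBlk_52 : StBlk := by
  intro ι _ _ V _ _ x X A _ _ _ u hu h1 hd hZ hc hp hn hX hD hR z w z' w'
  obtain ⟨σ, hσ⟩ := hu.exists_sigma h1 hd hZ (fun j => hp j.1) (fun j => hn j.1)
  have hsurj := hu.sigma_surj (J := ι × Bool) h1 hd (fun j => hc j.1) (fun j => hn j.1) hσ
  have hb : Function.Bijective σ := Finite.surjective_iff_bijective.1 hsurj
  -- the blocks
  have hspl := hu.spl_iff52 (J := ι × Bool) h1 hd (fun j => hc j.1) hσ hb hD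
  have hblk : ∀ j j' : ι × Bool, Blk52 (DD X) j j' ↔ Blk52 (DD X) (σ j) (σ j') := by
    intro j j'
    constructor
    · intro h T hT
      have h2 : (T.preimage σ hb.1.injOn).image σ = T := by
        ext k
        obtain ⟨j'', rfl⟩ := hb.2 k
        rw [Finset.mem_image]
        constructor
        · rintro ⟨l, hl, h3⟩
          rw [← h3]
          exact Finset.mem_preimage.1 hl
        · intro h3
          exact ⟨j'', Finset.mem_preimage.2 h3, rfl⟩
      have h3 := h _ ((hspl (T.preimage σ hb.1.injOn)).2 (by rw [h2]; exact hT))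
      rwa [Finset.mem_preimage, Finset.mem_preimage] at h3
    · intro h T hT
      have h3 := h _ ((hspl T).1 hT)
      have hmem : ∀ j, σ j ∈ T.image σ ↔ j ∈ T := by
        intro j
        rw [Finset.mem_image]
        constructor
        · rintro ⟨j', hj', h2⟩
          rwa [← hb.1 h2]
        · intro h2
          exact ⟨j, h2, rfl⟩
      rwa [hmem, hmem] at h3
  have hr : Equivalence (Blk52 X.Adj) :=
    ⟨fun _ _ _ => Iff.rfl, fun h T hT => (h T hT).symm,
      fun h h' T hT => (h T hT).trans (h' T hT)⟩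
  obtain ⟨s, b, f, f', hs, hbc, hf, hf'⟩ := selection_blk52 σ hb (Blk52 X.Adj) hr (by
    intro j j'
    rw [← blk_iff52 hX, ← blk_iff52 hX]
    exact hblk j j')
  have sp : ∀ t : ι → Bool, (∀ i i', Blk52 X.Adj i i' → t i = t i') →
      Spl52 X.Adj (Finset.univ.filter (fun i => t i = true)) := by
    intro t ht
    apply Spl52.of_sat
    intro i i' h
    simp only [Finset.mem_filter, Finset.mem_univ, true_and]
    rw [ht i i' h]
  have W1 := hR _ (hu.Wm_QI_X52 hd hc hσ hb hf (sp s hs) (sp b hbc) hD)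
  have W2 := hR _ (hu.Wm_QI_X52 (s := fun i => !(s i)) (b := fun i => !(b i)) hd hc hσ hb hf'
    (sp _ (fun i i' h => by rw [hs i i' h])) (sp _ (fun i i' h => by rw [hbc i i' h])) hD)
  -- the same slot
  have same : ∀ (k : ι × Bool) (z z' : ∀ j : ι × Bool, V j.1) (c c' : V k.1),
      Ck u k z c * Ck u k z' c' = Ck u k z' c' * Ck u k z c := by
    rintro ⟨k, β⟩ z z' c c'
    by_cases hβ : β = b k
    · have h2 := hu.Ck_commute_of52 hd hc hσ hb hf W1 (f.symm k) z z'
      rw [Equiv.apply_symm_apply] at h2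
      rw [hβ]
      exact h2 c c'
    · have hβ' : β = !(b k) := by
        cases β <;> cases h : b k <;> simp_all
      have h2 := hu.Ck_commute_of52 (s := fun i => !(s i)) (b := fun i => !(b i)) hd hc hσ hb
        hf' W2 (f'.symm k) z z'
      rw [Equiv.apply_symm_apply] at h2
      rw [hβ']
      exact h2 c c'
  -- all slots
  have all : ∀ (k k' : ι × Bool) (z z' : ∀ j : ι × Bool, V j.1) (c : V k.1) (c' : V k'.1),
      Ck u k z c * Ck u k' z' c' = Ck u k' z' c' * Ck u k z c := by
    intro k k' z z' c c'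
    by_cases hk : k = k'
    · subst hk; exact same k z z' c c'
    · obtain ⟨j, hj⟩ := hb.2 k
      obtain ⟨j', hj'⟩ := hb.2 k'
      have hjj : j ≠ j' := by
        rintro rfl
        exact hk (hj.symm.trans hj')
      set y := Function.update z j' (z' j') with hy
      have e1 : Ck u k z c = Ck u k y c := by
        refine hu.Ck_dep (J := ι × Bool) (k := k) hd (fun j => hc j.1) hσ ?_ c
        intro i hi
        have : i = j := hb.1 (hi.trans hj.symm)
        subst this
        rw [hy, Function.update_of_ne hjj]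
      have e2 : Ck u k' z' c' = Ck u k' y c' := by
        refine hu.Ck_dep (J := ι × Bool) (k := k') hd (fun j => hc j.1) hσ ?_ c'
        intro i hi
        have : i = j' := hb.1 (hi.trans hj'.symm)
        subst this
        simp [hy]
      rw [e1, e2]
      exact hu.Ck_comm y k k' c c'
  have step : ∀ (k : ι × Bool) (z' : ∀ j : ι × Bool, V j.1) (c : V k.1),
      Ck u k z' c * u z w = u z w * Ck u k z' c := by
    intro k z' c
    exact hu.comm_of_Ck (J := ι × Bool) z w (fun k' c' => all _ _ _ _ _ _)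
  exact (hu.comm_of_Ck (J := ι × Bool) z' w' (fun k c => (step k z' c).symm))

end QSym
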