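import Pool.Agent.Lib.MP_a717c1_al.DQ.Defs2

/-!
# Direct squares: the classical module (CLS)
-/

set_option linter.unusedSectionVars false
set_option linter.unusedDecidableInType false

namespace QSym

open Finset SimpleGraph

/-- a function which is constant along edges is constant -/
theorem const_of_adj {V : Type*} {G : SimpleGraph V} (hG : G.Connected) {α : Type*} (F : V → α)
    (h : ∀ x y, G.Adj x y → F x = F y) (x y : V) : F x = F y := by
  have h0 := (SimpleGraph.reachable_iff_reflTransGen x y).1 (hG.preconnected x y)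
  induction h0 with
  | refl => rfl
  | tail _ hpq ih => exact ih.trans (h _ _ hpq)

/-- a `K₂`-structure which preserves the second coordinate -/
theorem K2_first {V : Type*} {Γ : SimpleGraph V} (hΓ : Γ.Connected) {φ : V × V → V × V}
    {c : V × V → Prop} (h : IsK2 (Γ □ Γ) φ c) (hd : ∀ x, (φ x).2 = x.2) :
    ∃ (f : V → V) (c₀ : V → Prop), IsK2 Γ f c₀ ∧ (∀ p q, φ (p, q) = (f p, q)) ∧
      ∀ p q, (c (p, q) ↔ c₀ p) := by
  obtain ⟨q₀⟩ := hΓ.nonempty
  have e1 : ∀ p q q', (φ (p, q)).1 = (φ (p, q')).1 := by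
    intro p q q'
    refine const_of_adj hΓ (fun q => (φ (p, q)).1) ?_ q q'
    intro x y hxy
    have h1 : (Γ □ Γ).Adj (p, x) (p, y) := by
      rw [boxProd_adj]; right; exact ⟨hxy, rfl⟩
    have h2 := h.adj _ _ h1
    exact (box_adj_snd h2 (by rw [hd, hd]; exact hxy.ne)).1
  have e2 : ∀ p q q', (c (p, q) ↔ c (p, q')) := by
    intro p q q'
    refine (const_of_adj hΓ (fun q => c (p, q)) ?_ q q').to_iff
    intro x y hxy
    have h1 : (Γ □ Γ).Adj (p, x) (p, y) := by
      rw [boxProd_adj]; right; exact ⟨hxy, rfl⟩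
    have h2 := h.col _ _ h1
    have h3 : ¬ ((p, y) = φ (p, x)) := by
      intro h4
      have h5 := congrArg Prod.snd h4
      rw [hd] at h5
      exact hxy.ne h5.symm
    by_contra h4
    exact h3 (h2.1 (fun h5 => h4 (propext h5)))
  exact ⟨_, _, K2_layer h hd q₀, fun p q => Prod.ext (e1 p q q₀) (hd _), fun p q => e2 p q q₀⟩

/-- a `K₂`-structure of a square moves always the same coordinate -/
theorem K2_cases {V : Type*} {Γ : SimpleGraph V} (hΓ : Γ.Connected) {φ : V × V → V × V}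
    {c : V × V → Prop} (h : IsK2 (Γ □ Γ) φ c) :
    (∃ (f : V → V) (c₀ : V → Prop), IsK2 Γ f c₀ ∧ (∀ p q, φ (p, q) = (f p, q)) ∧
      ∀ p q, (c (p, q) ↔ c₀ p)) ∨
    (∃ (f : V → V) (c₀ : V → Prop), IsK2 Γ f c₀ ∧ (∀ p q, φ (p, q) = (p, f q)) ∧
      ∀ p q, (c (p, q) ↔ c₀ q)) := by
  have hG : (Γ □ Γ).Connected := hΓ.boxProd hΓ
  obtain ⟨x₀⟩ := hG.nonempty
  have step : ∀ x y, (Γ □ Γ).Adj x y → (x.2 = (φ x).2 ↔ y.2 = (φ y).2) := by
    intro x y hxy
    by_cases hy : y = φ x
    · subst hy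
      rw [h.inv, eq_comm]
    · exact box_opp (h.move x) (h.adj _ _ hxy) (h.move y) hxy
        (by intro h2; apply hy; rw [h2, h.inv]) (Ne.symm hy)
  have const : ∀ y, (x₀.2 = (φ x₀).2 ↔ y.2 = (φ y).2) := by
    intro y
    have h0 := (SimpleGraph.reachable_iff_reflTransGen x₀ y).1 (hG.preconnected x₀ y)
    induction h0 with
    | refl => exact Iff.rfl
    | tail _ hpq ih => exact ih.trans (step _ _ hpq)
  by_cases h1 : x₀.2 = (φ x₀).2
  · left
    exact K2_first hΓ h (fun x => ((const x).1 h1).symm)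
  · right
    obtain ⟨f, c₀, h2, h3, h4⟩ := K2_first hΓ (K2_swap h) (fun x => by
      have h2 : x.swap.2 ≠ (φ x.swap).2 := fun h3 => h1 ((const _).2 h3)
      exact (box_adj_snd (h.move x.swap) h2).1.symm)
    refine ⟨f, c₀, h2, ?_, ?_⟩
    · intro p q
      have h5 := h3 q p
      have h6 : φ (p, q) = (f q, p).swap := by
        rw [← h5]; rfl
      exact h6
    · intro p q
      exact h4 q p

/-- two `K₂`-structures in the same copy: two disjoint automorphisms -/
theorem cls_same {V : Type*} {X Γ : SimpleGraph V} [Nonempty V] {f g : V → V} {c d : V → Prop}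
    (hf : IsK2 Γ f c) (hg : IsK2 Γ g d) (hne : ∀ p, f p ≠ g p)
    (K1 : ∀ p p', X.Adj p p' ↔ X.Adj (f (g p)) (f (g p')))
    (K2 : ∀ p p', ¬ ((c p ↔ d p) ↔ (c p' ↔ d p')) → (X.Adj p p' ↔ X.Adj p (f (g p')))) :
    DisjAut X := by
  classical
  have cf : ∀ p, ¬ (c p ↔ c (f p)) := fun p => (hf.col _ _ (hf.move p)).2 rfl
  have dg : ∀ p, ¬ (d p ↔ d (g p)) := fun p => (hg.col _ _ (hg.move p)).2 rfl
  have cg : ∀ p, (c p ↔ c (g p)) := by
    intro p
    by_contra h
    exact hne p ((hf.col _ _ (hg.move p)).1 h).symm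
  have df : ∀ p, (d p ↔ d (f p)) := by
    intro p
    by_contra h
    exact hne p ((hg.col _ _ (hf.move p)).1 h)
  have comm : ∀ p, f (g p) = g (f p) := by
    intro p
    refine (hg.col _ _ (hf.adj _ _ (hg.move p))).1 ?_
    rw [← df, ← df]
    exact dg p
  have inv : ∀ p, f (g (f (g p))) = p := by
    intro p
    rw [comm p, hg.inv, hf.inv]
  have cfg : ∀ p, ¬ (c p ↔ c (f (g p))) := by
    intro p h
    apply cf (g p)
    rw [← cg]; exact h
  have dfg : ∀ p, ¬ (d p ↔ d (f (g p))) := by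
    intro p h
    rw [← df] at h
    exact dg p h
  have hS : ∀ p, ((c (f (g p)) ↔ d (f (g p))) ↔ (c p ↔ d p)) := by
    intro p
    have h1 := cfg p
    have h2 := dfg p
    tauto
  have mk : ∀ Q : V → Prop, (∀ p, Q (f (g p)) ↔ Q p) →
      (∀ p p', ¬ (Q p ↔ Q p') → ¬ ((c p ↔ d p) ↔ (c p' ↔ d p'))) →
      ∃ σ : X ≃g X, (∀ p, Q p → σ p = f (g p)) ∧ ∀ p, ¬ Q p → σ p = p := by
    intro Q hQ1 hQ2
    refine ⟨isoOfInv (fun p => if Q p then f (g p) else p) ?_ ?_, fun p hp => ?_, fun p hp => ?_⟩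
    · intro p
      by_cases h1 : Q p
      · have h2 : Q (f (g p)) := (hQ1 p).2 h1
        simp only [if_pos h1, if_pos h2, inv]
      · simp only [if_neg h1]
    · intro p p' hpp
      by_cases h1 : Q p
      · by_cases h2 : Q p'
        · simp only [if_pos h1, if_pos h2]
          exact (K1 _ _).1 hpp
        · simp only [if_pos h1, if_neg h2]
          exact ((K2 p' p (hQ2 _ _ (fun h3 => h2 (h3.2 h1)))).1 hpp.symm).symm
      · by_cases h2 : Q p'
        · simp only [if_neg h1, if_pos h2]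
          exact (K2 p p' (hQ2 _ _ (fun h3 => h1 (h3.2 h2)))).1 hpp
        · simp only [if_neg h1, if_neg h2]
          exact hpp
    · rw [isoOfInv_apply, if_pos hp]
    · rw [isoOfInv_apply, if_neg hp]
  obtain ⟨σ, hσ1, hσ2⟩ := mk (fun p => (c p ↔ d p)) hS (fun p p' h => h)
  obtain ⟨τ, hτ1, hτ2⟩ := mk (fun p => ¬ (c p ↔ d p)) (fun p => not_congr (hS p))
    (fun p p' h h2 => h (not_congr h2))
  have hmv : ∀ p, f (g p) ≠ p := by
    intro p h
    exact cfg p (by rw [h])
  have ex : (∃ p, (c p ↔ d p)) ∧ ∃ p, ¬ (c p ↔ d p) := by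
    obtain ⟨p⟩ := ‹Nonempty V›
    have h1 := cf p
    have h2 := df p
    by_cases h3 : (c p ↔ d p)
    · exact ⟨⟨p, h3⟩, ⟨f p, by tauto⟩⟩
    · exact ⟨⟨f p, by tauto⟩, ⟨p, h3⟩⟩
  obtain ⟨⟨a, ha⟩, ⟨b, hb⟩⟩ := ex
  refine ⟨σ, τ, ?_, ⟨a, ?_⟩, ⟨b, ?_⟩⟩
  · intro p
    by_cases h1 : (c p ↔ d p)
    · right; exact hτ2 p (not_not.2 h1)
    · left; exact hσ2 p h1
  · rw [hσ1 a ha]; exact hmv a
  · rw [hτ1 b hb]; exact hmv b

/-- the two kinds of edges with respect to a colouring -/
theorem cls_edges {V : Type*} {X Γ : SimpleGraph V} (hX : X.Connected) (h2 : ¬ X.Colorable 2)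
    {g : V → V} {d : V → Prop} (hg : IsK2 Γ g d) :
    (∃ q q', X.Adj q q' ∧ (d q ↔ d q')) ∧ ∃ q q', X.Adj q q' ∧ ¬ (d q ↔ d q') := by
  classical
  constructor
  · by_contra h
    push Not at h
    apply h2
    have C : X.Coloring Bool := SimpleGraph.Coloring.mk (fun v => decide (d v)) (by
      intro v w hvw h3
      have h4 := h v w hvw
      rw [decide_eq_decide] at h3
      tauto)
    have := C.colorable
    simpa using this
  · by_contra h
    push Not at h
    obtain ⟨q⟩ := hX.nonempty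
    have h3 := const_of_adj hX d (fun x y hxy => propext (h x y hxy)) q (g q)
    exact (hg.col _ _ (hg.move q)).2 rfl h3.to_iff

/-- two `K₂`-structures in different copies: twins -/
theorem cls_diff {V : Type*} {X Γ : SimpleGraph V} (hT : TwinFree X) {f : V → V}
    {c d : V → Prop} (hf : IsK2 Γ f c)
    (he : (∃ q q', X.Adj q q' ∧ (d q ↔ d q')) ∧ ∃ q q', X.Adj q q' ∧ ¬ (d q ↔ d q'))
    (K2 : ∀ p q p' q', ¬ ((c p ↔ d q) ↔ (c p' ↔ d q')) → X.Adj p p' → X.Adj q q' →
      X.Adj p (f p')) (v : V) : False := by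
  obtain ⟨⟨q1, q1', h1, h1'⟩, ⟨q2, q2', h2, h2'⟩⟩ := he
  have key : ∀ p p', X.Adj p p' → X.Adj p (f p') := by
    intro p p' hpp
    by_cases h3 : (c p ↔ c p')
    · exact K2 p q2 p' q2' (by tauto) hpp h2
    · exact K2 p q1 p' q1' (by tauto) hpp h1
  have h3 : v = f v := by
    apply hT
    intro z
    constructor
    · intro h4
      exact (key _ _ h4.symm).symm
    · intro h4
      have h5 := (key _ _ h4.symm)
      rw [hf.inv] at h5
      exact h5.symm
  exact (hf.move v).ne h3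

/-- **Module CLS.** -/
theorem stCls : StCls := by
  classical
  intro V _ X Γ hΓ hX h2 hT hD φ ψ c d hφ hψ hne K1 K2
  obtain ⟨v⟩ := hX.nonempty
  have hNe : Nonempty V := ⟨v⟩
  rcases K2_cases hΓ hφ with ⟨f, c₀, hf, f1, f2⟩ | ⟨f, c₀, hf, f1, f2⟩
  · rcases K2_cases hΓ hψ with ⟨g, d₀, hg, g1, g2⟩ | ⟨g, d₀, hg, g1, g2⟩
    · obtain ⟨⟨q, q', hq, -⟩, -⟩ := cls_edges hX h2 hg
      refine hD (cls_same hf hg ?_ ?_ ?_)
      · intro p h
        exact hne (p, q) (by rw [f1, g1, h])
      · intro p p'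
        have := K1 (p, q) (p', q')
        simp only [g1, f1, dprod_adj, hq, and_true] at this
        exact this
      · intro p p' hpp
        have := K2 (p, q) (p', q') (by simp only [f2, g2]; exact hpp)
        simp only [g1, f1, dprod_adj, hq, and_true] at this
        exact this
    · refine cls_diff hT hf (cls_edges hX h2 hg) ?_ v
      intro p q p' q' h3 hp hq
      have := K2 (p, q) (p', q') (by simp only [f2, g2]; exact h3)
      simp only [g1, f1, dprod_adj] at this
      exact (this.1 ⟨hp, hq⟩).1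
  · rcases K2_cases hΓ hψ with ⟨g, d₀, hg, g1, g2⟩ | ⟨g, d₀, hg, g1, g2⟩
    · refine cls_diff hT hf (cls_edges hX h2 hg) ?_ v
      intro q p q' p' h3 hq hp
      have := K2 (p, q) (p', q') (by simp only [f2, g2]; exact h3)
      simp only [g1, f1, dprod_adj] at this
      exact (this.1 ⟨hp, hq⟩).2
    · obtain ⟨⟨q, q', hq, -⟩, -⟩ := cls_edges hX h2 hg
      refine hD (cls_same hf hg ?_ ?_ ?_)
      · intro p h
        exact hne (q, p) (by rw [f1, g1, h])
      · intro p p'
        have := K1 (q, p) (q', p')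
        simp only [g1, f1, dprod_adj, hq, true_and] at this
        exact this
      · intro p p' hpp
        have := K2 (q, p) (q', p') (by simp only [f2, g2]; exact hpp)
        simp only [g1, f1, dprod_adj, hq, true_and] at this
        exact this

end QSym
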