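import Pool.Agent.Lib.MP_a717c1_al.Forward

/-!
# Direct squares: definitions and the statements of the modules
-/

namespace QSym

open Finset SimpleGraph

/-- The direct product `X × Y`: two pairs are adjacent if both coordinates are adjacent. -/
def dprod {V W : Type*} (X : SimpleGraph V) (Y : SimpleGraph W) : SimpleGraph (V × W) where
  Adj p q := X.Adj p.1 q.1 ∧ Y.Adj p.2 q.2
  symm := ⟨fun _ _ h => ⟨h.1.symm, h.2.symm⟩⟩
  loopless := ⟨fun _ h => h.1.ne rfl⟩

theorem dprod_adj {V W : Type*} {X : SimpleGraph V} {Y : SimpleGraph W} {p q : V × W} :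
    (dprod X Y).Adj p q ↔ X.Adj p.1 q.1 ∧ Y.Adj p.2 q.2 := Iff.rfl

/-- No two vertices have the same neighbours. -/
def TwinFree {V : Type*} (X : SimpleGraph V) : Prop :=
  ∀ x y, (∀ z, X.Adj x z ↔ X.Adj y z) → x = y

/-- the relation of the direct square, for vertices given by coordinates -/
def DD {ι : Type*} {V : ι → Type*} (X : SimpleGraph (∀ i, V i)) (z z' : ∀ j : ι × Bool, V j.1) :
    Prop :=
  X.Adj (fun i => z (i, true)) (fun i => z' (i, true)) ∧
    X.Adj (fun i => z (i, false)) (fun i => z' (i, false))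

/-- module NEC -/
def StNec : Prop := ∀ (V : Type) [Fintype V] (X : SimpleGraph V), 2 ≤ Fintype.card V →
  NoQuantumSymmetry (dprod X X) →
    X.Connected ∧ ¬ X.Colorable 2 ∧ TwinFree X ∧ NoQuantumSymmetry X

/-- module SKEL -/
def StSkel : Prop := ∀ (V : Type) [Fintype V] (X : SimpleGraph V), X.Connected →
  ¬ X.Colorable 2 → TwinFree X →
    ∃ Γ : SimpleGraph V, Γ.Connected ∧ ∀ (A : Type) [Ring A] [StarRing A] [FReal A]
      (u : V × V → V × V → A), QI (dprod X X) (dprod X X) u → QI (Γ □ Γ) (Γ □ Γ) u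

/-- module BLK -/
def StBlk : Prop := ∀ (ι : Type) [Fintype ι] [DecidableEq ι] (V : ι → Type) [∀ i, Fintype (V i)]
  [∀ i, DecidableEq (V i)] (x : ∀ i, SimpleGraph (V i)) (X : SimpleGraph (∀ i, V i))
  (A : Type) [Ring A] [StarRing A] [FReal A]
  (u : (∀ j : ι × Bool, V j.1) → (∀ j : ι × Bool, V j.1) → A),
  QI (PiBox (fun j : ι × Bool => x j.1)) (PiBox (fun j : ι × Bool => x j.1)) u → (1 : A) ≠ 0 →
  Decided (fun j : ι × Bool => x j.1) u → (PiBox (fun j : ι × Bool => x j.1)).Connected →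
  (∀ i, (x i).Connected) → (∀ i, PrimeG (x i)) → (∀ i, Nontrivial (V i)) →
  (∃ p p', X.Adj p p') →
  (∀ z z' w w', u z w * u z' w' ≠ 0 → (DD X z z' ↔ DD X w w')) → Rig X A →
  ∀ z w z' w', u z w * u z' w' = u z' w' * u z w

end QSym
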