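import Pool.Agent.Lib.MP_a717c1_al.DQ.Defs

/-!
# Direct squares: statements of the modules about the Cartesian skeleton
-/

namespace QSym

open Finset SimpleGraph

open Classical in
/-- the sign attached to a 2-colouring -/
noncomputable def sg {W : Type*} (c : W → Prop) (w : W) : ℤ := if c w then 1 else -1

/-- the sign function of the target, seen from the source -/
noncomputable def FK {V W A : Type*} [Fintype W] [Ring A] (u : V → W → A) (c : W → Prop) (z : V) :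
    A := ∑ w, sg c w • u z w

/-- the hypothesis on a relation `D` on the vertices of `G`: no two different `K₂`-structures of
`G` interact trivially with `D` -/
def HypK2 {V : Type*} (G D : SimpleGraph V) : Prop :=
  ∀ (φ ψ : V → V) (c d : V → Prop), IsK2 G φ c → IsK2 G ψ d → (∀ z, φ z ≠ ψ z) →
    (∀ z z', D.Adj z z' ↔ D.Adj (φ (ψ z)) (φ (ψ z'))) →
    (∀ z z', ¬ ((c z ↔ d z) ↔ (c z' ↔ d z')) → (D.Adj z z' ↔ D.Adj z (φ (ψ z')))) → False

section

variable {V V₁ V₂ A : Type*} [Fintype V] [Fintype V₁] [Fintype V₂] [Ring A] [StarRing A]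

/-- the edges of a `K₂`-structure are not twisted -/
def NoTwK2 (G : SimpleGraph V) (u : V → V₁ × V₂ → A) : Prop :=
  ∀ φ c, IsK2 G φ c → ∀ a, ¬ Tw G u a (φ a)

/-- no involutive automorphism moves all vertices along twisted edges -/
def NoMat (G : SimpleGraph V) (u : V → V₁ × V₂ → A) : Prop :=
  ∀ φ : V → V, (∀ x, φ (φ x) = x) → (∀ x y, G.Adj x y → G.Adj (φ x) (φ y)) →
    ¬ ∀ z, Tw G u z (φ z)

end

/-- Lemma K (module K2) -/
def StLemK : Prop := ∀ (V W A : Type) [Fintype V] [Fintype W] [Ring A] [StarRing A] [FReal A]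
  (G : SimpleGraph V) (H : SimpleGraph W) (u : V → W → A) (φ' : W → W) (c' : W → Prop),
  QI G H u → IsK2 H φ' c' → G.Connected → ∀ a₀ b₀, G.Adj a₀ b₀ → FK u c' a₀ ≠ FK u c' b₀ →
    ∃ (φ : V → V) (c : V → Prop), IsK2 G φ c ∧ φ a₀ = b₀ ∧ c a₀ ∧
      ∀ z, FK u c' z - FK u c' (φ z) = sg c z • (FK u c' a₀ - FK u c' b₀)

/-- module K2 -/
def StK2 : Prop := ∀ (V V₁ V₂ A : Type) [Fintype V] [Fintype V₁] [Fintype V₂] [Ring A]
  [StarRing A] [FReal A] (G D : SimpleGraph V) (G₁ : SimpleGraph V₁) (G₂ : SimpleGraph V₂)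
  (D' : SimpleGraph (V₁ × V₂)) (u : V → V₁ × V₂ → A),
  QI G (G₁ □ G₂) u → QI D D' u → G.Connected → (G₁ □ G₂).Connected → HypK2 G D → NoTwK2 G u

/-- module PHI -/
def StPhi : Prop := ∀ (V V₁ V₂ A : Type) [Fintype V] [Fintype V₁] [Fintype V₂] [Ring A]
  [StarRing A] [FReal A] (G : SimpleGraph V) (G₁ : SimpleGraph V₁) (G₂ : SimpleGraph V₂)
  (u : V → V₁ × V₂ → A),
  QI G (G₁ □ G₂) u → G.Connected → (G₁ □ G₂).Connected → NoTwK2 G u → NoMat G u

/-- module NOTWIST -/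
def StNot : Prop := ∀ (V V₁ V₂ A : Type) [Fintype V] [Fintype V₁] [Fintype V₂] [Ring A]
  [StarRing A] [FReal A] (G D : SimpleGraph V) (G₁ : SimpleGraph V₁) (G₂ : SimpleGraph V₂)
  (D' : SimpleGraph (V₁ × V₂)) (u : V → V₁ × V₂ → A),
  QI G (G₁ □ G₂) u → QI D D' u → G.Connected → (G₁ □ G₂).Connected → HypK2 G D →
    ∀ a b, G.Adj a b → CP u (hh u a b)

/-- module CLS -/
def StCls : Prop := ∀ (V : Type) [Fintype V] (X Γ : SimpleGraph V), Γ.Connected → X.Connected →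
  ¬ X.Colorable 2 → TwinFree X → ¬ DisjAut X → HypK2 (Γ □ Γ) (dprod X X)

end QSym
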