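import Pool.Agent.Lib.MP_a717c1_al.DQ.Defs2

/-!
# Direct squares: the final assembly
-/

set_option linter.unusedSectionVars false
set_option linter.unusedDecidableInType false

namespace QSym

open Finset SimpleGraph Relation

/-- the hypothesis on `D` is invariant under relabelling -/
theorem HypK2.transport {V W : Type*} {G D : SimpleGraph V} (E : W ≃ V) (h : HypK2 G D) :
    HypK2 (G.comap E) (D.comap E) := by
  intro φ ψ c d hφ hψ hne h1 h2
  let e : (G.comap E) ≃g G := ⟨E, Iff.rfl⟩
  have ee : ∀ y, e y = E y := fun _ => rfl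
  have es : ∀ y, e.symm y = E.symm y := fun _ => rfl
  refine h _ _ _ _ (hφ.transport e) (hψ.transport e) ?_ ?_ ?_
  · intro z hz
    exact hne (E.symm z) (E.injective hz)
  · intro z z'
    have := h1 (E.symm z) (E.symm z')
    simp only [SimpleGraph.comap_adj, Equiv.apply_symm_apply] at this
    rw [this]
    simp only [ee, es, Equiv.symm_apply_apply]
  · intro z z' hz
    have := h2 (E.symm z) (E.symm z') hz
    simp only [SimpleGraph.comap_adj, Equiv.apply_symm_apply] at this
    rw [this]
    simp only [ee, es, Equiv.symm_apply_apply]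

/-- the direct square over a formally real star ring -/
theorem rig_dsquare52 (hNot : StNot) (hBlk : StBlk) (hSkel : StSkel) (hCls : StCls)
    {V : Type} [Fintype V] {A : Type} [Ring A] [StarRing A] [FReal A] (X : SimpleGraph V)
    (hX : X.Connected) (h2 : ¬ X.Colorable 2) (hT : TwinFree X) (hD : ¬ DisjAut X)
    (hR : Rig X A) : Rig (dprod X X) A := by
  classical
  intro u hu
  obtain ⟨Γ, hΓ, hΓ2⟩ := hSkel V X hX h2 hT
  have hu2 := hΓ2 A u hu
  obtain ⟨ι, _, V', _, x, hp, hc, hn, ⟨e⟩⟩ := exists_prime_decomp _ V Γ hΓ rfl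
  let J := ι × Bool
  let xx : ∀ j : ι × Bool, SimpleGraph (V' j.1) := fun j => x j.1
  let E : PiBox xx ≃g (Γ □ Γ) := (squareIso x).trans (boxCongr e e).symm
  have hΓΓ : (Γ □ Γ).Connected := hΓ.boxProd hΓ
  have hZ : (PiBox xx).Connected := E.connected_iff.2 hΓΓ
  -- the relation on the coordinates
  let D : SimpleGraph (∀ j : ι × Bool, V' j.1) := (dprod X X).comap E
  let X' : SimpleGraph (∀ i, V' i) := X.comap e.symm
  let eX : X ≃g X' := ⟨e.toEquiv, by
    intro a b
    change X.Adj (e.symm (e a)) (e.symm (e b)) ↔ X.Adj a b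
    rw [e.symm_apply_apply, e.symm_apply_apply]⟩
  have hDD : ∀ z z', D.Adj z z' ↔ DD X' z z' := fun z z' => Iff.rfl
  let v : (∀ j : ι × Bool, V' j.1) → (∀ j : ι × Bool, V' j.1) → A := fun z w => u (E z) (E w)
  have hv : QI (PiBox xx) (PiBox xx) v := (hu2.source E.symm).target E.symm
  let eD : (dprod X X) ≃g D := ⟨E.symm.toEquiv, by
    intro a b
    change (dprod X X).Adj (E (E.symm a)) (E (E.symm b)) ↔ (dprod X X).Adj a b
    rw [E.apply_symm_apply, E.apply_symm_apply]⟩
  have hvD : QI D D v := (hu.source eD).target eD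
  have hHyp : HypK2 (PiBox xx) D := by
    have h3 := (hCls V X Γ hΓ hX h2 hT hD).transport (E.toEquiv)
    have e1 : (Γ □ Γ).comap E.toEquiv = PiBox xx := by
      ext a b
      exact E.map_adj_iff
    rwa [e1] at h3
  -- it suffices to treat `v`
  have key : ∀ z w z' w', v z w * v z' w' = v z' w' * v z w := by
    intro z w z' w'
    by_contra hne
    have hN : ∀ k z z', (PiBox xx).Adj z z' → IsPr (hh (us xx v k) z z') ∧
        CommU v (hh (us xx v k) z z') := by
      intro k z z' hz
      have hk := hv.slot k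
      let D' : SimpleGraph (V' k.1 × (∀ j : {j : ι × Bool // j ≠ k}, V' j.1.1)) :=
        D.comap (slotIso xx k).symm
      let eS : D ≃g D' := ⟨(slotIso xx k).toEquiv, by
        intro a b
        change D.Adj ((slotIso xx k).symm (slotIso xx k a))
          ((slotIso xx k).symm (slotIso xx k b)) ↔ D.Adj a b
        rw [(slotIso xx k).symm_apply_apply, (slotIso xx k).symm_apply_apply]⟩
      have hkD : QI D D' (us xx v k) := hvD.target eS
      have hZ2 : ((xx k) □ (PiBox (fun j : {j : ι × Bool // j ≠ k} => xx j))).Connected :=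
        (slotIso xx k).connected_iff.1 hZ
      have h5 := hNot _ _ _ A (PiBox xx) D _ _ D' (us xx v k) hk hkD hZ hZ2 hHyp z z' hz
      refine ⟨h5.pr, ?_⟩
      intro y w
      have := h5.comm y (slotIso xx k w)
      rwa [us_apply] at this
    obtain ⟨P, p1, p2, p3, p4⟩ := decide_slots hN (sub_ne_zero.2 hne) Finset.univ
    have hP0 : P ≠ 0 := by
      rintro rfl
      exact p3 (zero_mul _)
    have h6 := hv.corner p1 p2
    have hd : Decided xx (cu p1 v p2) := by
      intro k y y' hy
      have e1 : (hh (us xx (cu p1 v p2) k) y y').val = P * hh (us xx v k) y y' :=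
        cu_hh p1 (p2.us (x := xx) k) y y'
      rcases p4 (k, y, y') (Finset.mem_univ _) hy with h | h
      · left; apply Cor.ext; rw [e1]; exact h
      · right; apply Cor.ext; rw [e1]; exact h
    have hE : ∃ p p', X'.Adj p p' := by
      by_contra hcon
      push Not at hcon
      apply h2
      refine ⟨SimpleGraph.Coloring.mk (fun _ => (0 : Fin 2)) ?_⟩
      intro a b hab
      exact absurd (eX.map_adj_iff.2 hab) (hcon _ _)
    have h7 := hBlk ι V' x X' (Cor p1) (cu p1 v p2) h6 (Cor.one_ne_zero hP0) hd hZ hc hp hn hE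
      (fun z z' w w' h8 => by
        rw [← hDD, ← hDD]
        exact (hvD.corner p1 p2).adj z z' w w' h8)
      ((hR.iso eX).corner p1) z w z' w'
    apply p3
    have h8 := congrArg Cor.val h7
    rw [Cor.val_mul, Cor.val_mul, cu_val, cu_val] at h8
    have e1 : P * v z w * (P * v z' w') = P * (v z w * v z' w') := by
      rw [mul_assoc, ← mul_assoc (v z w), ← p2, mul_assoc P (v z w), ← mul_assoc, p1.idem.eq]
    have e2 : P * v z' w' * (P * v z w) = P * (v z' w' * v z w) := by
      rw [mul_assoc, ← mul_assoc (v z' w'), ← p2, mul_assoc P (v z' w'), ← mul_assoc,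
        p1.idem.eq]
    rw [e1, e2] at h8
    rw [mul_sub, h8, sub_self]
  intro i j k l
  have := key (E.symm i) (E.symm j) (E.symm k) (E.symm l)
  simpa [v] using this

/-- direct squares without quantum symmetry -/
theorem dsquare_iff52 (hNec : StNec) (hNot : StNot) (hBlk : StBlk) (hSkel : StSkel)
    (hCls : StCls) (V : Type) [Fintype V] (X : SimpleGraph V) (hV : 2 ≤ Fintype.card V) :
    NoQuantumSymmetry (dprod X X) ↔
      X.Connected ∧ ¬ X.Colorable 2 ∧ TwinFree X ∧ NoQuantumSymmetry X := by
  constructor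
  · exact hNec V X hV
  · rintro ⟨h1, h2, h3, h4⟩
    have h5 : ¬ DisjAut X := fun h => not_noQS_of_disjAut h h4
    rw [noQS_iff] at h4 ⊢
    intro A _
    exact rig_dsquare52 hNot hBlk hSkel hCls X h1 h2 h3 h5 (h4 A)

theorem noQS_of_card52 {V : Type} [Fintype V] (X : SimpleGraph V) (h : Fintype.card V ≤ 1) :
    NoQuantumSymmetry X := by
  intro A _ u _ _ i j k l
  have hs : Subsingleton V := Fintype.card_le_one_iff_subsingleton.1 h
  rw [Subsingleton.elim k i, Subsingleton.elim l j]

/-- direct squares without quantum symmetry, for all finite graphs -/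
theorem dsquare_full52 (hNec : StNec) (hNot : StNot) (hBlk : StBlk) (hSkel : StSkel)
    (hCls : StCls) (V : Type) [Fintype V] (X : SimpleGraph V) :
    NoQuantumSymmetry (dprod X X) ↔
      (Fintype.card V ≤ 1 ∨
        (X.Connected ∧ ¬ X.Colorable 2 ∧ TwinFree X ∧ NoQuantumSymmetry X)) := by
  rcases Nat.lt_or_ge (Fintype.card V) 2 with h | h
  · have h1 : Fintype.card V ≤ 1 := by omega
    constructor
    · intro _
      exact Or.inl h1
    · intro _
      apply noQS_of_card52
      rw [Fintype.card_prod]
      calc Fintype.card V * Fintype.card V ≤ 1 * 1 := Nat.mul_le_mul h1 h1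
        _ = 1 := rfl
  · rw [dsquare_iff52 hNec hNot hBlk hSkel hCls V X h]
    constructor
    · intro h1
      exact Or.inr h1
    · rintro (h1 | h1)
      · omega
      · exact h1

end QSym
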