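import Pool.Agent.Lib.MP_a717c1_al.DQ.Defs2

/-!
# `K₂`-structures and quantum isomorphisms
-/

set_option linter.unusedSectionVars false
set_option linter.unusedDecidableInType false

namespace QSym

open Finset SimpleGraph

theorem sg_sq {W : Type*} (c : W → Prop) (w : W) : sg c w * sg c w = 1 := by
  unfold sg; split_ifs <;> rfl

theorem sg_eq {W : Type*} {c : W → Prop} {w x : W} (h : c w ↔ c x) : sg c w = sg c x := by
  unfold sg
  by_cases h1 : c w
  · rw [if_pos h1, if_pos (h.1 h1)]
  · rw [if_neg h1, if_neg (fun h2 => h1 (h.2 h2))]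

theorem sg_ne {W : Type*} {c : W → Prop} {w x : W} (h : ¬ (c w ↔ c x)) : sg c w = - sg c x := by
  unfold sg
  by_cases h1 : c w
  · have h2 : ¬ c x := fun h2 => h ⟨fun _ => h2, fun _ => h1⟩
    rw [if_pos h1, if_neg h2]; rfl
  · have h2 : c x := by
      by_contra h2
      exact h ⟨fun h3 => absurd h3 h1, fun h3 => absurd h3 h2⟩
    rw [if_neg h1, if_pos h2]

theorem sg_cases {W : Type*} (c : W → Prop) (w : W) : sg c w = 1 ∨ sg c w = -1 := by
  unfold sg; split_ifs
  · left; rfl
  · right; rfl

namespace IsK2

variable {V : Type*} [Fintype V] {G : SimpleGraph V} {φ : V → V} {c : V → Prop}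

theorem cφ (h : IsK2 G φ c) (x : V) : ¬ (c x ↔ c (φ x)) := (h.col x (φ x) (h.move x)).2 rfl

theorem inj (h : IsK2 G φ c) {x y : V} (hxy : φ x = φ y) : x = y := by
  rw [← h.inv x, hxy, h.inv]

theorem sgφ (h : IsK2 G φ c) (x : V) : sg c (φ x) = - sg c x := by
  rw [sg_ne (h.cφ x), neg_neg]

theorem same (h : IsK2 G φ c) {x y : V} (hxy : G.Adj x y) (hne : y ≠ φ x) : c x ↔ c y := by
  by_contra h2
  exact hne ((h.col x y hxy).1 h2)

/-- the square over an edge not in the direction of the structure -/
theorem dia (h : IsK2 G φ c) {z z' : V} (hz : G.Adj z z') (hne : z' ≠ φ z) :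
    Dia G z (φ z) (φ z') z' := by
  have hc := h.same hz hne
  have h1 := h.cφ z'
  refine ⟨?_, Ne.symm hne, ?_⟩
  · intro h2
    apply hne
    rw [h2, h.inv]
  · intro m
    constructor
    · rintro ⟨h2, h3⟩
      by_cases h4 : m = φ z
      · exact Or.inl h4
      · right
        have h5 := h.same h2 h4
        have h6 : ¬ (c m ↔ c (φ z')) := by tauto
        have h7 := (h.col m (φ z') h3).1 h6
        exact (h.inj h7).symm
    · rintro (rfl | rfl)
      · exact ⟨h.move z, h.adj _ _ hz⟩
      · exact ⟨hz, h.move m⟩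

/-- the colours along a square whose first diagonal has exactly two common neighbours -/
theorem sum_dia (h : IsK2 G φ c) {w x y x' : V} (hd : Dia G w x y x') :
    sg c x + sg c x' = sg c w + sg c y := by
  by_cases h1 : c w ↔ c y
  · -- the common neighbours have the same colour
    have key : ∀ m, G.Adj w m → G.Adj m y → sg c m = sg c w := by
      intro m h2 h3
      symm
      apply sg_eq
      by_contra h4
      have h5 := (h.col w m h2).1 h4
      have h6 : ¬ (c y ↔ c m) := by tauto
      have h7 := (h.col y m h3.symm).1 h6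
      exact hd.ac (h.inj (h5.symm.trans h7))
    rw [key x hd.ab hd.bc, key x' hd.ad hd.dc, sg_eq h1]
  · have key : ∀ m, G.Adj w m → G.Adj m y → m = φ w ∨ m = φ y := by
      intro m h2 h3
      by_cases h4 : c w ↔ c m
      · right
        have h5 : ¬ (c y ↔ c m) := by tauto
        exact (h.col y m h3.symm).1 h5
      · left
        exact (h.col w m h2).1 h4
    have hs := sg_ne h1
    rcases key x hd.ab hd.bc with h2 | h2 <;> rcases key x' hd.ad hd.dc with h3 | h3
    · exact absurd (h2.trans h3.symm) hd.bd
    · rw [h2, h3, h.sgφ, h.sgφ, hs]; ring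
    · rw [h2, h3, h.sgφ, h.sgφ, hs]; ring
    · exact absurd (h2.trans h3.symm) hd.bd

/-- two `K₂`-structures agreeing at one vertex agree everywhere -/
theorem eq_of_eq (h : IsK2 G φ c) {ψ : V → V} {d : V → Prop} (h' : IsK2 G ψ d)
    (hG : G.Connected) {a : V} (ha : φ a = ψ a) (z : V) : φ z = ψ z := by
  have h0 := (SimpleGraph.reachable_iff_reflTransGen a z).1 (hG.preconnected a z)
  induction h0 with
  | refl => exact ha
  | @tail p q _ hpq ih =>
    by_cases h1 : q = φ p
    · rw [h1, h.inv, ih, h'.inv]
    · have h2 : q ≠ ψ p := by rw [← ih]; exact h1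
      have hd := h.dia hpq.symm (z := q) (z' := p) (by
        intro h3; apply h1; rw [h3, h.inv])
      -- common neighbours of `q` and `φ p` are `φ q` and `p`
      have h3 : G.Adj q (ψ q) ∧ G.Adj (ψ q) (φ p) := by
        refine ⟨h'.move q, ?_⟩
        rw [ih]
        exact h'.adj _ _ hpq.symm
      rcases (hd.iff (ψ q)).1 h3 with h4 | h4
      · exact h4.symm
      · exfalso
        apply h2
        rw [← h4, h'.inv]

end IsK2

section

variable {V W : Type*} [Fintype V] [Fintype W]
variable {A : Type*} [Ring A] [StarRing A] [FReal A]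
variable {G : SimpleGraph V} {H : SimpleGraph W} {u : V → W → A}

theorem zsmul_eq_zero' {n : ℤ} (hn : n ≠ 0) {x : A} (h : n • x = 0) : x = 0 := by
  obtain ⟨m, rfl | rfl⟩ := n.eq_nat_or_neg
  · refine freal_nsmul (n := m) (by simpa using hn) ?_
    rw [natCast_zsmul] at h; exact h
  · refine freal_nsmul (n := m) (by simpa using hn) ?_
    rw [neg_smul, natCast_zsmul, neg_eq_zero] at h; exact h

theorem sg_smul_smul {W : Type*} (c : W → Prop) (w : W) (x : A) : sg c w • (sg c w • x) = x := by
  rw [smul_smul, sg_sq, one_smul]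

variable (hu : QI G H u)
include hu

theorem QI.FK_star (c : W → Prop) (z : V) : star (FK u c z) = FK u c z := by
  unfold FK
  rw [star_sum]
  exact Finset.sum_congr rfl fun w _ => by rw [star_zsmul, hu.star_eq]

theorem QI.u_FK (c : W → Prop) (z : V) (w : W) : u z w * FK u c z = sg c w • u z w := by
  classical
  unfold FK
  rw [Finset.mul_sum, Finset.sum_eq_single w]
  · rw [mul_smul_comm, hu.mul_self]
  · intro x _ hx
    rw [mul_smul_comm, hu.row_orth hx.symm, smul_zero]
  · simp

theorem QI.FK_u (c : W → Prop) (z : V) (w : W) : FK u c z * u z w = sg c w • u z w := by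
  have := congrArg star (hu.u_FK c z w)
  rwa [star_mul, star_zsmul, hu.star_eq, hu.FK_star] at this

theorem QI.FK_sq (c : W → Prop) (z : V) : FK u c z * FK u c z = 1 := by
  conv_lhs => enter [2]; rw [FK]
  rw [Finset.mul_sum, ← hu.row z]
  refine Finset.sum_congr rfl fun w _ => ?_
  rw [mul_smul_comm, hu.FK_u, sg_smul_smul]

/-- `F a x = 0` only for `x = 0` -/
theorem QI.FK_cancel (c : W → Prop) (z : V) {x : A} (h : FK u c z * x = 0) : x = 0 := by
  have : FK u c z * (FK u c z * x) = 0 := by rw [h, mul_zero]
  rwa [← mul_assoc, hu.FK_sq, one_mul] at this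

/-- an element killed by all `u z w` from the left vanishes -/
theorem QI.eq_zero_left (z : V) {x : A} (h : ∀ w, u z w * x = 0) : x = 0 := by
  have : (∑ w, u z w) * x = 0 := by
    rw [Finset.sum_mul]; exact Finset.sum_eq_zero fun w _ => h w
  rwa [hu.row, one_mul] at this

theorem QI.eq_of_left (z : V) {x y : A} (h : ∀ w, u z w * x = u z w * y) : x = y := by
  rw [← sub_eq_zero]
  apply hu.eq_zero_left z
  intro w
  rw [mul_sub, h, sub_self]

theorem QI.eq_of_both (z z' : V) {x y : A} (h : ∀ w w', u z w * x * u z' w' = u z w * y * u z' w') :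
    x = y := by
  apply hu.eq_of_left z
  intro w
  have e : ∀ t : A, u z w * t = ∑ w', u z w * t * u z' w' := by
    intro t
    rw [← Finset.mul_sum, hu.row, mul_one]
  rw [e x, e y]
  exact Finset.sum_congr rfl fun w' _ => h w w'

/-- sum over the middle source vertex -/
theorem QI.sum_mid_col (a c : V) (w x y : W) :
    ∑ m, u a w * u m x * u c y = u a w * u c y := by
  rw [← Finset.sum_mul, ← Finset.mul_sum, hu.col, mul_one]

theorem QI.sum_mid_row (a m c : V) (w y : W) :
    ∑ x, u a w * u m x * u c y = u a w * u c y := by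
  rw [← Finset.sum_mul, ← Finset.mul_sum, hu.row, mul_one]

open Classical in
/-- the two middle vertices of a square of the source -/
theorem QI.dia_mid {a b c d : V} (h : Dia G a b c d) (w x y : W) :
    u a w * u b x * u c y + u a w * u d x * u c y =
      if H.Adj w x ∧ H.Adj x y then u a w * u c y else 0 := by
  classical
  split_ifs with h1
  · rw [← hu.sum_mid_col a c w x y]
    rw [← Finset.sum_subset (Finset.subset_univ {b, d})]
    · rw [Finset.sum_pair h.bd]
    · intro m _ hm
      by_contra hne
      have h2 : u a w * u m x ≠ 0 := fun h2 => hne (by rw [h2, zero_mul])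
      have h3 : u m x * u c y ≠ 0 := fun h3 => hne (by rw [mul_assoc, h3, mul_zero])
      have h4 := (hu.adj _ _ _ _ h2).2 h1.1
      have h5 := (hu.adj _ _ _ _ h3).2 h1.2
      apply hm
      rcases (h.iff m).1 ⟨h4, h5⟩ with h6 | h6
      · simp [h6]
      · simp [h6]
  · have key : ∀ m, G.Adj a m → G.Adj m c → u a w * u m x * u c y = 0 := by
      intro m h2 h3
      by_contra hne
      apply h1
      have h4 : u a w * u m x ≠ 0 := fun h2 => hne (by rw [h2, zero_mul])
      have h5 : u m x * u c y ≠ 0 := fun h3 => hne (by rw [mul_assoc, h3, mul_zero])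
      exact ⟨(hu.adj _ _ _ _ h4).1 h2, (hu.adj _ _ _ _ h5).1 h3⟩
    rw [key b h.ab h.bc, key d h.ad h.dc, add_zero]

/-- Lemma 1: `F a + F c = F b + F d` on squares. -/
theorem QI.FK_dia {φ' : W → W} {c' : W → Prop} (hK : IsK2 H φ' c') {a b c d : V}
    (h : Dia G a b c d) : FK u c' a + FK u c' c = FK u c' b + FK u c' d := by
  classical
  apply hu.eq_of_both a c
  intro w y
  have e1 : u a w * (FK u c' a + FK u c' c) * u c y = (sg c' w + sg c' y) • (u a w * u c y) := by
    rw [mul_add, add_mul, hu.u_FK, mul_assoc (u a w) (FK u c' c), hu.FK_u, smul_mul_assoc,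
      mul_smul_comm, add_smul]
  have e2 : u a w * (FK u c' b + FK u c' d) * u c y =
      ∑ x, sg c' x • (if H.Adj w x ∧ H.Adj x y then u a w * u c y else 0) := by
    have : FK u c' b + FK u c' d = ∑ x, sg c' x • (u b x + u d x) := by
      unfold FK
      rw [← Finset.sum_add_distrib]
      exact Finset.sum_congr rfl fun x _ => by rw [smul_add]
    rw [this, Finset.mul_sum, Finset.sum_mul]
    refine Finset.sum_congr rfl fun x _ => ?_
    rw [mul_smul_comm, smul_mul_assoc, mul_add, add_mul, hu.dia_mid h]
  rw [e1, e2]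
  by_cases h0 : u a w * u c y = 0
  · rw [h0, smul_zero]
    symm
    apply Finset.sum_eq_zero
    intro x _
    simp
  · have h1 : w ≠ y := by
      intro h1
      exact h.ac ((hu.eq_of_ne h0).2 h1)
    have h2 : cn H w y = 2 := by
      rw [← compat_cn hu _ _ _ _ h0]; exact cn_of_dia h
    obtain ⟨x₁, h3, h4⟩ : ∃ x, H.Adj w x ∧ H.Adj x y := by
      by_contra hcon
      push Not at hcon
      have : cn H w y = 0 := by
        unfold cn
        apply Finset.sum_eq_zero
        intro m _
        unfold ad
        by_cases h5 : H.Adj w m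
        · rw [if_neg (hcon m h5), mul_zero]
        · rw [if_neg h5, zero_mul]
      omega
    obtain ⟨x₂, hd⟩ := dia_of_cn h1 h2 h3 h4
    rw [← Finset.sum_subset (Finset.subset_univ {x₁, x₂})]
    · rw [Finset.sum_pair hd.bd, if_pos ⟨hd.ab, hd.bc⟩, if_pos ⟨hd.ad, hd.dc⟩, ← add_smul,
        hK.sum_dia hd]
    · intro m _ hm
      rw [if_neg, smul_zero]
      intro h5
      apply hm
      rcases (hd.iff m).1 h5 with h6 | h6
      · simp [h6]
      · simp [h6]

/-- formula (E) -/
theorem QI.u_FK_sub {φ' : W → W} {c' : W → Prop} (hK : IsK2 H φ' c') {a b : V} (hab : G.Adj a b)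
    (w : W) : u a w * (FK u c' a - FK u c' b) = (2 * sg c' w) • (u a w * u b (φ' w)) := by
  classical
  have e1 : u a w * FK u c' a = ∑ x, sg c' w • (u a w * u b x) := by
    rw [hu.u_FK, ← Finset.smul_sum, ← Finset.mul_sum, hu.row, mul_one]
  have e2 : u a w * FK u c' b = ∑ x, sg c' x • (u a w * u b x) := by
    unfold FK
    rw [Finset.mul_sum]
    exact Finset.sum_congr rfl fun x _ => by rw [mul_smul_comm]
  rw [mul_sub, e1, e2, ← Finset.sum_sub_distrib, Finset.sum_eq_single (φ' w)]
  · rw [hK.sgφ, neg_smul, sub_neg_eq_add, ← add_smul, two_mul]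
  · intro x _ hx
    by_cases h0 : u a w * u b x = 0
    · rw [h0, smul_zero, smul_zero, sub_zero]
    · have h1 := (hu.adj _ _ _ _ h0).1 hab
      rw [sg_eq (hK.same h1 hx), sub_self]
  · simp

theorem QI.FK_sub_u {φ' : W → W} {c' : W → Prop} (hK : IsK2 H φ' c') {a b : V} (hab : G.Adj a b)
    (w : W) : (FK u c' a - FK u c' b) * u a w = (2 * sg c' w) • (u b (φ' w) * u a w) := by
  have := congrArg star (hu.u_FK_sub hK hab w)
  rw [star_mul, star_sub, hu.FK_star, hu.FK_star, hu.star_eq, star_zsmul, star_mul, hu.star_eq,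
    hu.star_eq] at this
  exact this

theorem two_sg_ne {W : Type*} (c : W → Prop) (w : W) : 2 * sg c w ≠ 0 := by
  rcases sg_cases c w with h | h <;> rw [h] <;> norm_num

/-- Lemma U: two different neighbours have different differences. -/
theorem QI.FK_uniq {φ' : W → W} {c' : W → Prop} (hK : IsK2 H φ' c') {a b b' : V}
    (hab : G.Adj a b) (hab' : G.Adj a b') (hne : b ≠ b') {n : ℤ}
    (h : FK u c' a - FK u c' b = n • (FK u c' a - FK u c' b')) : FK u c' a = FK u c' b := by
  rw [← sub_eq_zero]
  apply hu.eq_zero_left a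
  intro w
  have e1 := hu.u_FK_sub hK hab w
  have e2 := hu.u_FK_sub hK hab' w
  have e3 : u a w * u b (φ' w) = n • (u a w * u b' (φ' w)) := by
    have : (2 * sg c' w) • (u a w * u b (φ' w)) =
        (2 * sg c' w) • (n • (u a w * u b' (φ' w))) := by
      rw [← e1, h, mul_smul_comm, e2, smul_comm]
    have h2 : (2 * sg c' w) • (u a w * u b (φ' w) - n • (u a w * u b' (φ' w))) = 0 := by
      rw [smul_sub, this, sub_self]
    exact sub_eq_zero.1 (zsmul_eq_zero' (two_sg_ne hu c' w) h2)
  have e4 : u a w * u b (φ' w) = 0 := by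
    calc u a w * u b (φ' w) = u a w * u b (φ' w) * u b (φ' w) := by rw [mul_assoc, hu.mul_self]
      _ = n • (u a w * u b' (φ' w)) * u b (φ' w) := by rw [e3]
      _ = 0 := by
        rw [smul_mul_assoc, mul_assoc, hu.col_orth hne.symm, mul_zero, smul_zero]
  rw [e1, e4, smul_zero]

/-- Lemma 2: every other neighbour spans a unique square. -/
theorem QI.FK_good {φ' : W → W} {c' : W → Prop} (hK : IsK2 H φ' c') {a b a' : V}
    (hab : G.Adj a b) (hF : FK u c' a ≠ FK u c' b) (ha : G.Adj a a') (hne : a' ≠ b) :
    ∃ b', Dia G a' a b b' := by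
  classical
  by_cases h2 : cn G a' b = 2
  · exact dia_of_cn hne h2 ha.symm hab
  · exfalso
    have key : FK u c' a' = FK u c' b := by
      apply hu.eq_of_both a' b
      intro w x
      rw [hu.u_FK, mul_assoc, hu.FK_u, smul_mul_assoc, mul_smul_comm]
      by_cases h0 : u a' w * u b x = 0
      · rw [h0, smul_zero, smul_zero]
      · congr 1
        apply sg_eq
        by_contra h3
        -- a middle vertex of the target
        obtain ⟨m, hm⟩ : ∃ m, H.Adj w m ∧ H.Adj m x := by
          have h5 : cn G a' b ≠ 0 := by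
            intro h5
            unfold cn at h5
            rw [Finset.sum_eq_zero_iff] at h5
            have := h5 a (Finset.mem_univ _)
            rw [ad_of_adj ha.symm, ad_of_adj hab] at this
            omega
          rw [compat_cn hu _ _ _ _ h0] at h5
          by_contra hcon
          push Not at hcon
          apply h5
          unfold cn
          apply Finset.sum_eq_zero
          intro m _
          unfold ad
          by_cases h6 : H.Adj w m
          · rw [if_neg (hcon m h6), mul_zero]
          · rw [if_neg h6, zero_mul]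
        have hwx : w ≠ x := by
          rintro rfl
          exact h3 Iff.rfl
        apply h2
        rw [compat_cn hu _ _ _ _ h0]
        -- the pair `w, x` has exactly two common neighbours
        by_cases h6 : m = φ' w
        · -- `x ~ φ' w`
          have h7 : x ≠ φ' m := by
            rw [h6, hK.inv]; exact hwx.symm
          have h8 := hK.dia hm.2 h7
          -- Dia m (φ' m) (φ' x) x, with φ' m = w
          have h9 : φ' m = w := by rw [h6, hK.inv]
          have h10 : G.Adj a' a := ha.symm
          have h11 : H.Adj w (φ' x) := by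
            have := hK.adj _ _ hm.2
            rwa [h9] at this
          have h12 : φ' x ≠ φ' w := fun h13 => hwx (hK.inj h13).symm
          have h13 := hK.dia h11 h12
          rw [hK.inv] at h13
          exact cn_of_dia h13
        · -- `c' w ↔ c' m`, so `x = φ' m`
          have h7 := hK.same hm.1 h6
          have h8 : ¬ (c' m ↔ c' x) := by tauto
          have h9 := (hK.col m x hm.2).1 h8
          have h10 := hK.dia hm.1 h6
          rw [← h9] at h10
          exact cn_of_dia h10
    apply hF
    refine hu.FK_uniq hK hab ha hne.symm (n := 1) ?_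
    rw [key, one_smul]

end

end QSym
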