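import Pool.Agent.Lib.MP_a717c1_al.DQ.K2a

/-!
# Lemma K: a `K₂`-structure of the target gives one of the source
-/

set_option linter.unusedSectionVars false
set_option linter.unusedDecidableInType false

namespace QSym

open Finset SimpleGraph

section

variable {V W : Type*} [Fintype V] [Fintype W]
variable {A : Type*} [Ring A] [StarRing A] [FReal A]
variable {G : SimpleGraph V} {H : SimpleGraph W} {u : V → W → A}

variable (hu : QI G H u)
include hu

/-- transport along an edge -/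
theorem QI.FK_out {φ' : W → W} {c' : W → Prop} (hK : IsK2 H φ' c') {a b a' : V}
    (hab : G.Adj a b) (hF : FK u c' a ≠ FK u c' b) (ha : G.Adj a a') (hne : a' ≠ b) :
    ∃ b', G.Adj a' b' ∧ G.Adj b b' ∧ b' ≠ a ∧
      FK u c' a' - FK u c' b' = FK u c' a - FK u c' b := by
  obtain ⟨b', hd⟩ := hu.FK_good hK hab hF ha hne
  have h1 := hu.FK_dia hK hd
  refine ⟨b', hd.ad, hd.dc.symm, hd.bd.symm, ?_⟩
  rw [sub_eq_sub_iff_add_eq_add, h1]

/-- **Lemma K** -/
theorem QI.lemK {φ' : W → W} {c' : W → Prop} (hK : IsK2 H φ' c') (hG : G.Connected) {a₀ b₀ : V}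
    (hab : G.Adj a₀ b₀) (hF : FK u c' a₀ ≠ FK u c' b₀) :
    ∃ (φ : V → V) (c : V → Prop), IsK2 G φ c ∧ φ a₀ = b₀ ∧ c a₀ ∧
      ∀ z, FK u c' z - FK u c' (φ z) = sg c z • (FK u c' a₀ - FK u c' b₀) := by
  classical
  have hD0 : FK u c' a₀ - FK u c' b₀ ≠ 0 := sub_ne_zero.2 hF
  obtain ⟨D, hD⟩ : ∃ D, D = FK u c' a₀ - FK u c' b₀ := ⟨_, rfl⟩
  rw [← hD] at hD0 ⊢
  let P : V → V → Prop := fun x x' => G.Adj x x' ∧ FK u c' x - FK u c' x' = D
  have Pne : ∀ {x x'}, P x x' → FK u c' x ≠ FK u c' x' := by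
    rintro x x' ⟨_, h2⟩ h3
    apply hD0
    rw [← h2, h3, sub_self]
  have Pout : ∀ {x x' y}, P x x' → G.Adj x y → y ≠ x' → ∃ y', P y y' ∧ G.Adj x' y' ∧ y' ≠ x := by
    intro x x' y hP hy hne
    obtain ⟨y', h1, h2, h3, h4⟩ := hu.FK_out hK hP.1 (Pne hP) hy hne
    exact ⟨y', ⟨h1, h4.trans hP.2⟩, h2, h3⟩
  have Pin : ∀ {x x' y}, P x' x → G.Adj x y → y ≠ x' → ∃ y', P y' y ∧ G.Adj x' y' := by
    intro x x' y hP hy hne
    obtain ⟨y', h1, h2, h3, h4⟩ := hu.FK_out hK hP.1.symm (Pne hP).symm hy hne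
    refine ⟨y', ⟨h1.symm, ?_⟩, h2⟩
    rw [← neg_sub, h4, neg_sub]
    exact hP.2
  have Pu : ∀ {x y z}, P x y → P x z → y = z := by
    intro x y z h1 h2
    by_contra hne
    apply Pne h1
    refine hu.FK_uniq hK h1.1 h2.1 hne (n := 1) ?_
    rw [one_smul, h1.2, h2.2]
  have Pu' : ∀ {x y z}, P y x → P z x → y = z := by
    intro x y z h1 h2
    by_contra hne
    apply Pne h1
    symm
    refine hu.FK_uniq hK h1.1.symm h2.1.symm hne (n := 1) ?_
    rw [one_smul, ← neg_sub, h1.2, ← neg_sub (FK u c' z), h2.2]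
  have Pboth : ∀ {x y z}, P x y → P z x → False := by
    intro x y z h1 h2
    by_cases hyz : z = y
    · subst hyz
      apply hD0
      apply freal_two
      nth_rw 1 [← h1.2]
      rw [← h2.2]
      abel
    · apply Pne h2
      symm
      refine hu.FK_uniq hK h2.1.symm h1.1 hyz (n := -1) ?_
      rw [h1.2, ← neg_sub, h2.2, neg_smul, one_smul]
  have Pev : ∀ x, (∃ y, P x y) ∨ (∃ y, P y x) := by
    intro x
    have h0 := (SimpleGraph.reachable_iff_reflTransGen a₀ x).1 (hG.preconnected a₀ x)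
    induction h0 with
    | refl => exact Or.inl ⟨b₀, hab, hD.symm⟩
    | @tail p q _ hpq ih =>
      rcases ih with ⟨y, h1⟩ | ⟨y, h1⟩
      · by_cases h2 : q = y
        · subst h2; exact Or.inr ⟨p, h1⟩
        · obtain ⟨y', h3, _⟩ := Pout h1 hpq h2
          exact Or.inl ⟨y', h3⟩
      · by_cases h2 : q = y
        · subst h2; exact Or.inl ⟨p, h1⟩
        · obtain ⟨y', h3, _⟩ := Pin h1 hpq h2
          exact Or.inr ⟨y', h3⟩
  have Pev' : ∀ x, ∃ y, P x y ∨ P y x := by
    intro x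
    rcases Pev x with ⟨y, h⟩ | ⟨y, h⟩
    · exact ⟨y, Or.inl h⟩
    · exact ⟨y, Or.inr h⟩
  choose φ hφ using Pev'
  let c : V → Prop := fun x => ∃ y, P x y
  have φout : ∀ {x y}, P x y → φ x = y := by
    intro x y h
    rcases hφ x with h1 | h1
    · exact Pu h1 h
    · exact (Pboth h h1).elim
  have φin : ∀ {x y}, P y x → φ x = y := by
    intro x y h
    rcases hφ x with h1 | h1
    · exact (Pboth h1 h).elim
    · exact Pu' h1 h
  refine ⟨φ, c, ⟨?_, ?_, ?_, ?_⟩, φout ⟨hab, hD.symm⟩, ⟨b₀, hab, hD.symm⟩, ?_⟩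
  · intro x
    rcases hφ x with h1 | h1
    · exact φin h1
    · exact φout h1
  · intro x
    rcases hφ x with h1 | h1
    · exact h1.1
    · exact h1.1.symm
  · intro x y hxy
    by_cases h2 : y = φ x
    · subst h2
      have : φ (φ x) = x := by
        rcases hφ x with h1 | h1
        · exact φin h1
        · exact φout h1
      rw [this]; exact hxy.symm
    · rcases hφ x with h1 | h1
      · obtain ⟨y', h3, h4, _⟩ := Pout h1 hxy h2
        rw [φout h3]; exact h4
      · obtain ⟨y', h3, h4⟩ := Pin h1 hxy h2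
        rw [φin h3]; exact h4
  · intro x y hxy
    constructor
    · intro h1
      by_contra h2
      apply h1
      constructor
      · rintro ⟨z, hz⟩
        have : y ≠ z := by
          intro h; apply h2; rw [h, φout hz]
        obtain ⟨y', h3, _⟩ := Pout hz hxy this
        exact ⟨y', h3⟩
      · rintro ⟨z, hz⟩
        have : x ≠ z := by
          intro h
          apply h2
          rw [← h] at hz
          exact (φin hz).symm
        obtain ⟨y', h3, _⟩ := Pout hz hxy.symm this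
        exact ⟨y', h3⟩
    · rintro rfl h1
      rcases hφ x with h2 | h2
      · obtain ⟨z, hz⟩ := h1.1 ⟨_, h2⟩
        exact Pboth hz h2
      · obtain ⟨z, hz⟩ := h1.2 ⟨_, h2⟩
        exact Pboth hz h2
  · intro z
    by_cases hz : c z
    · obtain ⟨y, hy⟩ := hz
      have : sg c z = 1 := by unfold sg; rw [if_pos ⟨y, hy⟩]
      rw [this, one_smul, φout hy]
      exact hy.2
    · rcases hφ z with h1 | h1
      · exact absurd ⟨_, h1⟩ hz
      · have : sg c z = -1 := by unfold sg; rw [if_neg hz]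
        rw [this, neg_smul, one_smul, ← h1.2, neg_sub]

end

theorem stLemK : StLemK := by
  intro V W A _ _ _ _ _ G H u φ' c' hu hK hG a₀ b₀ hab hF
  exact hu.lemK hK hG hab hF

end QSym
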