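import Pool.Agent.Lib.MP_a717c1_al.DQ.K2b

/-!
# The elements attached to pairs of `K₂`-structures
-/

set_option linter.unusedSectionVars false
set_option linter.unusedDecidableInType false

namespace QSym

open Finset SimpleGraph

/-- different `K₂`-structures commute -/
theorem IsK2.comm {V : Type*} [Fintype V] {G : SimpleGraph V} {φ ψ : V → V} {c d : V → Prop}
    (h : IsK2 G φ c) (h' : IsK2 G ψ d) {z : V} (hne : φ z ≠ ψ z) : φ (ψ z) = ψ (φ z) := by
  have h1 := h'.dia (h.move z) hne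
  -- `z`, `ψ z`, `ψ (φ z)`, `φ z`
  have h2 : Dia G (ψ z) z (φ z) (ψ (φ z)) := by
    have := h'.dia (h'.adj _ _ (h.move z)) (z := ψ z) (z' := ψ (φ z)) (by
      rw [h'.inv]
      intro h3
      apply hne
      rw [← h'.inv (φ z), h3])
    rwa [h'.inv, h'.inv] at this
  rcases (h2.iff (φ (ψ z))).1 ⟨h.move _, (h.adj _ _ (h'.move z)).symm⟩ with h3 | h3
  · exfalso
    apply hne
    rw [← h3, h.inv, h3]
  · exact h3

/-- the intertwiner of two `K₂`-structures, seen from `z` -/
noncomputable def XK {V W A : Type*} [Fintype W] [Ring A] (u : V → W → A) (φ : V → V)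
    (c : V → Prop) (c' : W → Prop) (z : V) : A :=
  sg c z • (FK u c' z - FK u c' (φ z))

theorem FK_sub_eq {V W A : Type*} [Fintype W] [Ring A] (u : V → W → A) (φ : V → V)
    (c : V → Prop) (c' : W → Prop) (z : V) :
    FK u c' z - FK u c' (φ z) = sg c z • XK u φ c c' z := by
  unfold XK
  rw [smul_smul, sg_sq, one_smul]

section

variable {V W : Type*} [Fintype V] [Fintype W]
variable {A : Type*} [Ring A] [StarRing A] [FReal A]
variable {G : SimpleGraph V} {H : SimpleGraph W} {u : V → W → A}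
variable {φ' : W → W} {c' : W → Prop} {φ ψ : V → V} {c d : V → Prop}

variable (hu : QI G H u)
include hu

theorem QI.star_XK (z : V) : star (XK u φ c c' z) = XK u φ c c' z := by
  unfold XK
  rw [star_zsmul, star_sub, hu.FK_star, hu.FK_star]

theorem QI.XK_const (hK' : IsK2 H φ' c') (hK : IsK2 G φ c) (hG : G.Connected) (a z : V) :
    XK u φ c c' a = XK u φ c c' z := by
  have h0 := (SimpleGraph.reachable_iff_reflTransGen a z).1 (hG.preconnected a z)
  induction h0 with
  | refl => rfl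
  | @tail p q _ hpq ih =>
    rw [ih]
    by_cases h1 : q = φ p
    · subst h1
      unfold XK
      rw [hK.inv, hK.sgφ, ← neg_sub (FK u c' p), neg_smul, smul_neg, neg_neg]
    · have h2 := hu.FK_dia hK' (hK.dia hpq h1)
      unfold XK
      rw [sg_eq (hK.same hpq h1)]
      congr 1
      rw [sub_eq_sub_iff_add_eq_add, h2, add_comm]

theorem QI.u_XK' (hK' : IsK2 H φ' c') (hK : IsK2 G φ c) (hG : G.Connected) (a z : V) (w : W) :
    u z w * XK u φ c c' a = (2 * sg c z * sg c' w) • (u z w * u (φ z) (φ' w)) := by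
  rw [hu.XK_const hK' hK hG a z]
  unfold XK
  rw [mul_smul_comm, hu.u_FK_sub hK' (hK.move z), smul_smul]
  congr 1
  ring

theorem QI.u_XK (hK' : IsK2 H φ' c') (hK : IsK2 G φ c) (hG : G.Connected) (a z : V) (w : W) :
    u z w * XK u φ c c' a = XK u φ c c' a * u (φ z) (φ' w) := by
  rw [hu.u_XK' hK' hK hG a z w, hu.XK_const hK' hK hG a (φ z)]
  unfold XK
  rw [smul_mul_assoc, hu.FK_sub_u hK' (hK.move (φ z)), hK'.inv, hK.inv, smul_smul, hK.sgφ, hK'.sgφ]
  congr 1
  ring

theorem QI.FK_XK (hK' : IsK2 H φ' c') (hK : IsK2 G φ c) (hG : G.Connected) (a z : V) :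
    FK u c' z * XK u φ c c' a = - (XK u φ c c' a * FK u c' (φ z)) := by
  rw [hu.XK_const hK' hK hG a z]
  unfold XK
  rw [mul_smul_comm, smul_mul_assoc, ← smul_neg]
  congr 1
  rw [mul_sub, sub_mul, hu.FK_sq, hu.FK_sq]
  abel

theorem QI.sum_XK (hK' : IsK2 H φ' c') (hK : IsK2 G φ c) (hG : G.Connected) (a z : V) :
    FK u c' z * XK u φ c c' a = (2 * sg c z) • ∑ w, u z w * u (φ z) (φ' w) := by
  conv_lhs => rw [FK]
  rw [Finset.sum_mul, Finset.smul_sum]
  refine Finset.sum_congr rfl fun w _ => ?_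
  rw [smul_mul_assoc, hu.u_XK' hK' hK hG a z w, smul_smul]
  congr 1
  have := sg_sq c' w
  calc sg c' w * (2 * sg c z * sg c' w) = 2 * sg c z * (sg c' w * sg c' w) := by ring
    _ = 2 * sg c z := by rw [this, mul_one]

theorem QI.XK_anti (hK' : IsK2 H φ' c') (hK : IsK2 G φ c) (hL : IsK2 G ψ d)
    (z : V) (hne : φ z ≠ ψ z) :
    XK u φ c c' z * XK u ψ d c' z = - (XK u ψ d c' z * XK u φ c c' z) := by
  have h1 := hu.FK_dia hK' (hK.dia (hL.move z) hne.symm)
  have q0 := hu.FK_sq c' z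
  have q1 := hu.FK_sq c' (φ z)
  have q2 := hu.FK_sq c' (ψ z)
  have q3 := hu.FK_sq c' (φ (ψ z))
  have h2 : FK u c' (φ (ψ z)) = FK u c' (φ z) + FK u c' (ψ z) - FK u c' z := by
    rw [← h1]; abel
  rw [h2] at q3
  unfold XK
  rw [smul_mul_smul_comm, smul_mul_smul_comm, mul_comm (sg d z), ← smul_neg]
  congr 1
  set F := FK u c' z
  set P := FK u c' (φ z)
  set Q := FK u c' (ψ z)
  have e : (F - P) * (F - Q) + (F - Q) * (F - P) =
      (P + Q - F) * (P + Q - F) + F * F - P * P - Q * Q := by noncomm_ring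
  rw [q3, q0, q1, q2] at e
  rw [eq_neg_iff_add_eq_zero, e]
  abel

open Classical in
theorem QI.FK_nb (hK' : IsK2 H φ' c') (a : V) :
    ∑ b, (if G.Adj a b then FK u c' a - FK u c' b else 0) = (2 : ℤ) • FK u c' a := by
  apply hu.eq_of_left a
  intro w
  rw [Finset.mul_sum, mul_smul_comm, hu.u_FK, smul_smul]
  have e : ∀ b, u a w * (if G.Adj a b then FK u c' a - FK u c' b else 0) =
      (2 * sg c' w) • (u a w * u b (φ' w)) := by
    intro b
    split_ifs with h
    · exact hu.u_FK_sub hK' h w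
    · rw [mul_zero, hu.zero_of_not_adj h (hK'.move w), smul_zero]
  rw [Finset.sum_congr rfl (fun b _ => e b), ← Finset.smul_sum, ← Finset.mul_sum, hu.col, mul_one]

/-- **Theorem K**, first part -/
theorem QI.thmK1 (hK' : IsK2 H φ' c') (hK : IsK2 G φ c) (hL : IsK2 G ψ d) (hG : G.Connected)
    (a : V) (hq : XK u ψ d c' a * XK u φ c c' a ≠ 0) {D : SimpleGraph V} {D' : SimpleGraph W}
    (hD : QI D D' u) (z z' : V) : D.Adj z z' ↔ D.Adj (φ (ψ z)) (φ (ψ z')) := by
  classical
  obtain ⟨q, hq'⟩ : ∃ q, q = XK u ψ d c' a * XK u φ c c' a := ⟨_, rfl⟩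
  rw [← hq'] at hq
  have key : ∀ z w, u z w * q = q * u (φ (ψ z)) w := by
    intro z w
    rw [hq', ← mul_assoc, hu.u_XK hK' hL hG, mul_assoc, hu.u_XK hK' hK hG, hK'.inv, mul_assoc]
  obtain ⟨w, w', hw⟩ : ∃ w w', u z w * u z' w' * q ≠ 0 := by
    by_contra hcon
    push Not at hcon
    apply hq
    have : q = (∑ w, u z w) * (∑ w', u z' w') * q := by rw [hu.row, hu.row, one_mul, one_mul]
    rw [this, Finset.sum_mul_sum, Finset.sum_mul]
    refine Finset.sum_eq_zero fun w _ => ?_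
    rw [Finset.sum_mul]
    exact Finset.sum_eq_zero fun w' _ => hcon w w'
  have n1 : u z w * u z' w' ≠ 0 := fun h => hw (by rw [h, zero_mul])
  have n2 : u (φ (ψ z)) w * u (φ (ψ z')) w' ≠ 0 := by
    intro h
    apply hw
    rw [mul_assoc, key, ← mul_assoc, key, mul_assoc, h, mul_zero]
  rw [hD.adj _ _ _ _ n1, hD.adj _ _ _ _ n2]

/-- **Theorem K**, second part -/
theorem QI.thmK2 (hK' : IsK2 H φ' c') (hK : IsK2 G φ c) (hL : IsK2 G ψ d) (hG : G.Connected)
    (hne : ∀ z, φ z ≠ ψ z)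
    (a : V) (hq : XK u ψ d c' a * XK u φ c c' a ≠ 0) {D : SimpleGraph V} {D' : SimpleGraph W}
    (hD : QI D D' u) (z z' : V) (hs : ¬ ((c z ↔ d z) ↔ (c z' ↔ d z'))) :
    D.Adj z z' ↔ D.Adj z (φ (ψ z')) := by
  classical
  by_contra hcon
  -- all the products vanish
  have h1 : ∀ w w', u z' w' * u z w * u (φ (ψ z')) w' = 0 := by
    intro w w'
    by_contra h0
    apply hcon
    have n1 : u z' w' * u z w ≠ 0 := fun h => h0 (by rw [h, zero_mul])
    have n2 : u z w * u (φ (ψ z')) w' ≠ 0 := fun h => h0 (by rw [mul_assoc, h, mul_zero])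
    rw [hD.adj _ _ _ _ n2, D.adj_comm, hD.adj _ _ _ _ n1, D'.adj_comm]
  have h2 : ∀ w', u z' w' * FK u c' z * u (φ (ψ z')) w' = 0 := by
    intro w'
    unfold FK
    rw [Finset.mul_sum, Finset.sum_mul]
    refine Finset.sum_eq_zero fun w _ => ?_
    rw [mul_smul_comm, smul_mul_assoc, h1, smul_zero]
  -- the map `T`
  let T : A → A := fun x => ∑ w', u z' w' * x * u (φ (ψ z')) w'
  have T0 : T (FK u c' z) = 0 := Finset.sum_eq_zero fun w' _ => h2 w'
  have Tz : ∀ (n : ℤ) x, T (n • x) = n • T x := by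
    intro n x
    change ∑ w', u z' w' * (n • x) * u (φ (ψ z')) w' = n • ∑ w', _
    rw [Finset.smul_sum]
    exact Finset.sum_congr rfl fun w' _ => by rw [mul_smul_comm, smul_mul_assoc]
  have Ts : ∀ f : V → A, T (∑ b, f b) = ∑ b, T (f b) := by
    intro f
    change ∑ w', u z' w' * (∑ b, f b) * u (φ (ψ z')) w' = ∑ b, ∑ w', _
    rw [Finset.sum_comm]
    exact Finset.sum_congr rfl fun w' _ => by rw [Finset.mul_sum, Finset.sum_mul]
  have hd := hK.dia (hL.move z') (hne z').symm
  -- only two neighbours contribute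
  have h3 : ∀ b, b ≠ φ z → b ≠ ψ z →
      T (if G.Adj z b then FK u c' z - FK u c' b else 0) = 0 := by
    intro b hb1 hb2
    split_ifs with hzb
    · by_cases hF : FK u c' z = FK u c' b
      · rw [hF, sub_self]
        exact Finset.sum_eq_zero fun w' _ => by rw [mul_zero, zero_mul]
      · obtain ⟨χ, e, hM, hχ, he, _⟩ := hu.lemK hK' hG hzb hF
        have h4 : FK u c' z - FK u c' b = XK u χ e c' z := by
          unfold XK
          rw [hχ]
          have : sg e z = 1 := by unfold sg; rw [if_pos he]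
          rw [this, one_smul]
        rw [h4]
        refine Finset.sum_eq_zero fun w' _ => ?_
        rw [hu.u_XK hK' hM hG, mul_assoc]
        by_cases h0 : u (χ z') (φ' w') * u (φ (ψ z')) w' = 0
        · rw [h0, mul_zero]
        · exfalso
          have h5 := (hu.adj _ _ _ _ h0).2 (hK'.move w').symm
          rcases (hd.iff (χ z')).1 ⟨hM.move z', h5⟩ with h6 | h6
          · apply hb1
            rw [← hχ]
            exact hM.eq_of_eq hK hG h6 z
          · apply hb2
            rw [← hχ]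
            exact hM.eq_of_eq hL hG h6 z
    · exact Finset.sum_eq_zero fun w' _ => by rw [mul_zero, zero_mul]
  have h4 : T (FK u c' z - FK u c' (φ z)) + T (FK u c' z - FK u c' (ψ z)) = 0 := by
    have e1 := congrArg T (hu.FK_nb hK' z)
    rw [Ts, Tz, T0, smul_zero, ← Finset.sum_subset (Finset.subset_univ {φ z, ψ z})] at e1
    · rw [Finset.sum_pair (hne z), if_pos (hK.move z), if_pos (hL.move z)] at e1
      exact e1
    · intro b _ hb
      simp only [Finset.mem_insert, Finset.mem_singleton, not_or] at hb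
      exact h3 b hb.1 hb.2
  -- reindexing
  have h5 : ∀ (y y' : V), ∑ w', u y (φ' w') * u y' w' = ∑ w', u y w' * u y' (φ' w') := by
    intro y y'
    let e : W ≃ W := ⟨φ', φ', hK'.inv, hK'.inv⟩
    refine Fintype.sum_equiv e _ _ (fun w => ?_)
    change _ = u y (φ' w) * u y' (φ' (φ' w))
    rw [hK'.inv]
  -- the two contributions
  have Tφ : (2 : ℤ) • T (FK u c' z - FK u c' (φ z)) =
      - ((sg c z * sg d z') • (FK u c' z' * (XK u φ c c' a * XK u ψ d c' a))) := by
    have e1 : T (FK u c' z - FK u c' (φ z)) =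
        sg c z • (XK u φ c c' a * ∑ w, u (φ z') w * u (ψ (φ z')) (φ' w)) := by
      rw [FK_sub_eq u φ c c' z, Tz, hu.XK_const hK' hK hG z a, ← h5, Finset.mul_sum]
      congr 1
      refine Finset.sum_congr rfl fun w' _ => ?_
      rw [hu.u_XK hK' hK hG, mul_assoc, hK.comm hL (hne z')]
    have e2 := hu.sum_XK hK' hL hG a (φ z')
    have e3 : sg d (φ z') = sg d z' := (sg_eq (hL.same (hK.move z') (hne z'))).symm
    rw [e3] at e2
    have e4 : (2 : ℤ) • ∑ w, u (φ z') w * u (ψ (φ z')) (φ' w) =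
        sg d z' • (FK u c' (φ z') * XK u ψ d c' a) := by
      rw [e2, smul_smul, ← mul_assoc, mul_comm (sg d z'), mul_assoc, sg_sq, mul_one]
    rw [e1, smul_comm, ← mul_smul_comm, e4, mul_smul_comm, smul_smul, ← mul_assoc, ← mul_assoc,
      hu.FK_XK hK' hK hG a z', neg_mul, smul_neg, neg_neg]
  have Tψ : (2 : ℤ) • T (FK u c' z - FK u c' (ψ z)) =
      - ((sg d z * sg c z') • (FK u c' z' * (XK u ψ d c' a * XK u φ c c' a))) := by
    have e1 : T (FK u c' z - FK u c' (ψ z)) =
        sg d z • (XK u ψ d c' a * ∑ w, u (ψ z') w * u (φ (ψ z')) (φ' w)) := by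
      rw [FK_sub_eq u ψ d c' z, Tz, hu.XK_const hK' hL hG z a, ← h5, Finset.mul_sum]
      congr 1
      refine Finset.sum_congr rfl fun w' _ => ?_
      rw [hu.u_XK hK' hL hG, mul_assoc]
    have e2 := hu.sum_XK hK' hK hG a (ψ z')
    have e3 : sg c (ψ z') = sg c z' := (sg_eq (hK.same (hL.move z') (hne z').symm)).symm
    rw [e3] at e2
    have e4 : (2 : ℤ) • ∑ w, u (ψ z') w * u (φ (ψ z')) (φ' w) =
        sg c z' • (FK u c' (ψ z') * XK u φ c c' a) := by
      rw [e2, smul_smul, ← mul_assoc, mul_comm (sg c z'), mul_assoc, sg_sq, mul_one]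
    rw [e1, smul_comm, ← mul_smul_comm, e4, mul_smul_comm, smul_smul, ← mul_assoc, ← mul_assoc,
      hu.FK_XK hK' hL hG a z', neg_mul, smul_neg, neg_neg]
  have h6 : (sg d z * sg c z' - sg c z * sg d z') •
      (FK u c' z' * (XK u ψ d c' a * XK u φ c c' a)) = 0 := by
    have e1 := congrArg (fun x => (2 : ℤ) • x) h4
    simp only [smul_add, smul_zero] at e1
    rw [Tφ, Tψ] at e1
    have e2 : XK u φ c c' a * XK u ψ d c' a = - (XK u ψ d c' a * XK u φ c c' a) :=
      hu.XK_anti hK' hK hL a (hne a)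
    rw [e2, mul_neg, smul_neg, neg_neg] at e1
    rw [sub_smul, sub_eq_neg_add, ← neg_eq_zero, neg_add, neg_neg]
    exact e1
  have h7 : sg d z * sg c z' - sg c z * sg d z' ≠ 0 := by
    unfold sg
    by_cases b1 : c z <;> by_cases b2 : d z <;> by_cases b3 : c z' <;> by_cases b4 : d z' <;>
      simp [b1, b2, b3, b4] at hs ⊢
  exact hq (hu.FK_cancel c' z' (zsmul_eq_zero' h7 h6))

end

end QSym
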