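import Pool.Agent.Lib.MP_a717c1_al.DQ.K2c

/-!
# Edges of `K₂`-structures are not twisted
-/

set_option linter.unusedSectionVars false
set_option linter.unusedDecidableInType false

namespace QSym

open Finset SimpleGraph

section

variable {V W : Type*} [Fintype V] [Fintype W]
variable {A : Type*} [Ring A] [StarRing A] [FReal A]
variable {G : SimpleGraph V} {H : SimpleGraph W} {u : V → W → A}
variable {φ' : W → W} {c' : W → Prop} {φ ψ : V → V} {c d : V → Prop}

variable (hu : QI G H u)
include hu

/-- the main step: a non-commuting pair of entries along a `K₂`-structure -/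
theorem QI.noncomm_K2 (hG : G.Connected) (hH : H.Connected) {D : SimpleGraph V}
    {D' : SimpleGraph W} (hD : QI D D' u) (hyp : HypK2 G D) (hK : IsK2 G φ c) (a : V) (w x : W) :
    u a w * u (φ a) x = u (φ a) x * u a w := by
  classical
  by_contra hwx
  have hne0 : u a w * u (φ a) x ≠ 0 := by
    intro h
    apply hwx
    rw [h, hu.mul_comm_zero h]
  have hadj : H.Adj w x := (hu.adj _ _ _ _ hne0).1 (hK.move a)
  have hv := hu.symm
  have hF : FK (fun w z => u z w) c w ≠ FK (fun w z => u z w) c x := by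
    intro hF
    have h1 := hv.u_FK_sub hK hadj a
    rw [hF, sub_self, mul_zero] at h1
    exact hne0 (zsmul_eq_zero' (two_sg_ne hv c a) h1.symm)
  obtain ⟨φ', c', hK', hφ', _, _⟩ := hv.lemK hK hH hadj hF
  obtain ⟨X, hX⟩ : ∃ X, X = XK u φ c c' a := ⟨_, rfl⟩
  have hXs : star X = X := by rw [hX]; exact hu.star_XK a
  have hXe : FK u c' a - FK u c' (φ a) = sg c a • X := by rw [hX]; exact FK_sub_eq u φ c c' a
  have hFX : FK u c' a * X ≠ X * FK u c' a := by
    intro hcm
    apply hwx
    obtain ⟨k, hk⟩ : ∃ k, k = ∑ y, u a y * u (φ a) (φ' y) := ⟨_, rfl⟩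
    have h1 : FK u c' a * X = (2 * sg c a) • k := by
      rw [hX, hk]; exact hu.sum_XK hK' hK hG a a
    -- X² = 4 k
    have h2 : X * X = (4 : ℤ) • k := by
      have e1 : (sg c a • X) * (sg c a • X) = X * X := by
        rw [smul_mul_smul_comm, sg_sq, one_smul]
      have e2 : FK u c' (φ a) = FK u c' a - sg c a • X := by rw [← hXe]; abel
      have e3 := hu.FK_sq c' (φ a)
      rw [e2] at e3
      have e4 : (FK u c' a - sg c a • X) * (FK u c' a - sg c a • X) =
          FK u c' a * FK u c' a - FK u c' a * (sg c a • X) - (sg c a • X) * FK u c' a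
            + (sg c a • X) * (sg c a • X) := by
        rw [sub_mul, mul_sub, mul_sub]; abel
      rw [e4, hu.FK_sq, e1, smul_mul_assoc, ← hcm, mul_smul_comm, h1, smul_smul] at e3
      have e5 : sg c a * (2 * sg c a) = 2 := by
        have := sg_sq c a
        calc sg c a * (2 * sg c a) = 2 * (sg c a * sg c a) := by ring
          _ = 2 := by rw [this, mul_one]
      rw [e5] at e3
      have e6 : (4 : ℤ) • k = (2 : ℤ) • k + (2 : ℤ) • k := by rw [← add_smul]; norm_num
      rw [e6]
      have e7 : X * X = (1 - (2 : ℤ) • k - (2 : ℤ) • k + X * X) - 1 + ((2 : ℤ) • k + (2 : ℤ) • k) := by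
        abel
      rw [e7, e3, sub_self, zero_add]
    have h3 : star k = k := by
      have : (4 : ℤ) • (star k - k) = 0 := by
        rw [smul_sub, ← h2, ← star_zsmul, ← h2, star_mul, hXs, sub_self]
      exact sub_eq_zero.1 (zsmul_eq_zero' (by norm_num) this)
    have h4 : u a w * (X * X) = X * X * u a w := by
      rw [← mul_assoc, hX, hu.u_XK hK' hK hG, mul_assoc, hu.u_XK hK' hK hG, hK.inv, hK'.inv,
        mul_assoc]
    have h5 : u a w * k = u a w * u (φ a) x := by
      rw [hk, Finset.mul_sum, Finset.sum_eq_single w]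
      · rw [← mul_assoc, hu.mul_self, hφ']
      · intro y _ hy
        rw [← mul_assoc, hu.row_orth hy.symm, zero_mul]
      · simp
    have h6 : k * u a w = u (φ a) x * u a w := by
      have := congrArg star h5
      rwa [star_mul, star_mul, h3, hu.star_eq, hu.star_eq] at this
    rw [← h5, ← h6]
    have h7 : (4 : ℤ) • (u a w * k - k * u a w) = 0 := by
      rw [smul_sub, ← mul_smul_comm, ← smul_mul_assoc, ← h2, h4, sub_self]
    exact sub_eq_zero.1 (zsmul_eq_zero' (by norm_num) h7)
  obtain ⟨b, hab, hb⟩ : ∃ b, G.Adj a b ∧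
      (FK u c' a - FK u c' b) * X ≠ X * (FK u c' a - FK u c' b) := by
    by_contra hcon
    push Not at hcon
    apply hFX
    have h1 := hu.FK_nb hK' a
    have h2 : ((2 : ℤ) • FK u c' a) * X = X * ((2 : ℤ) • FK u c' a) := by
      rw [← h1, Finset.sum_mul, Finset.mul_sum]
      refine Finset.sum_congr rfl fun b _ => ?_
      split_ifs with h3
      · exact hcon b h3
      · rw [zero_mul, mul_zero]
    rw [smul_mul_assoc, mul_smul_comm] at h2
    have h3 : (2 : ℤ) • (FK u c' a * X - X * FK u c' a) = 0 := by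
      rw [smul_sub, h2, sub_self]
    exact sub_eq_zero.1 (zsmul_eq_zero' (by norm_num) h3)
  have hF' : FK u c' a ≠ FK u c' b := by
    intro h
    apply hb
    rw [h, sub_self, zero_mul, mul_zero]
  obtain ⟨ψ, d, hL, hψ, hda, _⟩ := hu.lemK hK' hG hab hF'
  have hY : FK u c' a - FK u c' b = XK u ψ d c' a := by
    unfold XK
    rw [hψ]
    have : sg d a = 1 := by unfold sg; rw [if_pos hda]
    rw [this, one_smul]
  have hne : ∀ z, φ z ≠ ψ z := by
    intro z hz
    apply hb
    have h1 := hK.eq_of_eq hL hG hz a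
    rw [hψ] at h1
    rw [← h1, hXe, smul_mul_assoc, mul_smul_comm]
  rw [hY] at hb
  have hq : XK u ψ d c' a * XK u φ c c' a ≠ 0 := by
    rw [← hX]
    intro h
    apply hb
    have h1 := congrArg star h
    rw [star_mul, hXs, hu.star_XK, star_zero] at h1
    rw [h, h1]
  exact hyp φ ψ c d hK hL hne (hu.thmK1 hK' hK hL hG a hq hD)
    (hu.thmK2 hK' hK hL hG hne a hq hD)

end

theorem stK2 : StK2 := by
  intro V V₁ V₂ A _ _ _ _ _ _ G D G₁ G₂ D' u hu hD hG hH hyp φ c hK a hTw
  classical
  apply hTw.2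
  rw [hu.hh_eq, hu.hh_eq, Finset.sum_comm (f := fun w w' =>
    if w.2 = w'.2 then u (φ a) w * u a w' else 0)]
  refine Finset.sum_congr rfl fun w _ => Finset.sum_congr rfl fun x _ => ?_
  rw [hu.noncomm_K2 hG hH hD hyp hK a w x]
  simp only [eq_comm]

end QSym
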