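import Pool.Agent.Lib.MP_a717c1_al.DQ.Defs

/-!
# Direct squares: the necessary conditions (module NEC)
-/

set_option linter.unusedSectionVars false
set_option linter.unusedDecidableInType false

namespace QSym

open Finset SimpleGraph

/-- transposition of two twins -/
theorem adj_swap_of_twins {W : Type*} [DecidableEq W] {G : SimpleGraph W} {a b : W}
    (h : ∀ z, G.Adj a z ↔ G.Adj b z) {x y : W} (hxy : G.Adj x y) :
    G.Adj (Equiv.swap a b x) (Equiv.swap a b y) := by
  have key : ∀ {x y : W}, G.Adj x y → G.Adj (Equiv.swap a b x) y := by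
    intro x y hxy
    by_cases h1 : x = a
    · subst h1
      rw [Equiv.swap_apply_left]
      exact (h y).1 hxy
    · by_cases h2 : x = b
      · subst h2
        rw [Equiv.swap_apply_right]
        exact (h y).2 hxy
      · rw [Equiv.swap_apply_of_ne_of_ne h1 h2]
        exact hxy
  exact (key (key hxy).symm).symm

/-- the direct square of a graph with twins has two disjoint automorphisms -/
theorem disjAut_dprod_of_twins {V : Type*} {X : SimpleGraph V} {x y : V} (hxy : x ≠ y)
    (h : ∀ z, X.Adj x z ↔ X.Adj y z) : DisjAut (dprod X X) := by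
  classical
  have hh : ∀ v z, (dprod X X).Adj (x, v) z ↔ (dprod X X).Adj (y, v) z := by
    intro v z
    rw [dprod_adj, dprod_adj, h]
  refine ⟨isoOfInv (Equiv.swap (x, x) (y, x)) (fun z => by simp)
      (fun z w hzw => adj_swap_of_twins (hh x) hzw),
    isoOfInv (Equiv.swap (x, y) (y, y)) (fun z => by simp)
      (fun z w hzw => adj_swap_of_twins (hh y) hzw), ?_, ⟨(x, x), ?_⟩, ⟨(x, y), ?_⟩⟩
  · rintro ⟨z1, z2⟩
    rw [isoOfInv_apply, isoOfInv_apply]
    by_cases h1 : z2 = x
    · right
      apply Equiv.swap_apply_of_ne_of_ne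
      · intro h2; exact hxy (h1.symm.trans (congrArg Prod.snd h2))
      · intro h2; exact hxy (h1.symm.trans (congrArg Prod.snd h2))
    · left
      apply Equiv.swap_apply_of_ne_of_ne
      · intro h2; exact h1 (congrArg Prod.snd h2)
      · intro h2; exact h1 (congrArg Prod.snd h2)
  · rw [isoOfInv_apply, Equiv.swap_apply_left]
    intro h2
    exact hxy (congrArg Prod.fst h2).symm
  · rw [isoOfInv_apply, Equiv.swap_apply_left]
    intro h2
    exact hxy (congrArg Prod.fst h2).symm

/-- swapping the two coordinates on a part preserved by the edges -/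
theorem exists_swap_on {V : Type*} {X : SimpleGraph V} (Q : V × V → Prop)
    (hQ : ∀ z w, (dprod X X).Adj z w → (Q z ↔ Q w)) (hQ2 : ∀ z, Q z.swap ↔ Q z) :
    ∃ σ : dprod X X ≃g dprod X X, (∀ z, Q z → σ z = z.swap) ∧ ∀ z, ¬ Q z → σ z = z := by
  classical
  refine ⟨isoOfInv (fun z => if Q z then z.swap else z) ?_ ?_, fun z hz => ?_, fun z hz => ?_⟩
  · intro z
    by_cases h1 : Q z
    · simp [h1, hQ2]
    · simp [h1]
  · intro z w hzw
    have h2 := hQ z w hzw
    by_cases h1 : Q z
    · rw [if_pos h1, if_pos (h2.1 h1)]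
      exact ⟨hzw.2, hzw.1⟩
    · rw [if_neg h1, if_neg (fun h3 => h1 (h2.2 h3))]
      exact hzw
  · rw [isoOfInv_apply, if_pos hz]
  · rw [isoOfInv_apply, if_neg hz]

/-- A set `S` such that being on the same side is preserved by the edges of the square. -/
theorem disjAut_of_side {V : Type*} {X : SimpleGraph V} (S : V → Prop)
    (hS : ∀ z w, (dprod X X).Adj z w → ((S z.1 ↔ S z.2) ↔ (S w.1 ↔ S w.2)))
    {a b c : V} (ha : S a) (hb : ¬ S b) (hca : c ≠ a) (hcb : c ≠ b) : DisjAut (dprod X X) := by
  classical
  obtain ⟨σ, hσ1, hσ2⟩ := exists_swap_on (X := X) (fun z => (S z.1 ↔ S z.2)) hS (fun z => by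
    simp only [Prod.fst_swap, Prod.snd_swap]; exact Iff.comm)
  obtain ⟨τ, hτ1, hτ2⟩ := exists_swap_on (X := X) (fun z => ¬ (S z.1 ↔ S z.2))
    (fun z w hzw => not_congr (hS z w hzw)) (fun z => by
      simp only [Prod.fst_swap, Prod.snd_swap]
      exact not_congr Iff.comm)
  refine ⟨σ, τ, ?_, ?_, ⟨(a, b), ?_⟩⟩
  · intro z
    by_cases h1 : (S z.1 ↔ S z.2)
    · right; exact hτ2 z (not_not.2 h1)
    · left; exact hσ2 z h1
  · by_cases hc : S c
    · refine ⟨(a, c), ?_⟩
      rw [hσ1 _ (show S a ↔ S c from ⟨fun _ => hc, fun _ => ha⟩)]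
      intro h2
      exact hca (congrArg Prod.fst h2)
    · refine ⟨(b, c), ?_⟩
      rw [hσ1 _ (show S b ↔ S c from ⟨fun h => absurd h hb, fun h => absurd h hc⟩)]
      intro h2
      exact hcb (congrArg Prod.fst h2)
  · rw [hτ1 _ (show ¬ (S a ↔ S b) from fun h => hb (h.1 ha))]
    intro h2
    have h3 : b = a := congrArg Prod.fst h2
    exact hb (h3 ▸ ha)

/-- the direct square of a disconnected graph has two disjoint automorphisms -/
theorem disjAut_dprod_of_not_connected {V : Type*} [Nonempty V] {X : SimpleGraph V}
    (h : ¬ X.Connected) : DisjAut (dprod X X) := by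
  classical
  have hnp : ¬ X.Preconnected := fun h2 => h ⟨h2⟩
  unfold SimpleGraph.Preconnected at hnp
  push Not at hnp
  obtain ⟨a, b, hab⟩ := hnp
  let S : V → Prop := fun x => X.Reachable a x
  have Sa : S a := Reachable.refl _
  have Sb : ¬ S b := hab
  have hne : a ≠ b := by rintro rfl; exact Sb Sa
  have Sadj : ∀ {x y}, X.Adj x y → (S x ↔ S y) := by
    intro x y hxy
    exact ⟨fun h => h.trans hxy.reachable, fun h => h.trans hxy.symm.reachable⟩
  by_cases hthird : ∃ c, c ≠ a ∧ c ≠ b
  · obtain ⟨c, hca, hcb⟩ := hthird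
    refine disjAut_of_side S ?_ Sa Sb hca hcb
    intro z w hzw
    rw [Sadj hzw.1, Sadj hzw.2]
  · -- two vertices and no edges: twins
    push Not at hthird
    have hX : ∀ x y, ¬ X.Adj x y := by
      intro x y hxy
      have h1 := Sadj hxy
      have key : ∀ z, (S z ↔ z = a) := by
        intro z
        constructor
        · intro hz
          by_contra h2
          exact Sb (hthird z h2 ▸ hz)
        · rintro rfl; exact Sa
      rw [key, key] at h1
      have hba : ∀ z, z ≠ a → z = b := hthird
      by_cases hx : x = a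
      · exact hxy.ne (hx.trans (h1.1 hx).symm)
      · exact hxy.ne ((hba x hx).trans (hba y (fun h => hx (h1.2 h))).symm)
    exact disjAut_dprod_of_twins hne (fun z => ⟨fun h => absurd h (hX _ _),
      fun h => absurd h (hX _ _)⟩)

/-- the direct square of a bipartite graph with an edge has two disjoint automorphisms -/
theorem disjAut_dprod_of_colorable {V : Type*} {X : SimpleGraph V} {a b : V} (hab : X.Adj a b)
    (h : X.Colorable 2) : DisjAut (dprod X X) := by
  classical
  obtain ⟨c⟩ := h
  let S : V → Prop := fun x => c x = c a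
  have Sa : S a := rfl
  have Sb : ¬ S b := fun h => c.valid hab h.symm
  have Sadj : ∀ {x y}, X.Adj x y → (S x ↔ ¬ S y) := by
    intro x y hxy
    have h1 : c x ≠ c y := c.valid hxy
    change c x = c a ↔ ¬ (c y = c a)
    constructor
    · intro h2 h3; exact h1 (h2.trans h3.symm)
    · intro h2
      by_contra h3
      have key : ∀ p q r : Fin 2, p ≠ q → ¬ (q = r) → ¬ (p = r) → False := by decide
      exact key _ _ _ h1 h2 h3
  have hS : ∀ z w, (dprod X X).Adj z w → ((S z.1 ↔ S z.2) ↔ (S w.1 ↔ S w.2)) := by
    intro z w hzw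
    rw [Sadj hzw.1, Sadj hzw.2]
    exact not_iff_not
  by_cases hthird : ∃ c, c ≠ a ∧ c ≠ b
  · obtain ⟨c, hca, hcb⟩ := hthird
    exact disjAut_of_side S hS Sa Sb hca hcb
  · push Not at hthird
    have hab' : a ≠ b := hab.ne
    have hV : ∀ z, z = a ∨ z = b := by
      intro z
      by_cases h1 : z = a
      · exact Or.inl h1
      · exact Or.inr (hthird z h1)
    have key : ∀ (p q : V × V), (dprod X X).Adj p q →
        (∀ z, (dprod X X).Adj p z → z = q) → (∀ z, (dprod X X).Adj q z → z = p) →
        ∀ z w, (dprod X X).Adj z w →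
          (dprod X X).Adj (Equiv.swap p q z) (Equiv.swap p q w) := by
      intro p q hpq h1 h2 z w hzw
      by_cases e1 : z = p
      · subst e1
        have e2 := h1 w hzw
        subst e2
        rw [Equiv.swap_apply_left, Equiv.swap_apply_right]
        exact hzw.symm
      · by_cases e2 : z = q
        · subst e2
          have e3 := h2 w hzw
          subst e3
          rw [Equiv.swap_apply_left, Equiv.swap_apply_right]
          exact hzw.symm
        · have e3 : w ≠ p := by
            rintro rfl
            exact e2 (h1 z hzw.symm)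
          have e4 : w ≠ q := by
            rintro rfl
            exact e1 (h2 z hzw.symm)
          rw [Equiv.swap_apply_of_ne_of_ne e1 e2, Equiv.swap_apply_of_ne_of_ne e3 e4]
          exact hzw
    have nb : ∀ z, X.Adj a z → z = b := by
      intro z hz
      rcases hV z with h1 | h1
      · exact absurd h1.symm hz.ne
      · exact h1
    have na : ∀ z, X.Adj b z → z = a := by
      intro z hz
      rcases hV z with h1 | h1
      · exact h1
      · exact absurd h1.symm hz.ne
    refine ⟨isoOfInv (Equiv.swap (a, a) (b, b)) (fun z => by simp)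
        (key _ _ ⟨hab, hab⟩ (fun z hz => Prod.ext (nb _ hz.1) (nb _ hz.2))
          (fun z hz => Prod.ext (na _ hz.1) (na _ hz.2))),
      isoOfInv (Equiv.swap (a, b) (b, a)) (fun z => by simp)
        (key _ _ ⟨hab, hab.symm⟩ (fun z hz => Prod.ext (nb _ hz.1) (na _ hz.2))
          (fun z hz => Prod.ext (na _ hz.1) (nb _ hz.2))), ?_, ⟨(a, a), ?_⟩, ⟨(a, b), ?_⟩⟩
    · rintro ⟨z1, z2⟩
      rw [isoOfInv_apply, isoOfInv_apply]
      by_cases h1 : z1 = z2
      · right
        apply Equiv.swap_apply_of_ne_of_ne
        · intro h2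
          exact hab' ((congrArg Prod.fst h2).symm.trans (h1.trans (congrArg Prod.snd h2)))
        · intro h2
          exact hab' (((congrArg Prod.fst h2).symm.trans (h1.trans (congrArg Prod.snd h2))).symm)
      · left
        apply Equiv.swap_apply_of_ne_of_ne
        · intro h2
          exact h1 ((congrArg Prod.fst h2).trans (congrArg Prod.snd h2).symm)
        · intro h2
          exact h1 ((congrArg Prod.fst h2).trans (congrArg Prod.snd h2).symm)
    · rw [isoOfInv_apply, Equiv.swap_apply_left]
      intro h2
      exact hab' (congrArg Prod.fst h2).symm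
    · rw [isoOfInv_apply, Equiv.swap_apply_left]
      intro h2
      exact hab' (congrArg Prod.fst h2).symm

/-- restriction to one factor -/
theorem Rig.of_dprod {V : Type*} [Fintype V] {X : SimpleGraph V} {A : Type*} [Ring A]
    [StarRing A] [FReal A] (h : Rig (dprod X X) A) : Rig X A := by
  classical
  intro u hu i j k l
  have hv : QI (dprod X X) (dprod X X) (fun z w => if z.2 = w.2 then u z.1 w.1 else 0) := by
    refine ⟨?_, ?_, ?_, ?_, ?_⟩
    · intro z w
      split_ifs
      · exact hu.star_eq _ _
      · exact star_zero _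
    · intro z w
      split_ifs
      · exact hu.mul_self _ _
      · exact mul_zero _
    · intro z
      rw [Fintype.sum_prod_type, ← hu.row z.1]
      refine Finset.sum_congr rfl fun s _ => ?_
      simp
    · intro w
      rw [Fintype.sum_prod_type, ← hu.col w.1]
      refine Finset.sum_congr rfl fun s _ => ?_
      simp
    · intro z z' w w' hne
      by_cases h1 : z.2 = w.2
      · by_cases h2 : z'.2 = w'.2
        · rw [if_pos h1, if_pos h2] at hne
          have h3 := hu.adj _ _ _ _ hne
          rw [dprod_adj, dprod_adj, h3, h1, h2]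
        · rw [if_neg h2, mul_zero] at hne
          exact absurd rfl hne
      · rw [if_neg h1, zero_mul] at hne
        exact absurd rfl hne
  have := h _ hv (i, i) (j, i) (k, i) (l, i)
  simpa using this

/-- **Module NEC.** -/
theorem stNec : StNec := by
  classical
  intro V _ X hV hN
  have hne : Nonempty V := Fintype.card_pos_iff.1 (by omega)
  have hconn : X.Connected := by
    by_contra h
    exact not_noQS_of_disjAut (disjAut_dprod_of_not_connected h) hN
  refine ⟨hconn, ?_, ?_, ?_⟩
  · intro h
    obtain ⟨a, b, hab⟩ := Fintype.exists_pair_of_one_lt_card (α := V) (by omega)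
    have : Nontrivial V := ⟨a, b, hab⟩
    obtain ⟨c, hc⟩ := hconn.preconnected.exists_adj_of_nontrivial a
    exact not_noQS_of_disjAut (disjAut_dprod_of_colorable hc h) hN
  · intro x y hxy
    by_contra hne
    exact not_noQS_of_disjAut (disjAut_dprod_of_twins hne hxy) hN
  · rw [noQS_iff]
    intro A _
    exact Rig.of_dprod ((noQS_iff _).1 hN A)

end QSym
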