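import Pool.Agent.Lib.MP_a717c1_al.Corner
import Pool.Agent.Lib.MP_a717c1_al.DQ.Defs2

/-!
# Direct squares: no twisted edges (module NOTWIST)
-/

set_option linter.unusedSectionVars false
set_option linter.unusedDecidableInType false

namespace QSym

open Finset SimpleGraph

section

variable {V V₁ V₂ : Type*} [Fintype V] [Fintype V₁] [Fintype V₂]
variable {A : Type*} [Ring A] [StarRing A] [FReal A]
variable {G : SimpleGraph V} {G₁ : SimpleGraph V₁} {G₂ : SimpleGraph V₂}
variable {u : V → V₁ × V₂ → A}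

/-- A colouring which changes exactly along the edges of a rotation gives an involution. -/
theorem no_rotCol10 (hC : NoMat G u) {ρ : Equiv.Perm V} (hρ : IsRot G ρ)
    (ht : ∀ x, Tw G u x (ρ x)) (c : V → Prop)
    (hc : ∀ x y, G.Adj x y → (¬ (c x ↔ c y) ↔ (y = ρ x ∨ x = ρ y))) : False := by
  classical
  have fl : ∀ x, ¬ (c x ↔ c (ρ x)) := fun x => (hc x (ρ x) (hρ.move x)).2 (Or.inl rfl)
  have f3 : ∀ x, (c (ρ (ρ (ρ x))) ↔ ¬ c x) := by
    intro x
    have h0 := fl x
    have h1 := fl (ρ x)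
    have h2 := fl (ρ (ρ x))
    tauto
  let φ : V → V := fun z => if c z then ρ z else ρ (ρ (ρ z))
  have φt : ∀ z, c z → φ z = ρ z := fun z h => if_pos h
  have φf : ∀ z, ¬ c z → φ z = ρ (ρ (ρ z)) := fun z h => if_neg h
  have key : ∀ x y, G.Adj x y → y = ρ x → G.Adj (φ x) (φ y) := by
    rintro x y hxy rfl
    by_cases h : c x
    · have h' : ¬ c (ρ x) := fun h2 => fl x ⟨fun _ => h2, fun _ => h⟩
      rw [φt x h, φf _ h', hρ.four]
      exact hxy.symm
    · have h' : c (ρ x) := by
        by_contra h2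
        exact fl x ⟨fun h3 => absurd h3 h, fun h3 => absurd h3 h2⟩
      rw [φf x h, φt _ h']
      exact (hρ.move (ρ (ρ x))).symm
  refine hC φ ?_ ?_ ?_
  · intro x
    by_cases h : c x
    · have h' : ¬ c (ρ x) := fun h2 => fl x ⟨fun _ => h2, fun _ => h⟩
      rw [φt x h, φf _ h', hρ.four]
    · rw [φf x h, φt _ ((f3 x).2 h), hρ.four]
  · intro x y hxy
    by_cases h : (c x ↔ c y)
    · by_cases hx : c x
      · rw [φt x hx, φt y (h.1 hx)]
        exact hρ.adj _ _ hxy
      · have hy : ¬ c y := fun h2 => hx (h.2 h2)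
        rw [φf x hx, φf y hy]
        exact hρ.adj _ _ (hρ.adj _ _ (hρ.adj _ _ hxy))
    · rcases (hc x y hxy).1 h with h1 | h1
      · exact key x y hxy h1
      · exact (key y x hxy.symm h1).symm
  · intro z
    by_cases h : c z
    · rw [φt z h]; exact ht z
    · rw [φf z h]
      have h1 := ht (ρ (ρ (ρ z)))
      rw [hρ.four] at h1
      exact h1.symm

theorem rot_connected10 (hG : G.Connected) (hC : NoMat G u) {ρ : Equiv.Perm V} (hρ : IsRot G ρ)
    (ht : ∀ x, Tw G u x (ρ x))
    (x y : V) : Relation.ReflTransGen (NE G ρ) x y := by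
  classical
  let R := Relation.ReflTransGen (NE G ρ)
  have Rsymm : ∀ {x y}, R x y → R y x := by
    intro x y h
    exact rtg_symm (fun h => NE.symm h) h
  have Rtrans : ∀ {x y z}, R x y → R y z → R x z := fun h1 h2 => Relation.ReflTransGen.trans h1 h2
  have Rρ : ∀ {x y}, R x y → R (ρ x) (ρ y) := by
    intro x y h
    refine rtg_lift ρ ?_ h
    rintro a b ⟨h1, h2, h3⟩
    exact ⟨hρ.adj _ _ h1, fun h => h2 (ρ.injective h), fun h => h3 (ρ.injective h)⟩
  -- everything is connected to some power of ρ applied to x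
  have key : ∀ z, R x z ∨ R (ρ x) z ∨ R (ρ (ρ x)) z ∨ R (ρ (ρ (ρ x))) z := by
    intro z
    have h0 := (SimpleGraph.reachable_iff_reflTransGen x z).1 (hG.preconnected x z)
    induction h0 with
    | refl => left; exact Relation.ReflTransGen.refl
    | @tail p q _ hpq ih =>
      by_cases h1 : q = ρ p
      · subst h1
        rcases ih with h | h | h | h
        · right; left; exact Rρ h
        · right; right; left; exact Rρ h
        · right; right; right; exact Rρ h
        · left; have := Rρ h; rwa [hρ.four] at this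
      · by_cases h2 : p = ρ q
        · have h3 : q = ρ (ρ (ρ p)) := by rw [h2, hρ.four]
          rw [h3]
          rcases ih with h | h | h | h
          · right; right; right; exact Rρ (Rρ (Rρ h))
          · left; have := Rρ (Rρ (Rρ h)); rwa [hρ.four] at this
          · right; left; have := Rρ (Rρ (Rρ h)); rwa [hρ.four] at this
          · right; right; left; have := Rρ (Rρ (Rρ h)); rwa [hρ.four] at this
        · have h3 : R p q := Relation.ReflTransGen.single ⟨hpq, h1, h2⟩
          rcases ih with h | h | h | h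
          · left; exact Rtrans h h3
          · right; left; exact Rtrans h h3
          · right; right; left; exact Rtrans h h3
          · right; right; right; exact Rtrans h h3
  by_cases h1 : R x (ρ x)
  · have h2 : R (ρ x) (ρ (ρ x)) := Rρ h1
    have h3 : R (ρ (ρ x)) (ρ (ρ (ρ x))) := Rρ h2
    rcases key y with h | h | h | h
    · exact h
    · exact Rtrans h1 h
    · exact Rtrans h1 (Rtrans h2 h)
    · exact Rtrans h1 (Rtrans h2 (Rtrans h3 h))
  · exfalso
    let c : V → Prop := fun z => R x z ∨ R (ρ (ρ x)) z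
    let d : V → Prop := fun z => R (ρ x) z ∨ R (ρ (ρ (ρ x))) z
    have hcd : ∀ z, c z ∨ d z := by
      intro z
      rcases key z with h | h | h | h
      · exact Or.inl (Or.inl h)
      · exact Or.inr (Or.inl h)
      · exact Or.inl (Or.inr h)
      · exact Or.inr (Or.inr h)
    have hncd : ∀ z, c z → d z → False := by
      rintro z (h2 | h2) (h3 | h3)
      · exact h1 (Rtrans h2 (Rsymm h3))
      · have := Rρ (Rtrans h2 (Rsymm h3))
        rw [hρ.four] at this
        exact h1 (Rsymm this)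
      · have := Rρ (Rρ (Rρ (Rtrans h2 (Rsymm h3))))
        simp only [hρ.four] at this
        exact h1 (Rsymm this)
      · have := Rρ (Rρ (Rtrans h2 (Rsymm h3)))
        simp only [hρ.four] at this
        exact h1 this
    have hcρ : ∀ z, c z → d (ρ z) := by
      rintro z (h2 | h2)
      · exact Or.inl (Rρ h2)
      · exact Or.inr (Rρ h2)
    have hdρ : ∀ z, d z → c (ρ z) := by
      rintro z (h2 | h2)
      · exact Or.inr (Rρ h2)
      · left; have := Rρ h2; rwa [hρ.four] at this
    have hflip : ∀ z, ¬ (c z ↔ c (ρ z)) := by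
      intro z h2
      rcases hcd z with h3 | h3
      · exact hncd _ (h2.1 h3) (hcρ z h3)
      · exact hncd _ (h2.2 (hdρ z h3)) h3
    refine no_rotCol10 hC hρ ht c ?_
    intro p q hpq
    constructor
    · intro h2
      by_contra h3
      push Not at h3
      have h4 : R p q := Relation.ReflTransGen.single ⟨hpq, h3.1, h3.2⟩
      apply h2
      constructor
      · rintro (h5 | h5)
        · exact Or.inl (Rtrans h5 h4)
        · exact Or.inr (Rtrans h5 h4)
      · rintro (h5 | h5)
        · exact Or.inl (Rtrans h5 (Rsymm h4))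
        · exact Or.inr (Rtrans h5 (Rsymm h4))
    · rintro (rfl | rfl)
      · exact hflip _
      · intro h2; exact hflip _ h2.symm

section

variable (hu : QI G (G₁ □ G₂) u)
include hu

theorem QI.rot_D_zero10 (hG : G.Connected) (hC : NoMat G u) {D₀ : A} (hD : D₀ ≠ 0)
    {ρ : Equiv.Perm V} (hρ : IsRot G ρ)
    (hs : ∀ x, Sq G u D₀ x (ρ x) (ρ (ρ x)) (ρ (ρ (ρ x)))) {x x' : V} (h : NE G ρ x x') :
    Dd u x (ρ x) (ρ x') = 0 := by
  by_contra hD'
  have tw := hu.tw_rot hD hs
  obtain ⟨d1, d2⟩ := hu.dia_NE hρ (tw x) h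
  have hsq : Sq G u (Dd u x (ρ x) (ρ x')) x (ρ x) (ρ x') x' := ⟨d1, d2, rfl⟩
  obtain ⟨σ, hσ, hσs, hσx⟩ := hu.exists_rot hG hD' hsq
  have hσ3 : σ (σ (σ x)) = x' := (hu.sq_unique hD' (hσs x) hsq).2.2
  -- transport
  have tr : ∀ (τ : Equiv.Perm V), IsRot G τ → ∀ v v', NE G ρ v v' → ρ v = τ v →
      (ρ v' = τ v' ∨ ρ v' = τ.symm v') := by
    intro τ hτ v v' hv he
    obtain ⟨e1, e2⟩ := hu.dia_NE hρ (tw v) hv
    by_cases h1 : v = τ v'
    · have h2 : G.Adj v' (ρ v') ∧ G.Adj (ρ v') (τ (τ v')) := by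
        refine ⟨hρ.move v', ?_⟩
        rw [← h1, ← he]
        exact hρ.adj _ _ hv.1.symm
      rcases ((hτ.dia v').iff (ρ v')).1 h2 with h3 | h3
      · left; exact h3
      · right; rw [h3, hτ.symm_apply]
    · left
      have h2 : G.Adj (ρ v) (τ v') ∧ G.Adj (τ v') v' := by
        refine ⟨?_, (hτ.move v').symm⟩
        rw [he]; exact hτ.adj _ _ hv.1
      rcases (e2.iff (τ v')).1 h2 with h3 | h3
      · exact h3.symm
      · exact absurd h3.symm h1
  have J : ∀ v, ρ v = σ v ∨ ρ v = σ.symm v := by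
    intro v
    have hc := rot_connected10 hG hC hρ (hu.tw_rot hD hs) x v
    induction hc with
    | refl => left; exact hσx.symm
    | @tail p q _ hpq ih =>
      rcases ih with h1 | h1
      · exact tr σ hσ p q hpq h1
      · have := tr σ.symm hσ.symm p q hpq h1
        rw [Equiv.symm_symm] at this
        exact this.symm
  rcases J (ρ.symm x) with h1 | h1
  · rw [Equiv.apply_symm_apply] at h1
    have h2 : ρ.symm x = x' := by
      have : σ.symm x = ρ.symm x := by rw [Equiv.symm_apply_eq]; exact h1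
      rw [← this, hσ.symm_apply, hσ3]
    apply h.2.2
    rw [← h2, Equiv.apply_symm_apply]
  · rw [Equiv.apply_symm_apply] at h1
    have h2 : ρ.symm x = ρ x := by
      rw [← hσx]
      have : σ x = σ (σ.symm (ρ.symm x)) := by rw [← h1]
      rw [this, Equiv.apply_symm_apply]
    exact hρ.ne_symm x h2.symm

/-- All the data attached to a rotation coming from a nonzero `D`. -/
theorem QI.rot_data10 (hG : G.Connected) (hC : NoMat G u) {D₀ : A} (hD : D₀ ≠ 0)
    {ρ : Equiv.Perm V} (hρ : IsRot G ρ)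
    (hs : ∀ x, Sq G u D₀ x (ρ x) (ρ (ρ x)) (ρ (ρ (ρ x)))) :
    (∀ x y, hh u x (ρ x) = hh u y (ρ y)) ∧
    (∀ x y, G.Adj x y → hh u (ρ x) (ρ y) = hh u x y) := by
  have tw := hu.tw_rot hD hs
  have h1 : ∀ x y, NE G ρ x y → hh u x (ρ x) = hh u y (ρ y) ∧ hh u (ρ x) (ρ y) = hh u x y := by
    intro x y h
    obtain ⟨d1, d2⟩ := hu.dia_NE hρ (tw x) h
    have h0 := hu.rot_D_zero10 hG hC hD hρ hs h
    have s1 := hu.square d1
    have s2 := hu.square' d1
    rw [h0, add_zero] at s1 s2
    exact ⟨sub_eq_zero.1 s1, sub_eq_zero.1 s2⟩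
  have h2 : ∀ x y, hh u x (ρ x) = hh u y (ρ y) := by
    intro x y
    have hc := rot_connected10 hG hC hρ (hu.tw_rot hD hs) x y
    induction hc with
    | refl => rfl
    | tail _ hpq ih => exact ih.trans (h1 _ _ hpq).1
  refine ⟨h2, ?_⟩
  intro x y hxy
  by_cases e1 : y = ρ x
  · subst e1; exact h2 _ _
  · by_cases e2 : x = ρ y
    · subst e2
      rw [← hu.star_hh, ← hu.star_hh y (ρ y), h2 (ρ y) y]
    · exact (h1 x y ⟨hxy, e1, e2⟩).2

/-- (2t-1)(g-g*) = 0 -/
theorem QI.rot_half10 (hG : G.Connected) (hC : NoMat G u) {D₀ : A} (hD : D₀ ≠ 0)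
    {ρ : Equiv.Perm V} (hρ : IsRot G ρ)
    (hs : ∀ x, Sq G u D₀ x (ρ x) (ρ (ρ x)) (ρ (ρ (ρ x)))) (x : V) :
    (tt u x (ρ x) + tt u x (ρ x) - 1) * (hh u x (ρ x) - hh u (ρ x) x) = 0 := by
  obtain ⟨h1, _⟩ := hu.rot_data10 hG hC hD hρ hs
  have p1 := hu.path' (hρ.move x) (hρ.move (ρ x))
  have m4 := hρ.four x
  have e1 : hh u (ρ x) (ρ (ρ x)) = hh u x (ρ x) := h1 _ _
  have a1 : G.Adj x (ρ (ρ (ρ x))) := (hρ.dia x).ad
  have a2 : G.Adj (ρ (ρ (ρ x))) (ρ (ρ x)) := (hρ.dia x).dc
  have p2 := hu.path' a1 a2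
  have e2 : hh u x (ρ (ρ (ρ x))) = hh u (ρ x) x := by
    have := h1 (ρ (ρ (ρ x))) x
    rw [m4] at this
    rw [← hu.star_hh, this, hu.star_hh]
  have e3 : hh u (ρ (ρ (ρ x))) (ρ (ρ x)) = hh u (ρ x) x := by
    rw [← hu.star_hh, h1 (ρ (ρ x)) x, hu.star_hh]
  rw [e1] at p1
  rw [e2, e3] at p2
  rw [hu.two_tt (hρ.move x)]
  have hn := hu.hh_normal (hρ.move x)
  set g := hh u x (ρ x)
  set k := hh u (ρ x) x
  have e4 : (g + k - 1) * (g - k) = (g * g - g) - (k * k - k) + (k * g - g * k) := by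
    noncomm_ring
  rw [e4, ← hn, sub_self, add_zero]
  have e5 : (g * g - g) + (g * g - g) = (k * k - k) + (k * k - k) := by
    have q1 : g + g - (g * g + g * g) = MM G₁ G₂ u x (ρ (ρ x)) := by rw [p1]; abel
    have q2 : k + k - (k * k + k * k) = MM G₁ G₂ u x (ρ (ρ x)) := by rw [p2]; abel
    have : -(g + g - (g * g + g * g)) = -(k + k - (k * k + k * k)) := by rw [q1, q2]
    calc (g * g - g) + (g * g - g) = -(g + g - (g * g + g * g)) := by abel
      _ = -(k + k - (k * k + k * k)) := this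
      _ = _ := by abel
  rw [freal_two' e5, sub_self]

/-- Every twisted edge belongs to a rotation. -/
theorem QI.tw_exists_rot10 (hG : G.Connected) (hC : NoMat G u) (hB : NoTwK2 G u) {a b : V}
    (hab : Tw G u a b) :
    ∃ (D₀ : A) (ρ : Equiv.Perm V), D₀ ≠ 0 ∧ IsRot G ρ ∧
      (∀ x, Sq G u D₀ x (ρ x) (ρ (ρ x)) (ρ (ρ (ρ x)))) ∧ ρ a = b := by
  classical
  by_cases hstar : ∀ x x' y y', G.Adj x x' → hh u x x' = hh u a b → Dia G x x' y' y →
      Dia G x' y' y x → Dd u x x' y' = 0
  · exfalso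
    let P : V → V → Prop := fun x x' => G.Adj x x' ∧ hh u x x' = hh u a b
    have Ptw : ∀ {x x'}, P x x' → Tw G u x x' := by
      rintro x x' ⟨h1, h2⟩
      refine ⟨h1, ?_⟩
      rw [← hu.star_hh x x', h2, hu.star_hh]
      exact hab.2
    have Pout : ∀ {x x' y}, P x x' → G.Adj x y → y ≠ x' → ∃ y', P y y' ∧ G.Adj x' y' ∧ y' ≠ x := by
      intro x x' y hP hy hne
      obtain ⟨y', h1, h2, h3, h4⟩ := hu.tw_dia (Ptw hP) hy hne
      have h0 := hstar x x' y y' hP.1 hP.2 h2.flip h1.rev.flip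
      have s1 := hu.square h2.flip
      rw [h0, add_zero] at s1
      exact ⟨y', ⟨h3.1, by rw [← sub_eq_zero.1 s1]; exact hP.2⟩, h1.dc.symm, h1.bd.symm⟩
    have Pin : ∀ {x x' y}, P x' x → G.Adj x y → y ≠ x' → ∃ y', P y' y ∧ G.Adj x' y' := by
      intro x x' y hP hy hne
      obtain ⟨y', h1, h2, h3, h4⟩ := hu.tw_dia (Ptw hP).symm hy hne
      have h0 := hstar x' x y' y hP.1 hP.2 h1.rev h2
      have s1 := hu.square h1.rev
      rw [h0, add_zero] at s1
      exact ⟨y', ⟨h3.1.symm, by rw [← sub_eq_zero.1 s1]; exact hP.2⟩, h1.dc.symm⟩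
    have Pu : ∀ {x y z}, P x y → P x z → y = z := by
      intro x y z h1 h2
      by_contra hne
      exact hu.tw_ne_hh (Ptw h1) h2.1 hne (h1.2.trans h2.2.symm)
    have Pu' : ∀ {x y z}, P y x → P z x → y = z := by
      intro x y z h1 h2
      by_contra hne
      refine hu.tw_ne_hh (Ptw h1).symm h2.1.symm hne ?_
      rw [← hu.star_hh y x, ← hu.star_hh z x, h1.2, h2.2]
    have Pboth : ∀ {x y z}, P x y → P z x → False := by
      intro x y z h1 h2
      by_cases hyz : z = y
      · subst hyz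
        apply (Ptw h1).2
        rw [h1.2, h2.2]
      · obtain ⟨y', h3, h4, h5⟩ := Pout h1 h2.1.symm hyz
        exact h5 (Pu h3 h2)
    have Pev : ∀ x, (∃ y, P x y) ∨ (∃ y, P y x) := by
      intro x
      have h0 := (SimpleGraph.reachable_iff_reflTransGen a x).1 (hG.preconnected a x)
      induction h0 with
      | refl => exact Or.inl ⟨b, hab.1, rfl⟩
      | @tail p q _ hpq ih =>
        rcases ih with ⟨y, h1⟩ | ⟨y, h1⟩
        · by_cases h2 : q = y
          · subst h2; exact Or.inr ⟨p, h1⟩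
          · obtain ⟨y', h3, _⟩ := Pout h1 hpq h2
            exact Or.inl ⟨y', h3⟩
        · by_cases h2 : q = y
          · subst h2; exact Or.inl ⟨p, h1⟩
          · obtain ⟨y', h3, _⟩ := Pin h1 hpq h2
            exact Or.inr ⟨y', h3⟩
    have Pev' : ∀ x, ∃ y, P x y ∨ P y x := by
      intro x
      rcases Pev x with ⟨y, h⟩ | ⟨y, h⟩
      · exact ⟨y, Or.inl h⟩
      · exact ⟨y, Or.inr h⟩
    choose φ hφ using Pev'
    let c : V → Prop := fun x => ∃ y, P x y
    have φout : ∀ {x y}, P x y → φ x = y := by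
      intro x y h
      rcases hφ x with h1 | h1
      · exact Pu h1 h
      · exact (Pboth h h1).elim
    have φin : ∀ {x y}, P y x → φ x = y := by
      intro x y h
      rcases hφ x with h1 | h1
      · exact (Pboth h1 h).elim
      · exact Pu' h1 h
    refine hB φ c ⟨?_, ?_, ?_, ?_⟩ a (by rw [φout (x := a) (y := b) ⟨hab.1, rfl⟩]; exact hab)
    · intro x
      rcases hφ x with h1 | h1
      · exact φin h1
      · exact φout h1
    · intro x
      rcases hφ x with h1 | h1
      · exact h1.1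
      · exact h1.1.symm
    · intro x y hxy
      by_cases h2 : y = φ x
      · subst h2
        have : φ (φ x) = x := by
          rcases hφ x with h1 | h1
          · exact φin h1
          · exact φout h1
        rw [this]; exact hxy.symm
      · rcases hφ x with h1 | h1
        · obtain ⟨y', h3, h4, _⟩ := Pout h1 hxy h2
          rw [φout h3]; exact h4
        · obtain ⟨y', h3, h4⟩ := Pin h1 hxy h2
          rw [φin h3]; exact h4
    · intro x y hxy
      constructor
      · intro h1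
        by_contra h2
        apply h1
        constructor
        · rintro ⟨z, hz⟩
          have : y ≠ z := by
            intro h; apply h2; rw [h, φout hz]
          obtain ⟨y', h3, _⟩ := Pout hz hxy this
          exact ⟨y', h3⟩
        · rintro ⟨z, hz⟩
          have : x ≠ z := by
            intro h
            apply h2
            rw [← h] at hz
            exact (φin hz).symm
          obtain ⟨y', h3, _⟩ := Pout hz hxy.symm this
          exact ⟨y', h3⟩
      · rintro rfl h1
        rcases hφ x with h2 | h2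
        · obtain ⟨z, hz⟩ := h1.1 ⟨_, h2⟩
          exact Pboth hz h2
        · obtain ⟨z, hz⟩ := h1.2 ⟨_, h2⟩
          exact Pboth hz h2
  · push Not at hstar
    obtain ⟨x, x', y, y', h1, h2, h3, h4, h5⟩ := hstar
    obtain ⟨ρ, hρ, hs, hx⟩ := hu.exists_rot hG h5 (⟨h3, h4, rfl⟩ : Sq G u (Dd u x x' y') x x' y' y)
    refine ⟨_, ρ, h5, hρ, hs, ?_⟩
    obtain ⟨h6, _⟩ := hu.rot_data10 hG hC h5 hρ hs
    by_contra hne
    have h7 : hh u a b = hh u a (ρ a) := by
      rw [h6 a x, hx, h2]
    exact hu.tw_ne_hh hab (hρ.move a) (Ne.symm hne) h7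

theorem QI.exists_RotD10 (hG : G.Connected) (hC : NoMat G u) (hB : NoTwK2 G u)
    (h1 : (1 : A) ≠ 0) {a b : V} (hab : G.Adj a b)
    (h : tt u a b + tt u a b = 1) : ∃ r : RotD G u, r.ρ a = b := by
  obtain ⟨D₀, ρ, hD, hρ, hs, he⟩ := hu.tw_exists_rot10 hG hC hB (hu.tw_of_half h1 hab h)
  obtain ⟨d1, d2⟩ := hu.rot_data10 hG hC hD hρ hs
  refine ⟨⟨ρ, hh u a b, hh u b a, (hu.star_hh a b).symm, hρ, ?_, d2, ?_, h, ?_⟩, he⟩
  · intro x; rw [d1 x a, he]
  · rw [← hu.two_tt hab]; exact h
  · have := hu.tt_symm hab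
    rw [this] at h
    exact h

theorem RotD.tw10 (h1 : (1 : A) ≠ 0) (r : RotD G u) (x : V) : Tw G u x (r.ρ x) := by
  refine ⟨r.rot.move x, ?_⟩
  have e1 : hh u (r.ρ x) x = r.k := by
    rw [← hu.star_hh, r.hg, r.hk]
  rw [r.hg, e1]
  intro h
  have s1 := r.sum
  have s2 := r.prod
  rw [← h] at s1 s2
  have s3 : r.g = 1 := by
    calc r.g = r.g * (r.g + r.g) := by rw [s1, mul_one]
      _ = r.g * r.g + r.g * r.g := mul_add _ _ _
      _ = 1 := s2
  rw [s3] at s1
  apply h1
  have : (1 : A) + 1 = 1 + 0 := by rw [s1, add_zero]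
  exact add_left_cancel this

/-- There is no edge with `t = 1/2` if all `t` are `0`, `1` or `1/2`. -/
theorem QI.no_half10 (hG : G.Connected) (hC : NoMat G u) (hB : NoTwK2 G u) (h1 : (1 : A) ≠ 0)
    (hall : ∀ x y, G.Adj x y → tt u x y = 0 ∨ tt u x y = 1 ∨ tt u x y + tt u x y = 1)
    {a b : V} (hab : G.Adj a b) : tt u a b + tt u a b ≠ 1 := by
  classical
  intro hhalf
  have : Nonempty V := ⟨a⟩
  obtain ⟨r₁, hr₁⟩ := hu.exists_RotD10 hG hC hB h1 hab hhalf
  let P : RotD G u → Prop := fun r => r.g = r₁.g ∨ r.g = r₁.k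
  have hP : ∀ r, P (r.inv' hu) ↔ P r := fun r => RotD.P_inv hu r₁ r
  have hP2 : ∀ r r', r.g = r'.k → (P r ↔ P r') := by
    intro r r' h
    change (r.g = r₁.g ∨ r.g = r₁.k) ↔ (r'.g = r₁.g ∨ r'.g = r₁.k)
    rw [h]
    exact RotD.P_inv hu r₁ r'
  have walk : ∀ y, Relation.ReflTransGen (NE G r₁.ρ) a y →
      ∃ L : List (RotD G u), cnt P L = 0 ∧ QQ G u a (rho L y) := by
    intro y hy
    induction hy with
    | refl => exact ⟨[], rfl, QQ_refl a⟩
    | @tail y z _ hyz ih =>
      obtain ⟨L, hL, hQ⟩ := ih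
      rcases hall y z hyz.1 with h | h | h
      · refine ⟨L, hL, hu.QQ_trans h1 hQ (QQ_rho L ?_)⟩
        exact ⟨y, Relation.ReflTransGen.refl,
          Relation.ReflTransGen.single ⟨hyz.1, hu.hh_zero_of_tt hyz.1 h⟩⟩
      · refine ⟨L, hL, hu.QQ_trans h1 hQ (QQ_rho L ?_)⟩
        exact ⟨z, Relation.ReflTransGen.single ⟨hyz.1, hu.hh_one_of_tt hyz.1 h⟩,
          Relation.ReflTransGen.refl⟩
      · obtain ⟨r, hr⟩ := hu.exists_RotD10 hG hC hB h1 hyz.1 h
        have hnP : ¬ P r := by
          have tw := hu.tw_of_half h1 hyz.1 h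
          have e0 : r.g = hh u y z := by rw [← r.hg y, hr]
          rintro (h2 | h2)
          · refine hu.tw_ne_hh tw (r₁.rot.move y) hyz.2.1 ?_
            rw [← e0, h2, r₁.hg]
          · refine hu.tw_ne_hh tw (r₁.rot.move' y) ?_ ?_
            · intro h3
              apply hyz.2.2
              rw [h3, Equiv.apply_symm_apply]
            · rw [← e0, h2, r₁.hg' hu]
        refine ⟨r.inv' hu :: L, ?_, ?_⟩
        · unfold cnt
          rw [if_neg (fun h => hnP ((hP r).1 h)), hL]
        · have : rho (r.inv' hu :: L) z = rho L y := by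
            change rho L (r.ρ.symm z) = rho L y
            rw [← hr, Equiv.symm_apply_apply]
          rw [this]
          exact hQ
  obtain ⟨L, hL, hQ⟩ := walk (r₁.ρ a) (rot_connected10 hG hC r₁.rot (r₁.tw10 hu h1) _ _)
  have hodd : Odd (cnt P (r₁ :: L)) := by
    unfold cnt
    rw [if_pos (Or.inl rfl), hL]
    decide
  have hQ' : QQ G u a (rho (r₁ :: L) a) := hQ
  exact hu.claim h1 P hP hP2 _ (r₁ :: L) rfl hodd a (hu.QQ_trans h1 hQ' (QQ_rho _ hQ'))

/-- the cubic equation of `t` -/
theorem QI.tt_cubic10 (hG : G.Connected) (hC : NoMat G u) (hB : NoTwK2 G u) {a b : V}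
    (hab : G.Adj a b) :
    (tt u a b + tt u a b - 1) * (tt u a b * tt u a b - tt u a b) = 0 := by
  by_cases h : tt u a b * tt u a b = tt u a b
  · rw [h, sub_self, mul_zero]
  · obtain ⟨D₀, ρ, hD, hρ, hs, he⟩ := hu.tw_exists_rot10 hG hC hB ((hu.tw_iff hab).2 h)
    have h1 := hu.rot_half10 hG hC hD hρ hs a
    rw [he] at h1
    have h2 := hu.two_tt hab
    have h3 := hu.hh_normal hab
    have e1 : (hh u a b - hh u b a) * (hh u a b - hh u b a) =
        (4 : ℕ) • (tt u a b * tt u a b - tt u a b) := by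
      have : (hh u a b - hh u b a) * (hh u a b - hh u b a) =
        (hh u a b + hh u b a) * (hh u a b + hh u b a)
          - (hh u a b * hh u b a + hh u a b * hh u b a)
          - (hh u b a * hh u a b + hh u b a * hh u a b) := by noncomm_ring
      rw [this, ← h2, ← h3]
      change _ - (tt u a b + tt u a b) - (tt u a b + tt u a b) = _
      noncomm_ring
    have e2 : (4 : ℕ) • ((tt u a b + tt u a b - 1) * (tt u a b * tt u a b - tt u a b)) = 0 := by
      rw [← mul_smul_comm, ← e1, ← mul_assoc, h1, zero_mul]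
    exact freal_nsmul (by norm_num) e2

/-- Given a central projection, a smaller one deciding `t` on a given edge. -/
theorem QI.decide_one10 (hG : G.Connected) (hC : NoMat G u) (hB : NoTwK2 G u) {a b : V}
    (hab : G.Adj a b) {P : A} (hP : CP u P) (hP0 : P ≠ 0) :
    ∃ P', CP u P' ∧ P' ≠ 0 ∧ P * P' = P' ∧
      (P' * tt u a b = 0 ∨ P' * tt u a b = P' ∨ P' * tt u a b + P' * tt u a b = P') := by
  have h3 := hu.tt_cubic10 hG hC hB hab
  have hcm : CommU u (tt u a b) := hu.tt_central hG hab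
  have hPt : P * tt u a b = tt u a b * P := hP.comm.tt a b
  have hst := hu.star_tt a b
  set t := tt u a b
  have hP2 := hP.pr.idem.eq
  -- t³ relation : 2t³ = 3t² - t
  have t3 : t * t * t + t * t * t = t * t + t * t + t * t - t := by
    have : (t + t - 1) * (t * t - t) = (t * t * t + t * t * t) - (t * t + t * t + t * t - t) := by
      noncomm_ring
    rw [this] at h3
    exact sub_eq_zero.1 h3
  have comm_of : ∀ x : A, (∀ y, y * t = t * y → y * x = x * y) → CommU u x ∧ P * x = x * P := by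
    intro x hx
    refine ⟨fun z w => ?_, hx P hPt⟩
    rw [hx (u z w) (hcm z w).symm]
  -- the three projections
  have p0 : ∀ y, y * t = t * y → y * (1 - t - t - t + t * t + t * t) =
      (1 - t - t - t + t * t + t * t) * y := by
    intro y hy
    have : y * (1 - t - t - t + t * t + t * t) = y - y * t - y * t - y * t + y * t * t + y * t * t := by
      noncomm_ring
    have h' : y * t * t = t * t * y := by rw [hy, mul_assoc, hy, mul_assoc]
    rw [this, h', hy]; noncomm_ring
  have p1 : ∀ y, y * t = t * y → y * (t * t + t * t - t) = (t * t + t * t - t) * y := by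
    intro y hy
    have : y * (t * t + t * t - t) = y * t * t + y * t * t - y * t := by noncomm_ring
    have h' : y * t * t = t * t * y := by rw [hy, mul_assoc, hy, mul_assoc]
    rw [this, h', hy]; noncomm_ring
  have p2 : ∀ y, y * t = t * y → y * ((4 : ℕ) • (t - t * t)) = ((4 : ℕ) • (t - t * t)) * y := by
    intro y hy
    have : y * ((4 : ℕ) • (t - t * t)) = (4 : ℕ) • (y * t - y * t * t) := by noncomm_ring
    have h' : y * t * t = t * t * y := by rw [hy, mul_assoc, hy, mul_assoc]
    rw [this, h', hy]; noncomm_ring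
  have q0 : CP u (1 - t - t - t + t * t + t * t) := by
    refine ⟨⟨?_, ?_⟩, (comm_of _ p0).1⟩
    · simp only [star_add, star_sub, star_mul, hst, star_one]
    · change _ * _ = _
      rw [← sub_eq_zero]
      calc _ = (t + t - 1 - 1 - 1) * ((t + t - 1) * (t * t - t)) := by noncomm_ring
        _ = 0 := by rw [h3, mul_zero]
  have q1 : CP u (t * t + t * t - t) := by
    refine ⟨⟨?_, ?_⟩, (comm_of _ p1).1⟩
    · simp only [star_add, star_sub, star_mul, hst]
    · change _ * _ = _
      rw [← sub_eq_zero]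
      calc _ = (t + t + 1) * ((t + t - 1) * (t * t - t)) := by noncomm_ring
        _ = 0 := by rw [h3, mul_zero]
  have q2 : CP u ((4 : ℕ) • (t - t * t)) := by
    refine ⟨⟨?_, ?_⟩, (comm_of _ p2).1⟩
    · simp only [star_nsmul, star_sub, star_mul, hst]
    · change _ * _ = _
      rw [← sub_eq_zero]
      calc _ = ((8 : ℕ) • t - (4 : ℕ) • 1) * ((t + t - 1) * (t * t - t)) := by noncomm_ring
        _ = 0 := by rw [h3, mul_zero]
  have sum : (1 - t - t - t + t * t + t * t) + (t * t + t * t - t) + ((4 : ℕ) • (t - t * t)) = 1 := by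
    noncomm_ring
  have hsplit : P * (1 - t - t - t + t * t + t * t) + P * (t * t + t * t - t)
      + P * ((4 : ℕ) • (t - t * t)) = P := by
    rw [← mul_add, ← mul_add, sum, mul_one]
  have absorb : ∀ x, P * (P * x) = P * x := fun x => by rw [← mul_assoc, hP2]
  by_cases c0 : P * (1 - t - t - t + t * t + t * t) = 0
  · by_cases c1 : P * (t * t + t * t - t) = 0
    · have c2 : P * ((4 : ℕ) • (t - t * t)) ≠ 0 := by
        intro c2
        rw [c0, c1, c2] at hsplit
        apply hP0; rw [← hsplit]; simp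
      refine ⟨_, hP.mul q2 (comm_of _ p2).2, c2, absorb _, Or.inr (Or.inr ?_)⟩
      rw [mul_assoc, ← mul_add]
      congr 1
      rw [← sub_eq_zero]
      calc _ = (-(4 : ℤ)) • ((t + t - 1) * (t * t - t)) := by noncomm_ring
        _ = 0 := by rw [h3, smul_zero]
    · refine ⟨_, hP.mul q1 (comm_of _ p1).2, c1, absorb _, Or.inr (Or.inl ?_)⟩
      rw [mul_assoc]
      congr 1
      rw [← sub_eq_zero]
      calc _ = ((t + t - 1) * (t * t - t)) := by noncomm_ring
        _ = 0 := h3
  · refine ⟨_, hP.mul q0 (comm_of _ p0).2, c0, absorb _, Or.inl ?_⟩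
    rw [mul_assoc]
    have : (1 - t - t - t + t * t + t * t) * t = 0 := by
      have : (1 - t - t - t + t * t + t * t) * t =
        (t * t * t + t * t * t) - (t * t + t * t + t * t - t) := by noncomm_ring
      rw [this, t3, sub_self]
    rw [this, mul_zero]

/-- all values of `t` can be decided simultaneously -/
theorem QI.decide_all10 (hG : G.Connected) (hC : NoMat G u) (hB : NoTwK2 G u) {P : A} (hP : CP u P)
    (hP0 : P ≠ 0) (s : Finset (V × V)) :
    ∃ P', CP u P' ∧ P' ≠ 0 ∧ P * P' = P' ∧ ∀ e ∈ s, G.Adj e.1 e.2 →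
      (P' * tt u e.1 e.2 = 0 ∨ P' * tt u e.1 e.2 = P' ∨
        P' * tt u e.1 e.2 + P' * tt u e.1 e.2 = P') := by
  classical
  induction s using Finset.induction_on with
  | empty => exact ⟨P, hP, hP0, hP.pr.idem.eq, by simp⟩
  | insert e s _ ih =>
    obtain ⟨P', h1, h2, h3, h4⟩ := ih
    by_cases he : G.Adj e.1 e.2
    · obtain ⟨P'', k1, k2, k3, k4⟩ := hu.decide_one10 hG hC hB he h1 h2
      have k5 : P'' * P' = P'' := by
        have := congrArg star k3
        rwa [star_mul, k1.pr.star_eq, h1.pr.star_eq] at this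
      refine ⟨P'', k1, k2, ?_, ?_⟩
      · rw [← k3, ← mul_assoc, h3]
      · intro f hf hadj
        rcases Finset.mem_insert.1 hf with rfl | hf
        · exact k4
        · rcases h4 f hf hadj with h | h | h
          · left; rw [← k5, mul_assoc, h, mul_zero]
          · right; left; rw [← k5, mul_assoc, h]
          · right; right
            nth_rw 1 [← k5]
            nth_rw 2 [← k5]
            rw [mul_assoc, ← mul_add, h, k5]
    · refine ⟨P', h1, h2, h3, ?_⟩
      intro f hf hadj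
      rcases Finset.mem_insert.1 hf with rfl | hf
      · exact absurd hadj he
      · exact h4 f hf hadj

end

end

section

variable {V V₁ V₂ : Type} [Fintype V] [Fintype V₁] [Fintype V₂]
variable {A : Type} [Ring A] [StarRing A] [FReal A]
variable {G : SimpleGraph V} {G₁ : SimpleGraph V₁} {G₂ : SimpleGraph V₂}
variable {u : V → V₁ × V₂ → A}

variable (hu : QI G (G₁ □ G₂) u)
include hu

/-- There are no twisted edges at all. -/
theorem QI.hh_symm10 (sK : StK2) (sP : StPhi) {D : SimpleGraph V} {D' : SimpleGraph (V₁ × V₂)}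
    (hD : QI D D' u) (hG : G.Connected) (hG' : (G₁ □ G₂).Connected) (hyp : HypK2 G D) {a b : V}
    (hab : G.Adj a b) : hh u a b = hh u b a := by
  by_contra hne
  have hB : NoTwK2 G u := sK V V₁ V₂ A G D G₁ G₂ D' u hu hD hG hG' hyp
  have hC : NoMat G u := sP V V₁ V₂ A G G₁ G₂ u hu hG hG' hB
  have htw := (hu.tw_iff hab).1 ⟨hab, hne⟩
  have h3 := hu.tt_cubic10 hG hC hB hab
  have hcm : CommU u (tt u a b) := hu.tt_central hG hab
  have hst := hu.star_tt a b
  obtain ⟨P, hP, hP0, hPt⟩ : ∃ P, CP u P ∧ P ≠ 0 ∧ P * tt u a b + P * tt u a b = P := by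
    set t := tt u a b
    refine ⟨(4 : ℕ) • (t - t * t), ⟨⟨?_, ?_⟩, ?_⟩, ?_, ?_⟩
    · simp only [star_nsmul, star_sub, star_mul, hst]
    · change _ * _ = _
      rw [← sub_eq_zero]
      calc _ = ((8 : ℕ) • t - (4 : ℕ) • 1) * ((t + t - 1) * (t * t - t)) := by noncomm_ring
        _ = 0 := by rw [h3, mul_zero]
    · intro z w
      have h' : t * t * u z w = u z w * (t * t) := by
        rw [mul_assoc, hcm, ← mul_assoc, hcm, mul_assoc]
      rw [smul_mul_assoc, mul_smul_comm, sub_mul, mul_sub, h', hcm]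
    · intro h
      have := freal_nsmul (by norm_num) h
      exact htw (sub_eq_zero.1 this).symm
    · rw [← sub_eq_zero]
      calc _ = (-(4 : ℤ)) • ((t + t - 1) * (t * t - t)) := by noncomm_ring
        _ = 0 := by rw [h3, smul_zero]
  obtain ⟨P', h1, h2, h4, h5⟩ := hu.decide_all10 hG hC hB hP hP0 Finset.univ
  have h6 := hu.corner h1.pr h1.comm
  have hB' : NoTwK2 G (cu h1.pr u h1.comm) :=
    sK V V₁ V₂ (Cor h1.pr) G D G₁ G₂ D' _ h6 (hD.corner h1.pr h1.comm) hG hG' hyp
  have hC' : NoMat G (cu h1.pr u h1.comm) := sP V V₁ V₂ (Cor h1.pr) G G₁ G₂ _ h6 hG hG' hB'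
  have k5 : P' * P = P' := by
    have := congrArg star h4
    rwa [star_mul, h1.pr.star_eq, hP.pr.star_eq] at this
  refine h6.no_half10 hG hC' hB' (Cor.one_ne_zero h2) ?_ hab ?_
  · intro x y hxy
    rcases h5 (x, y) (Finset.mem_univ _) hxy with h | h | h
    · left; apply Cor.ext; rw [cu_tt]; exact h
    · right; left; apply Cor.ext; rw [cu_tt]; exact h
    · right; right; apply Cor.ext; rw [Cor.val_add, cu_tt]; exact h
  · apply Cor.ext
    rw [Cor.val_add, cu_tt, Cor.val_one]
    nth_rw 1 [← k5]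
    nth_rw 2 [← k5]
    rw [mul_assoc, ← mul_add, hPt, k5]

theorem QI.hh_idem10 (sK : StK2) (sP : StPhi) {D : SimpleGraph V} {D' : SimpleGraph (V₁ × V₂)}
    (hD : QI D D' u) (hG : G.Connected) (hG' : (G₁ □ G₂).Connected) (hyp : HypK2 G D) {a b : V}
    (hab : G.Adj a b) : CP u (hh u a b) ∧ tt u a b = hh u a b := by
  have h1 := hu.hh_symm10 sK sP hD hG hG' hyp hab
  obtain ⟨h2, h3⟩ := hu.idem_of_hh_symm hab h1
  refine ⟨⟨⟨?_, ?_⟩, ?_⟩, h2⟩
  · rw [hu.star_hh, h1]
  · rw [h2] at h3; exact h3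
  · rw [← h2]; exact hu.tt_central hG hab

end

/-- **Module NOTWIST.** -/
theorem stNot (sK : StK2) (sP : StPhi) : StNot := by
  intro V V₁ V₂ A _ _ _ _ _ _ G D G₁ G₂ D' u hu hD hG hG' hyp a b hab
  exact (hu.hh_idem10 sK sP hD hG hG' hyp hab).1

end QSym
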