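import Pool.Agent.Lib.MP_a717c1_al.DQ.Phi1

/-!
# Module PHI, second part
-/

set_option linter.unusedSectionVars false
set_option linter.unusedDecidableInType false

namespace QSym

open Finset SimpleGraph

namespace Phi5

/-- a `K₂`-structure from a relation -/
theorem isK2_of_rel {V : Type*} {G : SimpleGraph V} (hG : G.Connected) (P : V → V → Prop)
    (Padj : ∀ {x y}, P x y → G.Adj x y)
    (Pout : ∀ {x x' y}, P x x' → G.Adj x y → y ≠ x' → ∃ y', P y y' ∧ G.Adj x' y' ∧ y' ≠ x)
    (Pin : ∀ {x x' y}, P x' x → G.Adj x y → y ≠ x' → ∃ y', P y' y ∧ G.Adj x' y')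
    (Pu : ∀ {x y z}, P x y → P x z → y = z) (Pu' : ∀ {x y z}, P y x → P z x → y = z)
    (Pboth : ∀ {x y z}, P x y → P z x → False) {a b : V} (hab : P a b) :
    ∃ (φ : V → V) (c : V → Prop), IsK2 G φ c ∧ φ a = b := by
  classical
  have Pev : ∀ x, (∃ y, P x y) ∨ (∃ y, P y x) := by
    intro x
    have h0 := (SimpleGraph.reachable_iff_reflTransGen a x).1 (hG.preconnected a x)
    induction h0 with
    | refl => exact Or.inl ⟨b, hab⟩
    | @tail p q _ hpq ih =>
      rcases ih with ⟨y, h1⟩ | ⟨y, h1⟩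
      · by_cases h2 : q = y
        · subst h2; exact Or.inr ⟨p, h1⟩
        · obtain ⟨y', h3, _⟩ := Pout h1 hpq h2
          exact Or.inl ⟨y', h3⟩
      · by_cases h2 : q = y
        · subst h2; exact Or.inl ⟨p, h1⟩
        · obtain ⟨y', h3, _⟩ := Pin h1 hpq h2
          exact Or.inr ⟨y', h3⟩
  have Pev' : ∀ x, ∃ y, P x y ∨ P y x := by
    intro x
    rcases Pev x with ⟨y, h⟩ | ⟨y, h⟩
    · exact ⟨y, Or.inl h⟩
    · exact ⟨y, Or.inr h⟩
  choose φ hφ using Pev'
  let c : V → Prop := fun x => ∃ y, P x y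
  have φout : ∀ {x y}, P x y → φ x = y := by
    intro x y h
    rcases hφ x with h1 | h1
    · exact Pu h1 h
    · exact (Pboth h h1).elim
  have φin : ∀ {x y}, P y x → φ x = y := by
    intro x y h
    rcases hφ x with h1 | h1
    · exact (Pboth h1 h).elim
    · exact Pu' h1 h
  refine ⟨φ, c, ⟨?_, ?_, ?_, ?_⟩, φout hab⟩
  · intro x
    rcases hφ x with h1 | h1
    · exact φin h1
    · exact φout h1
  · intro x
    rcases hφ x with h1 | h1
    · exact Padj h1
    · exact (Padj h1).symm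
  · intro x y hxy
    by_cases h2 : y = φ x
    · subst h2
      have : φ (φ x) = x := by
        rcases hφ x with h1 | h1
        · exact φin h1
        · exact φout h1
      rw [this]; exact hxy.symm
    · rcases hφ x with h1 | h1
      · obtain ⟨y', h3, h4, _⟩ := Pout h1 hxy h2
        rw [φout h3]; exact h4
      · obtain ⟨y', h3, h4⟩ := Pin h1 hxy h2
        rw [φin h3]; exact h4
  · intro x y hxy
    constructor
    · intro h1
      by_contra h2
      apply h1
      constructor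
      · rintro ⟨z, hz⟩
        have : y ≠ z := by
          intro h; apply h2; rw [h, φout hz]
        obtain ⟨y', h3, _⟩ := Pout hz hxy this
        exact ⟨y', h3⟩
      · rintro ⟨z, hz⟩
        have : x ≠ z := by
          intro h
          apply h2
          rw [← h] at hz
          exact (φin hz).symm
        obtain ⟨y', h3, _⟩ := Pout hz hxy.symm this
        exact ⟨y', h3⟩
    · rintro rfl h1
      rcases hφ x with h2 | h2
      · obtain ⟨z, hz⟩ := h1.1 ⟨_, h2⟩
        exact Pboth hz h2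
      · obtain ⟨z, hz⟩ := h1.2 ⟨_, h2⟩
        exact Pboth hz h2

/-- a `K₂`-structure of the second factor gives one of the product -/
theorem K2_lift {V₁ V₂ : Type*} {G₁ : SimpleGraph V₁} {G₂ : SimpleGraph V₂} {φ : V₂ → V₂}
    {c : V₂ → Prop} (h : IsK2 G₂ φ c) :
    IsK2 (G₁ □ G₂) (fun p => (p.1, φ p.2)) (fun p => c p.2) where
  inv p := by simp [h.inv]
  move p := by
    rw [boxProd_adj]
    exact Or.inr ⟨h.move p.2, rfl⟩
  adj p q hpq := by
    rw [boxProd_adj] at hpq ⊢
    rcases hpq with ⟨h1, h2⟩ | ⟨h1, h2⟩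
    · exact Or.inl ⟨h1, by simp [h2]⟩
    · exact Or.inr ⟨h.adj _ _ h1, h2⟩
  col p q hpq := by
    rw [boxProd_adj] at hpq
    rcases hpq with ⟨h1, h2⟩ | ⟨h1, h2⟩
    · rw [h2]
      constructor
      · intro h3; exact absurd Iff.rfl h3
      · intro h3
        exact absurd (congrArg Prod.fst h3).symm h1.ne
    · rw [h.col _ _ h1]
      constructor
      · intro h3; exact Prod.ext h2.symm h3
      · intro h3; exact congrArg Prod.snd h3

/-- a diamond of the second factor in a layer -/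
theorem dia_layer {V₁ V₂ : Type*} [Fintype V₂] {G₁ : SimpleGraph V₁} {G₂ : SimpleGraph V₂} (s : V₁)
    {p q r v : V₂} (h : Dia G₂ p q r v) : Dia (G₁ □ G₂) (s, p) (s, q) (s, r) (s, v) := by
  refine ⟨?_, ?_, ?_⟩
  · intro h1; exact h.ac (congrArg Prod.snd h1)
  · intro h1; exact h.bd (congrArg Prod.snd h1)
  · rintro ⟨m1, m2⟩
    simp only [boxProd_adj, Prod.mk.injEq]
    constructor
    · rintro ⟨h3 | h3, h4 | h4⟩
      · exact absurd (h3.2.trans h4.2) h.ac
      · exact absurd h4.2.symm h3.1.ne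
      · exact absurd h3.2 h4.1.ne'
      · rcases (h.iff m2).1 ⟨h3.1, h4.1⟩ with h5 | h5
        · exact Or.inl ⟨h3.2.symm, h5⟩
        · exact Or.inr ⟨h3.2.symm, h5⟩
    · rintro (⟨rfl, rfl⟩ | ⟨rfl, rfl⟩)
      · exact ⟨Or.inr ⟨h.ab, rfl⟩, Or.inr ⟨h.bc, rfl⟩⟩
      · exact ⟨Or.inr ⟨h.ad, rfl⟩, Or.inr ⟨h.dc, rfl⟩⟩

variable {V V₁ V₂ A : Type*} [Fintype V] [Fintype V₁] [Fintype V₂] [Ring A] [StarRing A] [FReal A]
variable {G : SimpleGraph V} {G₁ : SimpleGraph V₁} {G₂ : SimpleGraph V₂}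
variable {u : V → V₁ × V₂ → A} {φ : V → V}

theorem cn_layer (s : V₁) {p q : V₂} (h : p ≠ q) :
    cn (G₁ □ G₂) (s, p) (s, q) = cn G₂ p q := by
  rw [cn_prod]
  have h1 : ad G₁ s s = 0 := ad_of_not_adj (G₁.loopless.irrefl s)
  simp [dl_ne h, dl_self, h1]

section

variable (hu : QI G (G₁ □ G₂) u)
include hu

theorem mat_of_tw (h1 : ∀ x, φ (φ x) = x) (h2 : ∀ x y, G.Adj x y → G.Adj (φ x) (φ y))
    (h3 : ∀ z, Tw G u z (φ z)) : Mat G φ where
  inv := h1
  move z := (h3 z).1
  adj := h2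
  dia x y hxy hne := by
    obtain ⟨b', d1, d2, _, _⟩ := hu.tw_dia (h3 x) hxy hne
    have hb : b' = φ y := by
      rcases (d1.iff (φ y)).1 ⟨(h3 y).1, (h2 _ _ hxy).symm⟩ with h5 | h5
      · exfalso
        apply hne
        rw [← h5, h1]
      · exact h5.symm
    subst hb
    exact d2.flip

theorem good (h3 : ∀ z, Tw G u z (φ z)) {w x w' : V₁ × V₂} (hk : kq u φ w x ≠ 0)
    (hw : (G₁ □ G₂).Adj w w') (hx : w' ≠ x) : cn (G₁ □ G₂) w' x = 2 := by
  obtain ⟨z, hz⟩ : ∃ z, u z w * u (φ z) x ≠ 0 := by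
    by_contra hcon
    push Not at hcon
    exact hk (Finset.sum_eq_zero fun z _ => hcon z)
  exact (hu.tw_bd_target (h3 z) hz hw hx).1

/-- (8) -/
theorem exists_mixed {a b : V} (h : Tw G u a b) : ∃ w y : V₁ × V₂, G₁.Adj w.1 y.1 ∧
    G₂.Adj w.2 y.2 ∧ u a w * u b (w.1, y.2) * u a y ≠ 0 := by
  classical
  by_contra hcon
  push Not at hcon
  apply h.2
  have hab := h.1
  have claim : ∀ w y : V₁ × V₂, w.1 ≠ y.1 → w.2 ≠ y.2 → u a w * u b (w.1, y.2) * u a y = 0 := by
    intro w y h1 h2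
    by_contra hne
    have h3 : (G₁ □ G₂).Adj w (w.1, y.2) := by
      by_contra h4
      apply hne
      rw [hu.zero_of_adj hab h4, zero_mul]
    have h4 : (G₁ □ G₂).Adj (w.1, y.2) y := by
      by_contra h4
      apply hne
      rw [mul_assoc, hu.zero_of_adj hab.symm h4, mul_zero]
    rw [boxProd_adj] at h3 h4
    apply hne
    apply hcon
    · rcases h4 with h4 | h4
      · exact h4.1
      · exact absurd h4.2 h1
    · rcases h3 with h3 | h3
      · exact absurd h3.2 h2
      · exact h3.1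
  have claim1 : ∀ (w : V₁ × V₂) (r : V₂), r ≠ w.2 → u a w * (Rr u b r * Rr u a r) = 0 := by
    intro w r hr
    unfold Rr
    rw [Finset.sum_mul_sum, Finset.mul_sum]
    refine Finset.sum_eq_zero fun s _ => ?_
    rw [Finset.mul_sum]
    refine Finset.sum_eq_zero fun s' _ => ?_
    by_cases hs : s = w.1
    · subst hs
      by_cases hs' : s' = w.1
      · subst hs'
        rw [hu.col_orth hab.ne', mul_zero]
      · have := claim w (s', r) (Ne.symm hs') (Ne.symm hr)
        rw [← mul_assoc]; exact this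
    · have h1 : ¬ (G₁ □ G₂).Adj w (s, r) := by
        rw [boxProd_adj]
        rintro (h2 | h2)
        · exact hr h2.2.symm
        · exact hs h2.2.symm
      rw [← mul_assoc, hu.zero_of_adj hab h1, zero_mul]
  have claim2 : ∀ (w : V₁ × V₂) (r : V₂), r ≠ w.2 → u a w * (Rr u b w.2 * Rr u a r) = 0 := by
    intro w r hr
    unfold Rr
    rw [Finset.sum_mul_sum, Finset.mul_sum]
    refine Finset.sum_eq_zero fun s _ => ?_
    rw [Finset.mul_sum]
    refine Finset.sum_eq_zero fun s' _ => ?_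
    by_cases hs : s = s'
    · subst hs
      by_cases hs' : s = w.1
      · subst hs'
        rw [← mul_assoc, hu.col_orth hab.ne, zero_mul]
      · have hwy : w ≠ (s, r) := fun h1 => hs' (congrArg Prod.fst h1).symm
        have h1 : ∑ m, u a w * u b m * u a (s, r) = 0 := by
          rw [← Finset.sum_mul, ← Finset.mul_sum, hu.row, mul_one]
          exact hu.row_orth hwy
        have hne : (s, w.2) ≠ (w.1, r) := fun h1 => hs' (congrArg Prod.fst h1)
        have h2 : u a w * u b (s, w.2) * u a (s, r) + u a w * u b (w.1, r) * u a (s, r) = 0 := by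
          rw [← Finset.sum_pair (f := fun m => u a w * u b m * u a (s, r)) hne, ← h1]
          apply Finset.sum_subset (Finset.subset_univ _)
          rintro ⟨m1, m2⟩ _ hm
          by_contra h3
          apply hm
          have h4 : (G₁ □ G₂).Adj w (m1, m2) := by
            by_contra h4
            apply h3
            rw [hu.zero_of_adj hab h4, zero_mul]
          have h5 : (G₁ □ G₂).Adj (m1, m2) (s, r) := by
            by_contra h4
            apply h3
            rw [mul_assoc, hu.zero_of_adj hab.symm h4, mul_zero]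
          rw [boxProd_adj] at h4 h5
          simp only at h4 h5
          simp only [Finset.mem_insert, Finset.mem_singleton, Prod.mk.injEq]
          rcases h4 with h4 | h4 <;> rcases h5 with h5 | h5
          · exact absurd (h4.2.trans h5.2).symm hr
          · exact Or.inl ⟨h5.2, h4.2.symm⟩
          · exact Or.inr ⟨h4.2.symm, h5.2⟩
          · exact absurd (h4.2.trans h5.2).symm hs'
        rw [claim w (s, r) (Ne.symm hs') (Ne.symm hr), add_zero] at h2
        rw [← mul_assoc]; exact h2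
    · have h1 : ¬ (G₁ □ G₂).Adj (s, w.2) (s', r) := by
        rw [boxProd_adj]
        rintro (h2 | h2)
        · exact hr h2.2.symm
        · exact hs h2.2
      rw [hu.zero_of_adj hab.symm h1, mul_zero]
  have key : ∀ w, u a w * hh u a b = u a w * hh u b a := by
    intro w
    have e1 : u a w * hh u a b = u a w * Rr u b w.2 := by
      have h1 : u a w = u a w * Rr u a w.2 := by rw [hu.u_mul_Rr]; simp
      calc u a w * hh u a b = u a w * Rr u a w.2 * hh u a b := by rw [← h1]
        _ = u a w * Rr u a w.2 * Rr u b w.2 := by rw [mul_assoc, hu.Rr_mul_hh, mul_assoc]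
        _ = u a w * Rr u b w.2 := by rw [← h1]
    have e2 : u a w * hh u b a = u a w * (Rr u b w.2 * Rr u a w.2) := by
      conv_lhs => rw [hh]
      rw [Finset.mul_sum, Finset.sum_eq_single w.2]
      · intro r _ hr
        exact claim1 w r hr
      · simp
    have e3 : u a w * Rr u b w.2 = u a w * (Rr u b w.2 * Rr u a w.2) := by
      calc u a w * Rr u b w.2 = ∑ r, u a w * (Rr u b w.2 * Rr u a r) := by
            rw [← Finset.mul_sum, ← Finset.mul_sum, hu.sum_Rr, mul_one]
        _ = u a w * (Rr u b w.2 * Rr u a w.2) := by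
            rw [Finset.sum_eq_single w.2]
            · intro r _ hr
              exact claim2 w r hr
            · simp
    rw [e1, e2, e3]
  calc hh u a b = ∑ w, u a w * hh u a b := by rw [← Finset.sum_mul, hu.row, one_mul]
    _ = ∑ w, u a w * hh u b a := Finset.sum_congr rfl fun w _ => key w
    _ = hh u b a := by rw [← Finset.sum_mul, hu.row, one_mul]

variable (hφ : Mat G φ) (h3 : ∀ z, Tw G u z (φ z))
include hφ

/-- the elements `T` -/
theorem T_neg {s al : V₁} {t be : V₂} (hs : G₁.Adj s al) (ht : G₂.Adj t be) :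
    Dq u φ (s, be) (s, t) (al, t) = - Dq u φ (s, t) (s, be) (al, be) :=
  Dq_neg hu hφ (dia_mixed hs ht).flip (dia_mixed hs ht.symm)

include h3

/-- (10) -/
theorem move {s al : V₁} {t be ga : V₂} (hs : G₁.Adj s al) (ht : G₂.Adj t be)
    (hD : Dq u φ (s, t) (s, be) (al, be) ≠ 0) (hq : G₂.Adj t ga) (hne : ga ≠ be) :
    ∃ de, G₂.Adj ga de ∧ G₂.Adj be de ∧ de ≠ t ∧
      Dq u φ (s, ga) (s, de) (al, de) = Dq u φ (s, t) (s, be) (al, be) := by
  classical
  have k1 : kq u φ (s, t) (s, be) ≠ 0 := by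
    intro h
    apply hD
    unfold Dq
    rw [h, zero_mul]
  have k2 : kq u φ (s, be) (s, t) ≠ 0 := by
    intro h
    apply k1
    rw [← star_kq hu hφ, h, star_zero]
  have c1 : cn G₂ ga be = 2 := by
    rw [← cn_layer (G₁ := G₁) s hne]
    refine good hu h3 k1 ?_ ?_
    · rw [boxProd_adj]; exact Or.inr ⟨hq, rfl⟩
    · intro h; exact hne (congrArg Prod.snd h)
  obtain ⟨de, d1⟩ := dia_of_cn hne c1 hq.symm ht
  have c2 : cn G₂ t de = 2 := by
    rw [cn_symm, ← cn_layer (G₁ := G₁) s d1.bd.symm]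
    refine good hu h3 k2 ?_ ?_
    · rw [boxProd_adj]; exact Or.inr ⟨d1.dc.symm, rfl⟩
    · intro h; exact d1.bd (congrArg Prod.snd h).symm
  obtain ⟨x, d2⟩ := dia_of_cn d1.bd c2 ht d1.dc.symm
  have hx : x = ga := by
    rcases (d2.iff ga).1 ⟨hq, d1.ad⟩ with h5 | h5
    · exact absurd h5 hne
    · exact h5.symm
  subst hx
  refine ⟨de, d1.ad, d1.dc.symm, d1.bd.symm, ?_⟩
  exact cube hu hφ (w := (s, t)) (wi := (s, be)) (wj := (al, t)) (wl := (s, x)) (wij := (al, be))
    (wil := (s, de)) (wjl := (al, x)) (wijl := (al, de))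
    (dia_mixed hs ht).flip (dia_mixed hs d1.ad).flip (dia_layer s d2) (dia_layer al d2)
    (dia_mixed hs hq) (dia_mixed hs d1.dc.symm)

/-- (11) -/
theorem exists_K2 (hG₂ : G₂.Connected) {s al : V₁} {t₀ be₀ : V₂} (hs : G₁.Adj s al)
    (ht : G₂.Adj t₀ be₀) (hD : Dq u φ (s, t₀) (s, be₀) (al, be₀) ≠ 0) :
    ∃ (ψ : V₂ → V₂) (c : V₂ → Prop), IsK2 G₂ ψ c ∧ ψ t₀ = be₀ := by
  set D₀ := Dq u φ (s, t₀) (s, be₀) (al, be₀) with hD₀
  have hneg : D₀ ≠ - D₀ := by
    intro h
    apply hD
    apply freal_two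
    nth_rewrite 1 [h]
    exact neg_add_cancel _
  refine isK2_of_rel hG₂ (fun t t' => G₂.Adj t t' ∧ Dq u φ (s, t) (s, t') (al, t') = D₀)
    (fun h => h.1) ?_ ?_ ?_ ?_ ?_ ⟨ht, rfl⟩
  · rintro x x' y ⟨p1, p2⟩ hxy hne
    obtain ⟨de, e1, e2, e3, e4⟩ := move hu hφ h3 hs p1 (by rw [p2]; exact hD) hxy hne
    exact ⟨de, ⟨e1, by rw [e4, p2]⟩, e2, e3⟩
  · rintro x x' y ⟨p1, p2⟩ hxy hne
    have p3 : Dq u φ (s, x) (s, x') (al, x') = - D₀ := by
      rw [T_neg hu hφ hs p1, p2]
    obtain ⟨de, e1, e2, e3, e4⟩ := move hu hφ h3 hs p1.symm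
      (by rw [p3]; exact neg_ne_zero.2 hD) hxy hne
    refine ⟨de, ⟨e1.symm, ?_⟩, e2⟩
    rw [T_neg hu hφ hs e1, e4, p3, neg_neg]
  · rintro x y z ⟨p1, p2⟩ ⟨q1, q2⟩
    have := Dq_unique hu hφ (w := (s, x)) (x := (s, y)) (y := (al, y)) (x₂ := (s, z))
      (y₂ := (al, z)) (by rw [p2]; exact hD) (Or.inl (by rw [p2, q2]))
    exact congrArg Prod.snd this
  · rintro x y z ⟨p1, p2⟩ ⟨q1, q2⟩
    have p3 : Dq u φ (s, x) (s, y) (al, y) = - D₀ := by rw [T_neg hu hφ hs p1, p2]
    have q3 : Dq u φ (s, x) (s, z) (al, z) = - D₀ := by rw [T_neg hu hφ hs q1, q2]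
    have := Dq_unique hu hφ (w := (s, x)) (x := (s, y)) (y := (al, y)) (x₂ := (s, z))
      (y₂ := (al, z)) (by rw [p3]; exact neg_ne_zero.2 hD) (Or.inl (by rw [p3, q3]))
    exact congrArg Prod.snd this
  · rintro x y z ⟨p1, p2⟩ ⟨q1, q2⟩
    have q3 : Dq u φ (s, x) (s, z) (al, z) = - D₀ := by rw [T_neg hu hφ hs q1, q2]
    have := Dq_unique hu hφ (w := (s, x)) (x := (s, y)) (y := (al, y)) (x₂ := (s, z))
      (y₂ := (al, z)) (by rw [p2]; exact hD) (Or.inr (by rw [p2, q3]))
    have hyz : y = z := congrArg Prod.snd this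
    subst hyz
    rw [p2] at q3
    exact hneg q3

end

/-- formula (E) -/
theorem FK_ne {W : Type*} [Fintype W] {H : SimpleGraph W} {u : V → W → A} (hu : QI G H u)
    {φ' : W → W} {c' : W → Prop} (hK : IsK2 H φ' c') {a b : V} (hab : G.Adj a b) {w : W}
    (h : u a w * u b (φ' w) ≠ 0) : FK u c' a ≠ FK u c' b := by
  classical
  intro he
  apply h
  have e1 : u a w * FK u c' a = sg c' w • u a w := by
    unfold FK
    rw [Finset.mul_sum, Finset.sum_eq_single w]
    · rw [mul_smul_comm, hu.mul_self]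
    · intro y _ hy
      rw [mul_smul_comm, hu.row_orth hy.symm, smul_zero]
    · simp
  have e2 : u a w * FK u c' b = sg c' w • u a w -
      (sg c' w • (u a w * u b (φ' w)) + sg c' w • (u a w * u b (φ' w))) := by
    have e3 : u a w * FK u c' b = ∑ x, (sg c' w • (u a w * u b x) -
        if x = φ' w then (sg c' w • (u a w * u b (φ' w)) + sg c' w • (u a w * u b (φ' w))) else 0) := by
      unfold FK
      rw [Finset.mul_sum]
      refine Finset.sum_congr rfl fun x _ => ?_
      rw [mul_smul_comm]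
      by_cases hx : x = φ' w
      · subst hx
        rw [if_pos rfl]
        have hc := (hK.col _ _ (hK.move w)).2 rfl
        have hs : sg c' (φ' w) = - sg c' w := by
          unfold sg
          by_cases h1 : c' w <;> by_cases h2 : c' (φ' w) <;> simp_all
        rw [hs, neg_smul]
        abel
      · rw [if_neg hx, sub_zero]
        by_cases hwx : H.Adj w x
        · have hc : c' w ↔ c' x := by
            by_contra h1
            exact hx ((hK.col _ _ hwx).1 h1)
          have hs : sg c' x = sg c' w := by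
            unfold sg
            by_cases h1 : c' w
            · rw [if_pos h1, if_pos (hc.1 h1)]
            · rw [if_neg h1, if_neg (fun h2 => h1 (hc.2 h2))]
          rw [hs]
        · rw [hu.zero_of_adj hab hwx, smul_zero, smul_zero]
    rw [e3, Finset.sum_sub_distrib, ← Finset.smul_sum, ← Finset.mul_sum, hu.row, mul_one]
    simp
  rw [he, e2] at e1
  have e4 : sg c' w • (u a w * u b (φ' w)) + sg c' w • (u a w * u b (φ' w)) = 0 := by
    have := sub_eq_self.1 e1
    exact this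
  have e5 := freal_two e4
  unfold sg at e5
  split_ifs at e5 with h1
  · simpa using e5
  · simpa using e5

/-- module PHI -/
theorem stPhi (hK : StLemK) : StPhi := by
  intro V V₁ V₂ A _ _ _ _ _ _ G G₁ G₂ u hu hG hH hN φ hinv hadj htw
  have hφ : Mat G φ := mat_of_tw hu hinv hadj htw
  obtain ⟨a⟩ := hG.nonempty
  obtain ⟨w, y, h1, h2, h3⟩ := exists_mixed hu (htw a)
  have hD : Dq u φ (w.1, w.2) (w.1, y.2) (y.1, y.2) ≠ 0 := by
    intro h
    apply h3
    have := u_mul_Dq hu hφ a w (w.1, y.2) y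
    rw [← this]
    have h' : Dq u φ w (w.1, y.2) y = 0 := h
    rw [h', mul_zero]
  obtain ⟨ψ, c, hψ, hψ0⟩ := exists_K2 hu hφ htw (connected_boxProd.1 hH).2 h1 h2 hD
  have hL : IsK2 (G₁ □ G₂) (fun p => (p.1, ψ p.2)) (fun p => c p.2) := K2_lift hψ
  have hne : u a w * u (φ a) ((fun p : V₁ × V₂ => (p.1, ψ p.2)) w) ≠ 0 := by
    intro h
    apply h3
    have : ((fun p : V₁ × V₂ => (p.1, ψ p.2)) w) = (w.1, y.2) := by simp [hψ0]
    rw [this] at h
    rw [h, zero_mul]
  have hF := FK_ne hu hL (htw a).1 hne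
  obtain ⟨θ, d, hθ, hθa, _, _⟩ := hK V (V₁ × V₂) A G (G₁ □ G₂) u _ _ hu hL hG a (φ a) (htw a).1 hF
  apply hN θ d hθ a
  rw [hθa]
  exact htw a

end Phi5

/-- module PHI -/
theorem stPhi (hK : StLemK) : StPhi := Phi5.stPhi hK

end QSym
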