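import Pool.Agent.Lib.MP_a717c1_al.DQ.Defs2

/-!
# Module PHI, first part: the elements `k` of a matching automorphism
-/

set_option linter.unusedSectionVars false
set_option linter.unusedDecidableInType false

namespace QSym

open Finset SimpleGraph

namespace Phi5

variable {V W A : Type*} [Fintype V] [Fintype W] [Ring A] [StarRing A] [FReal A]
variable {G : SimpleGraph V} {H : SimpleGraph W} {u : V → W → A} {φ : V → V}

/-- the elements `k` -/
def kq (u : V → W → A) (φ : V → V) (w x : W) : A := ∑ z, u z w * u (φ z) x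

/-- the elements `D` -/
def Dq (u : V → W → A) (φ : V → V) (w x y : W) : A := kq u φ w x * kq u φ x y

/-- the hypotheses on `φ` -/
structure Mat (G : SimpleGraph V) (φ : V → V) : Prop where
  inv : ∀ x, φ (φ x) = x
  move : ∀ x, G.Adj x (φ x)
  adj : ∀ x y, G.Adj x y → G.Adj (φ x) (φ y)
  dia : ∀ x y, G.Adj x y → y ≠ φ x → Dia G x (φ x) (φ y) y

section

variable (hu : QI G H u) (hφ : Mat G φ)
include hu

theorem u_mul_kq (z : V) (w x : W) : u z w * kq u φ w x = u z w * u (φ z) x := by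
  classical
  unfold kq
  rw [Finset.mul_sum, Finset.sum_eq_single z]
  · rw [← mul_assoc, hu.mul_self]
  · intro m _ hm
    rw [← mul_assoc, hu.col_orth hm.symm, zero_mul]
  · simp

include hφ

theorem inj {x y : V} (h : φ x = φ y) : x = y := by rw [← hφ.inv x, h, hφ.inv]

theorem kq_mul_u (z : V) (w x : W) : kq u φ w x * u (φ z) x = u z w * u (φ z) x := by
  classical
  unfold kq
  rw [Finset.sum_mul, Finset.sum_eq_single z]
  · rw [mul_assoc, hu.mul_self]
  · intro m _ hm
    rw [mul_assoc, hu.col_orth (fun h => hm (inj hu hφ h)), mul_zero]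
  · simp

theorem kq_mul_u' (z : V) (w x : W) : kq u φ w x * u z x = u (φ z) w * u z x := by
  have := kq_mul_u hu hφ (φ z) w x
  rwa [hφ.inv] at this

theorem sum_phi {M : Type*} [AddCommMonoid M] (f : V → M) : ∑ z, f (φ z) = ∑ z, f z :=
  Fintype.sum_equiv ⟨φ, φ, hφ.inv, hφ.inv⟩ _ _ (fun _ => rfl)

theorem star_kq (w x : W) : star (kq u φ w x) = kq u φ x w := by
  unfold kq
  rw [star_sum, ← sum_phi hu hφ]
  refine Finset.sum_congr rfl fun z _ => ?_
  rw [star_mul, hu.star_eq, hu.star_eq, hφ.inv]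

theorem kq_zero {w x : W} (h : ¬ H.Adj w x) : kq u φ w x = 0 :=
  Finset.sum_eq_zero fun z _ => hu.zero_of_adj (hφ.move z) h

theorem Dq_eq (w x y : W) : Dq u φ w x y = ∑ z, u z w * u (φ z) x * u z y := by
  unfold Dq
  conv_lhs => rw [kq]
  rw [Finset.sum_mul]
  refine Finset.sum_congr rfl fun z _ => ?_
  rw [mul_assoc, u_mul_kq hu, hφ.inv, mul_assoc]

theorem star_Dq (w x y : W) : star (Dq u φ w x y) = Dq u φ y x w := by
  unfold Dq
  rw [star_mul, star_kq hu hφ, star_kq hu hφ]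

theorem u_mul_Dq (z : V) (w x y : W) : u z w * Dq u φ w x y = u z w * u (φ z) x * u z y := by
  unfold Dq
  rw [← mul_assoc, u_mul_kq hu, mul_assoc, u_mul_kq hu, hφ.inv, mul_assoc]

theorem Dq_mul_u (z : V) (w x y : W) : Dq u φ w x y * u z y = u z w * u (φ z) x * u z y := by
  unfold Dq
  rw [mul_assoc, kq_mul_u' hu hφ, ← mul_assoc, kq_mul_u hu hφ]

/-- (3) -/
theorem Dq_flip {w x y x' : W} (h : Dia H w x y x') : Dq u φ w x' y = - Dq u φ w x y := by
  classical
  rw [eq_neg_iff_add_eq_zero, Dq_eq hu hφ, Dq_eq hu hφ, ← Finset.sum_add_distrib]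
  refine Finset.sum_eq_zero fun z _ => ?_
  have h1 : ∑ m, u z w * u (φ z) m * u z y = 0 := by
    rw [← Finset.sum_mul, ← Finset.mul_sum, hu.row, mul_one]
    exact hu.row_orth h.ac
  rw [← Finset.sum_pair (f := fun m => u z w * u (φ z) m * u z y) h.bd.symm, ← h1]
  apply Finset.sum_subset (Finset.subset_univ _)
  intro m _ hm
  have hm2 : ¬ (H.Adj w m ∧ H.Adj m y) := by
    rw [h.iff]
    simp only [Finset.mem_insert, Finset.mem_singleton] at hm
    tauto
  by_cases h2 : H.Adj w m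
  · rw [mul_assoc, hu.zero_of_adj (hφ.move z).symm (fun h3 => hm2 ⟨h2, h3⟩), mul_zero]
  · rw [hu.zero_of_adj (hφ.move z) h2, zero_mul]

/-- the key identity of (4) -/
theorem key4 {w x y x' : W} (h : Dia H w x y x') {z z' : V} (hz : G.Adj (φ z) z') (hne : z' ≠ z) :
    u z w * u (φ z) x * u z' y = u z w * u (φ z') x' * u z' y := by
  classical
  have hzz : G.Adj z (φ z') := by
    have := hφ.adj _ _ hz
    rwa [hφ.inv] at this
  have hd : Dia G z (φ z) z' (φ z') := by
    have := hφ.dia z (φ z') hzz (fun h1 => hne (inj hu hφ h1))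
    rwa [hφ.inv] at this
  have e1 : u z w * u (φ z) x * u z' y + u z w * u (φ z') x * u z' y = u z w * u z' y := by
    have h1 : ∑ m, u z w * u m x * u z' y = u z w * u z' y := by
      rw [← Finset.sum_mul, ← Finset.mul_sum, hu.col, mul_one]
    rw [← h1, ← Finset.sum_pair (f := fun m => u z w * u m x * u z' y) hd.bd]
    apply Finset.sum_subset (Finset.subset_univ _)
    intro m _ hm
    have hm2 : ¬ (G.Adj z m ∧ G.Adj m z') := by
      rw [hd.iff]
      simp only [Finset.mem_insert, Finset.mem_singleton] at hm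
      tauto
    by_cases h2 : G.Adj z m
    · rw [mul_assoc, hu.zero_of_not_adj (fun h3 => hm2 ⟨h2, h3⟩) h.bc, mul_zero]
    · rw [hu.zero_of_not_adj h2 h.ab, zero_mul]
  have e2 : u z w * u (φ z') x * u z' y + u z w * u (φ z') x' * u z' y = u z w * u z' y := by
    have h1 : ∑ m, u z w * u (φ z') m * u z' y = u z w * u z' y := by
      rw [← Finset.sum_mul, ← Finset.mul_sum, hu.row, mul_one]
    rw [← h1, ← Finset.sum_pair (f := fun m => u z w * u (φ z') m * u z' y) h.bd]
    apply Finset.sum_subset (Finset.subset_univ _)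
    intro m _ hm
    have hm2 : ¬ (H.Adj w m ∧ H.Adj m y) := by
      rw [h.iff]
      simp only [Finset.mem_insert, Finset.mem_singleton] at hm
      tauto
    by_cases h2 : H.Adj w m
    · rw [mul_assoc, hu.zero_of_adj (hφ.move z').symm (fun h3 => hm2 ⟨h2, h3⟩), mul_zero]
    · rw [hu.zero_of_adj hzz h2, zero_mul]
  have e3 : u z w * u (φ z) x * u z' y + u z w * u (φ z') x * u z' y =
      u z w * u (φ z') x' * u z' y + u z w * u (φ z') x * u z' y := by
    rw [e1, add_comm, e2]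
  exact add_right_cancel e3

/-- (4) -/
theorem four {w x y x' : W} (h : Dia H w x y x') :
    kq u φ w x - kq u φ x' y = Dq u φ w x y + Dq u φ w x y := by
  classical
  have e1 : kq u φ w x = ∑ z, ∑ z', u z w * u (φ z) x * u z' y := by
    unfold kq
    refine Finset.sum_congr rfl fun z _ => ?_
    rw [← Finset.mul_sum, hu.col, mul_one]
  have e2 : kq u φ x' y = ∑ z, ∑ z', u z w * u (φ z') x' * u z' y := by
    rw [Finset.sum_comm]
    unfold kq
    rw [← sum_phi hu hφ]
    refine Finset.sum_congr rfl fun z _ => ?_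
    rw [hφ.inv, ← Finset.sum_mul, ← Finset.sum_mul, hu.col, one_mul]
  have e3 : Dq u φ w x y + Dq u φ w x y = Dq u φ w x y - Dq u φ w x' y := by
    rw [Dq_flip hu hφ h]; abel
  rw [e1, e2, e3, Dq_eq hu hφ, Dq_eq hu hφ, ← Finset.sum_sub_distrib, ← Finset.sum_sub_distrib]
  refine Finset.sum_congr rfl fun z _ => ?_
  rw [← Finset.sum_sub_distrib, Finset.sum_eq_single z]
  · intro z' _ hne
    by_cases hz : G.Adj (φ z) z'
    · rw [key4 hu hφ h hz hne, sub_self]
    · have h1 : u (φ z) x * u z' y = 0 := hu.zero_of_not_adj hz h.bc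
      have h2 : u z w * u (φ z') x' = 0 := by
        refine hu.zero_of_not_adj (fun h3 => hz ?_) h.ad
        have := hφ.adj _ _ h3
        rwa [hφ.inv] at this
      rw [mul_assoc, h1, mul_zero, h2, zero_mul, sub_zero]
  · simp

/-- (5), rotation -/
theorem Dq_rot {w x y x' : W} (h : Dia H w x y x') (h' : Dia H x y x' w) :
    Dq u φ x y x' = Dq u φ w x y := by
  have e1 := four hu hφ h.rev
  have e2 := congrArg star e1
  rw [star_sub, star_add, star_kq hu hφ, star_kq hu hφ, star_Dq hu hφ] at e2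
  have e3 := four hu hφ h'
  exact freal_two' (e3.symm.trans e2)

theorem Dq_rot2 {w x y x' : W} (h : Dia H w x y x') (h' : Dia H x y x' w) :
    Dq u φ y x' w = Dq u φ w x y := by
  rw [Dq_rot hu hφ h' h.rev.flip, Dq_rot hu hφ h h']

theorem Dq_rot3 {w x y x' : W} (h : Dia H w x y x') (h' : Dia H x y x' w) :
    Dq u φ x' w x = Dq u φ w x y := by
  rw [Dq_rot hu hφ h.rev.flip h'.rev.flip, Dq_rot2 hu hφ h h']

/-- the other orientation -/
theorem Dq_neg {w x y x' : W} (h : Dia H w x y x') (h' : Dia H x y x' w) :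
    Dq u φ x w x' = - Dq u φ w x y := by
  rw [Dq_flip hu hφ h', Dq_rot hu hφ h h']

/-- uniqueness -/
theorem Dq_unique {w x y x₂ y₂ : W} (hD : Dq u φ w x y ≠ 0)
    (he : Dq u φ w x₂ y₂ = Dq u φ w x y ∨ Dq u φ w x₂ y₂ = - Dq u φ w x y) : y = y₂ := by
  by_contra hne
  apply hD
  have key : ∀ z, Dq u φ w x y * u z y = Dq u φ w x y * u z y₂ := by
    intro z
    have a1 : Dq u φ w x y * u z y = u z w * Dq u φ w x y := by
      rw [Dq_mul_u hu hφ, u_mul_Dq hu hφ]
    have a2 : Dq u φ w x₂ y₂ * u z y₂ = u z w * Dq u φ w x₂ y₂ := by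
      rw [Dq_mul_u hu hφ, u_mul_Dq hu hφ]
    rcases he with he | he
    · rw [a1, ← he, ← a2]
    · rw [he, neg_mul, mul_neg, neg_inj] at a2
      rw [a1, ← a2]
  calc Dq u φ w x y = ∑ z, Dq u φ w x y * u z y := by rw [← Finset.mul_sum, hu.col, mul_one]
    _ = 0 := by
      refine Finset.sum_eq_zero fun z _ => ?_
      rw [← hu.mul_self z y, ← mul_assoc, key, mul_assoc, hu.row_orth (Ne.symm hne), mul_zero]

/-- (6), the cube lemma -/
theorem cube {w wi wj wl wij wil wjl wijl : W}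
    (a1 : Dia H w wi wij wj) (a2 : Dia H wl wil wijl wjl)
    (b1 : Dia H w wi wil wl) (b2 : Dia H wj wij wijl wjl)
    (c1 : Dia H w wj wjl wl) (c2 : Dia H wi wij wijl wil) :
    Dq u φ wl wil wijl = Dq u φ w wi wij := by
  have A1 := four hu hφ a1
  have A1' := four hu hφ a1.flip
  have A2 := four hu hφ a2
  have A2' := four hu hφ a2.flip
  have B1 := four hu hφ b1
  have B1' := four hu hφ b1.flip
  have B2 := four hu hφ b2
  have B2' := four hu hφ b2.flip
  have C1 := four hu hφ c1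
  have C1' := four hu hφ c1.flip
  have C2 := four hu hφ c2
  have C2' := four hu hφ c2.flip
  rw [Dq_flip hu hφ a1] at A1'
  rw [Dq_flip hu hφ a2] at A2'
  rw [Dq_flip hu hφ b1] at B1'
  rw [Dq_flip hu hφ b2] at B2'
  rw [Dq_flip hu hφ c1] at C1'
  rw [Dq_flip hu hφ c2] at C2'
  have key : ∀ p q p2 q2 p3 q3 e1 e2 e3 e4 f1 f2 f3 f4 g1 g2 g3 g4 : A,
      e1 - e2 = p + p → f1 - f2 = -p + -p → e3 - e4 = q + q → f3 - f4 = -q + -q →
      e1 - e3 = p2 + p2 → g1 - g2 = -p2 + -p2 → e2 - e4 = q2 + q2 → g3 - g4 = -q2 + -q2 →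
      f1 - f3 = p3 + p3 → g1 - g3 = -p3 + -p3 → f2 - f4 = q3 + q3 → g2 - g4 = -q3 + -q3 →
      q = p := by
    intro p q p2 q2 p3 q3 e1 e2 e3 e4 f1 f2 f3 f4 g1 g2 g3 g4 h1 h2 h3 h4 h5 h6 h7 h8 h9 h10 h11 h12
    have s1 : (p + p) - (q + q) = (p2 + p2) - (q2 + q2) := by
      rw [← h1, ← h3, ← h5, ← h7]; abel
    have s2 : (-p + -p) - (-q + -q) = (p3 + p3) - (q3 + q3) := by
      rw [← h2, ← h4, ← h9, ← h11]; abel
    have s3 : (-p2 + -p2) - (-q2 + -q2) = (-p3 + -p3) - (-q3 + -q3) := by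
      rw [← h6, ← h8, ← h10, ← h12]; abel
    have s4 : ((q - p) + (q - p)) + ((q - p) + (q - p)) = 0 := by
      have t1 : (p2 + p2) - (q2 + q2) = (p3 + p3) - (q3 + q3) := by
        have : -((-p2 + -p2) - (-q2 + -q2)) = -((-p3 + -p3) - (-q3 + -q3)) := by rw [s3]
        calc (p2 + p2) - (q2 + q2) = -((-p2 + -p2) - (-q2 + -q2)) := by abel
          _ = -((-p3 + -p3) - (-q3 + -q3)) := this
          _ = _ := by abel
      have t2 : (p + p) - (q + q) = (-p + -p) - (-q + -q) := by rw [s1, s2, t1]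
      calc ((q - p) + (q - p)) + ((q - p) + (q - p))
          = ((-p + -p) - (-q + -q)) - ((p + p) - (q + q)) := by abel
        _ = 0 := by rw [t2, sub_self]
    exact sub_eq_zero.1 (freal_two (freal_two s4))
  exact key _ _ _ _ _ _ _ _ _ _ _ _ _ _ _ _ _ _ A1 A1' A2 A2' B1 B1' B2 B2' C1 C1' C2 C2'

end

end Phi5

end QSym
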