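import Pool.Agent.Lib.MP_a717c1_al.DQ.Defs2

/-!
# Direct squares, module PHI, step (8): a twisted edge gives a mixed square
-/

set_option linter.unusedSectionVars false
set_option linter.unusedDecidableInType false

namespace QSym

open Finset SimpleGraph

variable {V V₁ V₂ : Type*} [Fintype V] [Fintype V₁] [Fintype V₂]
variable {A : Type*} [Ring A] [StarRing A] [FReal A]
variable {G : SimpleGraph V} {G₁ : SimpleGraph V₁} {G₂ : SimpleGraph V₂}
variable {u : V → V₁ × V₂ → A}

/-- (8) -/
theorem QI.ex_mixed52 (hu : QI G (G₁ □ G₂) u) {a b : V} (h : Tw G u a b) :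
    ∃ w y : V₁ × V₂, w.1 ≠ y.1 ∧ w.2 ≠ y.2 ∧ u a w * u b (w.1, y.2) * u a y ≠ 0 := by
  classical
  by_contra hcon
  push Not at hcon
  have e1 : hh u a b * kk u b a = 0 := by
    rw [hu.hh_mul_kk]
    refine Finset.sum_eq_zero fun w _ => Finset.sum_eq_zero fun y _ => ?_
    by_cases h1 : w.1 = y.1
    · have : (y.1, w.2) = w := Prod.ext h1.symm rfl
      rw [this, hu.col_orth h.1.ne, zero_mul]
    · by_cases h2 : w.2 = y.2
      · have : (y.1, w.2) = y := Prod.ext rfl h2
        rw [this, mul_assoc, hu.col_orth h.1.ne.symm, mul_zero]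
      · have h3 := hcon y w (Ne.symm h1) (Ne.symm h2)
        have h4 := congrArg star h3
        rw [star_mul, star_mul, hu.star_eq, hu.star_eq, hu.star_eq, star_zero,
          ← mul_assoc] at h4
        exact h4
  have e2 : kk u b a = 1 - hh u b a := eq_sub_of_add_eq' (hu.hh_add_kk h.1.symm)
  rw [e2, mul_sub, mul_one] at e1
  have e3 : hh u a b = tt u a b := sub_eq_zero.1 e1
  have e4 := congrArg star e3
  rw [hu.star_hh, hu.star_tt] at e4
  exact h.2 (e3.trans e4.symm)

end QSym
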