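import Pool.Agent.Lib.MP_a717c1_al.DQ.Defs

/-!
# Module SKEL: a connected graph whose Cartesian square is quantum invariant for `X × X`

`c0 x y = F(x,y)^2 / (F(x,x) F(y,y))` with `F` the number of common neighbours, `M0` the limit of
the iterated max-products of `c0`, and `x ~ y` if no third vertex lies between them for `M0`.
-/

set_option linter.unusedSectionVars false
set_option linter.unusedDecidableInType false

namespace QSym

open Finset SimpleGraph Filter Topology

namespace Skel

/-! ## Max-products -/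

section step

variable {V : Type*} [Fintype V]

/-- the max-product of a two-point function with itself -/
noncomputable def stp (c : V → V → ℝ) (x y : V) : ℝ := ⨆ m, c x m * c m y

/-- iterated max-products -/
noncomputable def it (c : V → V → ℝ) : ℕ → V → V → ℝ
  | 0 => c
  | k + 1 => stp (it c k)

theorem le_stp (c : V → V → ℝ) (x y m : V) : c x m * c m y ≤ stp c x y :=
  le_ciSup (f := fun m => c x m * c m y) (Set.finite_range _).bddAbove m

theorem stp_le [Nonempty V] {c : V → V → ℝ} {x y : V} {q : ℝ} (h : ∀ m, c x m * c m y ≤ q) :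
    stp c x y ≤ q := ciSup_le h

theorem exists_stp [Nonempty V] (c : V → V → ℝ) (x y : V) : ∃ m, c x m * c m y = stp c x y :=
  exists_eq_ciSup_of_finite

/-- the properties of the two-point functions -/
structure Good (c : V → V → ℝ) : Prop where
  nn : ∀ x y, 0 ≤ c x y
  one : ∀ x y, c x y ≤ 1
  self : ∀ x, c x x = 1
  symm : ∀ x y, c x y = c y x

theorem Good.stp {c : V → V → ℝ} (h : Good c) : Good (stp c) where
  nn x y := by
    have : Nonempty V := ⟨x⟩
    exact (mul_nonneg (h.nn x x) (h.nn x y)).trans (le_stp c x y x)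
  one x y := by
    have : Nonempty V := ⟨x⟩
    exact stp_le fun m => mul_le_one₀ (h.one _ _) (h.nn _ _) (h.one _ _)
  self x := by
    have : Nonempty V := ⟨x⟩
    refine le_antisymm (stp_le fun m => mul_le_one₀ (h.one _ _) (h.nn _ _) (h.one _ _)) ?_
    have := le_stp c x x x
    rwa [h.self, one_mul] at this
  symm x y := by
    unfold Skel.stp
    congr 1
    funext m
    rw [h.symm x m, h.symm m y, mul_comm]

theorem Good.it {c : V → V → ℝ} (h : Good c) : ∀ k, Good (it c k)
  | 0 => h
  | k + 1 => (h.it k).stp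

theorem Good.le_stp {c : V → V → ℝ} (h : Good c) (x y : V) : c x y ≤ Skel.stp c x y := by
  have := Skel.le_stp c x y x
  rwa [h.self, one_mul] at this

theorem Good.mono {c : V → V → ℝ} (h : Good c) (x y : V) : Monotone (fun k => Skel.it c k x y) :=
  monotone_nat_of_le_succ fun k => (h.it k).le_stp x y

theorem Good.bdd {c : V → V → ℝ} (h : Good c) (x y : V) :
    BddAbove (Set.range fun k => Skel.it c k x y) :=
  ⟨1, by rintro _ ⟨k, rfl⟩; exact (h.it k).one x y⟩

/-- the limit of the iterated max-products -/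
noncomputable def MM0 (c : V → V → ℝ) (x y : V) : ℝ := ⨆ k, it c k x y

theorem Good.tendsto {c : V → V → ℝ} (h : Good c) (x y : V) :
    Tendsto (fun k => Skel.it c k x y) atTop (𝓝 (MM0 c x y)) :=
  tendsto_atTop_ciSup (h.mono x y) (h.bdd x y)

theorem Good.le_MM0 {c : V → V → ℝ} (h : Good c) (x y : V) (k : ℕ) :
    Skel.it c k x y ≤ MM0 c x y := le_ciSup (h.bdd x y) k

theorem Good.MM0 {c : V → V → ℝ} (h : Good c) : Good (MM0 c) where
  nn x y := ((h.it 0).nn x y).trans (h.le_MM0 x y 0)
  one x y := ciSup_le fun k => (h.it k).one x y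
  self x := by
    refine le_antisymm (ciSup_le fun k => (h.it k).one x x) ?_
    have := h.le_MM0 x x 0
    rwa [(h.it 0).self] at this
  symm x y := by
    unfold Skel.MM0
    congr 1
    funext k
    exact (h.it k).symm x y

theorem Good.tri {c : V → V → ℝ} (h : Good c) (x m y : V) :
    Skel.MM0 c x m * Skel.MM0 c m y ≤ Skel.MM0 c x y := by
  have h1 : Tendsto (fun k => Skel.it c k x m * Skel.it c k m y) atTop
      (𝓝 (Skel.MM0 c x m * Skel.MM0 c m y)) := (h.tendsto x m).mul (h.tendsto m y)
  refine le_of_tendsto h1 (Eventually.of_forall fun k => ?_)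
  exact (Skel.le_stp (Skel.it c k) x y m).trans (h.le_MM0 x y (k + 1))

theorem Good.it_le {c : V → V → ℝ} (h : Good c) {q : ℝ} (hq : q ≤ 1) (hc : ∀ x y, x ≠ y → c x y ≤ q) :
    ∀ k x y, x ≠ y → Skel.it c k x y ≤ q
  | 0, x, y, hxy => hc x y hxy
  | k + 1, x, y, hxy => by
    have : Nonempty V := ⟨x⟩
    refine stp_le fun m => ?_
    by_cases h1 : m = x
    · subst h1
      rw [(h.it k).self, one_mul]
      exact h.it_le hq hc k _ _ hxy
    · have h2 := h.it_le hq hc k x m (fun h => h1 h.symm)
      calc Skel.it c k x m * Skel.it c k m y ≤ Skel.it c k x m * 1 :=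
            mul_le_mul_of_nonneg_left ((h.it k).one _ _) ((h.it k).nn _ _)
        _ ≤ q := by rw [mul_one]; exact h2

theorem Good.lt_one {c : V → V → ℝ} (h : Good c) (hc : ∀ x y, x ≠ y → c x y < 1) {x y : V}
    (hxy : x ≠ y) : Skel.MM0 c x y < 1 := by
  classical
  -- the largest value off the diagonal
  have hne : (univ.filter (fun p : V × V => p.1 ≠ p.2)).Nonempty := ⟨(x, y), by simp [hxy]⟩
  obtain ⟨p, hp, hmax⟩ := Finset.exists_max_image _ (fun p : V × V => c p.1 p.2) hne
  have hp' : p.1 ≠ p.2 := by simpa using hp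
  have hle : ∀ k a b, a ≠ b → Skel.it c k a b ≤ c p.1 p.2 :=
    h.it_le (hc _ _ hp').le (fun a b hab => hmax (a, b) (by simp [hab]))
  exact lt_of_le_of_lt (ciSup_le fun k => hle k x y hxy) (hc _ _ hp')

/-- the product of two two-point functions on the square -/
def sqr (c : V → V → ℝ) (z z' : V × V) : ℝ := c z.1 z'.1 * c z.2 z'.2

theorem stp_sqr {c : V → V → ℝ} (hn : ∀ x y, 0 ≤ c x y) : stp (sqr c) = sqr (stp c) := by
  funext z z'
  have : Nonempty V := ⟨z.1⟩
  have : Nonempty (V × V) := ⟨z⟩
  apply le_antisymm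
  · refine stp_le fun m => ?_
    have e : sqr c z m * sqr c m z' = (c z.1 m.1 * c m.1 z'.1) * (c z.2 m.2 * c m.2 z'.2) := by
      unfold sqr; ring
    rw [e]
    exact mul_le_mul (le_stp c _ _ _) (le_stp c _ _ _) (mul_nonneg (hn _ _) (hn _ _))
      ((mul_nonneg (hn z.1 z.1) (hn z.1 z'.1)).trans (le_stp c _ _ _))
  · obtain ⟨m1, h1⟩ := exists_stp c z.1 z'.1
    obtain ⟨m2, h2⟩ := exists_stp c z.2 z'.2
    have e : sqr (stp c) z z' = sqr c z (m1, m2) * sqr c (m1, m2) z' := by
      unfold sqr
      rw [← h1, ← h2]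
      ring
    rw [e]
    exact le_stp _ _ _ _

theorem it_sqr {c : V → V → ℝ} (h : Good c) : ∀ k, it (sqr c) k = sqr (it c k)
  | 0 => rfl
  | k + 1 => by
    change stp (it (sqr c) k) = sqr (stp (it c k))
    rw [it_sqr h k, stp_sqr (h.it k).nn]

end step

/-! ## Compatibility -/

section compat

variable {V W : Type*} [Fintype V] [Fintype W]
variable {A : Type*} [Ring A] [StarRing A] [FReal A]
variable {G : SimpleGraph V} {H : SimpleGraph W} {u : V → W → A}

theorem mid (hu : QI G H u) {z z' : V} {w w' : W} (h : u z w * u z' w' ≠ 0) (m : V) :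
    ∃ m', u z w * u m m' ≠ 0 ∧ u m m' * u z' w' ≠ 0 := by
  by_contra hcon
  push Not at hcon
  apply h
  have : u z w * u z' w' = ∑ m', u z w * u m m' * u z' w' := by
    rw [← Finset.sum_mul, ← Finset.mul_sum, hu.row, mul_one]
  rw [this]
  refine Finset.sum_eq_zero fun m' _ => ?_
  by_cases h1 : u z w * u m m' = 0
  · rw [h1, zero_mul]
  · rw [mul_assoc, hcon m' h1, mul_zero]

theorem mid' (hu : QI G H u) {z z' : V} {w w' : W} (h : u z w * u z' w' ≠ 0) (m' : W) :
    ∃ m, u z w * u m m' ≠ 0 ∧ u m m' * u z' w' ≠ 0 := mid hu.symm h m'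

theorem compat_stp (hu : QI G H u) {F : V → V → ℝ} {F' : W → W → ℝ} (h : Compat u F F') :
    Compat u (stp F) (stp F') := by
  intro z z' w w' hne
  have : Nonempty V := ⟨z⟩
  have : Nonempty W := ⟨w⟩
  apply le_antisymm
  · refine stp_le fun m => ?_
    obtain ⟨m', h1, h2⟩ := mid hu hne m
    rw [h _ _ _ _ h1, h _ _ _ _ h2]
    exact le_stp _ _ _ _
  · refine stp_le fun m' => ?_
    obtain ⟨m, h1, h2⟩ := mid' hu hne m'
    rw [← h _ _ _ _ h1, ← h _ _ _ _ h2]
    exact le_stp _ _ _ _

theorem compat_it (hu : QI G H u) {F : V → V → ℝ} {F' : W → W → ℝ} (h : Compat u F F') :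
    ∀ k, Compat u (it F k) (it F' k)
  | 0 => h
  | k + 1 => compat_stp hu (compat_it hu h k)

end compat

/-! ## The weights -/

section weights

variable {V : Type*} [Fintype V] (X : SimpleGraph V)

theorem ad_symm (x y : V) : ad X x y = ad X y x := by
  unfold ad
  by_cases h : X.Adj x y
  · rw [if_pos h, if_pos h.symm]
  · rw [if_neg h, if_neg (fun k => h k.symm)]

theorem ad_le (x y : V) : ad X x y ≤ 1 := by
  unfold ad
  split_ifs <;> simp

theorem cn_symm (x y : V) : cn X x y = cn X y x := by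
  unfold cn
  refine Finset.sum_congr rfl fun m _ => ?_
  rw [ad_symm X x m, ad_symm X m y, mul_comm]

theorem ad_mul_le (x y m : V) : ad X x m * ad X m y ≤ ad X x m * ad X m x := by
  unfold ad
  by_cases h : X.Adj x m
  · have h' := h.symm
    simp only [h, h', if_true, one_mul]
    split_ifs <;> simp
  · simp [h]

theorem cn_le (x y : V) : cn X x y ≤ cn X x x :=
  Finset.sum_le_sum fun m _ => ad_mul_le X x y m

theorem nbr_of_cn_eq {x y : V} (h : cn X x y = cn X x x) {m : V} (hm : X.Adj x m) : X.Adj y m := by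
  have h1 := (Finset.sum_eq_sum_iff_of_le (fun m _ => ad_mul_le X x y m)).1 h m (Finset.mem_univ m)
  have h' := hm.symm
  by_contra hcon
  have h2 : ¬ X.Adj m y := fun h => hcon h.symm
  unfold ad at h1
  simp [hm, h', h2] at h1

theorem cn_lt (hX : TwinFree X) {x y : V} (hxy : x ≠ y) :
    cn X x y < cn X x x ∨ cn X x y < cn X y y := by
  by_contra hcon
  push Not at hcon
  have h1 : cn X x y = cn X x x := le_antisymm (cn_le X x y) hcon.1
  have h2 : cn X y x = cn X y y := le_antisymm (cn_le X y x) (by rw [cn_symm X y x]; exact hcon.2)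
  exact hxy (hX x y fun z => ⟨fun h => nbr_of_cn_eq X h1 h, fun h => nbr_of_cn_eq X h2 h⟩)

theorem cn_pos {x y m : V} (h1 : X.Adj x m) (h2 : X.Adj m y) : 0 < cn X x y := by
  unfold cn
  refine Finset.sum_pos' (fun _ _ => Nat.zero_le _) ⟨m, Finset.mem_univ m, ?_⟩
  unfold ad
  simp [h1, h2]

/-- the weights -/
noncomputable def wt {V : Type*} [Fintype V] (X : SimpleGraph V) (x y : V) : ℝ :=
  (cn X x y : ℝ) ^ 2 / ((cn X x x : ℝ) * (cn X y y : ℝ))

theorem wt_good (hd : ∀ x, ∃ m, X.Adj x m) : Good (wt X) where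
  nn x y := by unfold wt; positivity
  one x y := by
    obtain ⟨m, hm⟩ := hd x
    obtain ⟨n, hn⟩ := hd y
    have p1 : 0 < cn X x x := cn_pos X hm hm.symm
    have p2 : 0 < cn X y y := cn_pos X hn hn.symm
    unfold wt
    rw [div_le_one (by positivity), sq]
    have h1 : (cn X x y : ℝ) ≤ cn X x x := by exact_mod_cast cn_le X x y
    have h2 : (cn X x y : ℝ) ≤ cn X y y := by
      rw [cn_symm X x y]; exact_mod_cast cn_le X y x
    exact mul_le_mul h1 h2 (by positivity) (by positivity)
  self x := by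
    obtain ⟨m, hm⟩ := hd x
    have p1 : 0 < cn X x x := cn_pos X hm hm.symm
    have p1' : (0 : ℝ) < cn X x x := by exact_mod_cast p1
    unfold wt
    rw [sq, div_self]
    positivity
  symm x y := by
    unfold wt
    rw [cn_symm X x y, mul_comm (cn X x x : ℝ)]

theorem wt_lt (hd : ∀ x, ∃ m, X.Adj x m) (hX : TwinFree X) {x y : V} (hxy : x ≠ y) :
    wt X x y < 1 := by
  obtain ⟨m, hm⟩ := hd x
  obtain ⟨n, hn⟩ := hd y
  have p1 : 0 < cn X x x := cn_pos X hm hm.symm
  have p2 : 0 < cn X y y := cn_pos X hn hn.symm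
  have p1' : (0 : ℝ) < cn X x x := by exact_mod_cast p1
  have p2' : (0 : ℝ) < cn X y y := by exact_mod_cast p2
  unfold wt
  rw [div_lt_one (by positivity), sq]
  have h1 : (cn X x y : ℝ) ≤ cn X x x := by exact_mod_cast cn_le X x y
  have h2 : (cn X x y : ℝ) ≤ cn X y y := by
    rw [cn_symm X x y]; exact_mod_cast cn_le X y x
  have h0 : (0 : ℝ) ≤ cn X x y := by positivity
  rcases cn_lt X hX hxy with h | h
  · have h' : (cn X x y : ℝ) < cn X x x := by exact_mod_cast h
    calc (cn X x y : ℝ) * cn X x y ≤ cn X x y * cn X y y := mul_le_mul_of_nonneg_left h2 h0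
      _ < cn X x x * cn X y y := mul_lt_mul_of_pos_right h' p2'
  · have h' : (cn X x y : ℝ) < cn X y y := by exact_mod_cast h
    calc (cn X x y : ℝ) * cn X x y ≤ cn X x x * cn X x y := mul_le_mul_of_nonneg_right h1 h0
      _ < cn X x x * cn X y y := mul_lt_mul_of_pos_left h' p1'

theorem ad_dprod (z z' : V × V) : ad (dprod X X) z z' = ad X z.1 z'.1 * ad X z.2 z'.2 := by
  unfold ad
  by_cases h1 : X.Adj z.1 z'.1
  · by_cases h2 : X.Adj z.2 z'.2
    · rw [if_pos (show (dprod X X).Adj z z' from ⟨h1, h2⟩), if_pos h1, if_pos h2]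
    · rw [if_neg (show ¬ (dprod X X).Adj z z' from fun h => h2 h.2), if_neg h2, mul_zero]
  · rw [if_neg (show ¬ (dprod X X).Adj z z' from fun h => h1 h.1), if_neg h1, zero_mul]

theorem cn_dprod (z z' : V × V) : cn (dprod X X) z z' = cn X z.1 z'.1 * cn X z.2 z'.2 := by
  unfold cn
  rw [Fintype.sum_prod_type, Finset.sum_mul_sum]
  refine Finset.sum_congr rfl fun a _ => Finset.sum_congr rfl fun b _ => ?_
  rw [ad_dprod, ad_dprod]
  ring

theorem wt_dprod : wt (dprod X X) = sqr (wt X) := by
  funext z z'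
  unfold wt sqr
  rw [cn_dprod, cn_dprod, cn_dprod, div_mul_div_comm]
  push_cast
  congr 1
  · ring
  · ring

end weights

theorem compat_wt {V W : Type*} [Fintype V] [Fintype W] {A : Type*} [Ring A] [StarRing A]
    [FReal A] {G : SimpleGraph V} {H : SimpleGraph W} {u : V → W → A} (hu : QI G H u) :
    Compat u (wt G) (wt H) := by
  intro z z' w w' hne
  have h1 : u z w * u z w ≠ 0 := by
    rw [hu.mul_self]
    intro h
    apply hne
    rw [h, zero_mul]
  have h2 : u z' w' * u z' w' ≠ 0 := by
    rw [hu.mul_self]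
    intro h
    apply hne
    rw [h, mul_zero]
  have hc := compat_cn hu
  unfold wt
  rw [hc _ _ _ _ hne, hc _ _ _ _ h1, hc _ _ _ _ h2]

/-! ## Even walks -/

theorem even_of_trans {V : Type*} {X : SimpleGraph V} {E : V → V → Prop} (hr : ∀ x, E x x)
    (ht : ∀ x y z, E x y → E y z → E x z) (hE : ∀ a m b, X.Adj a m → X.Adj m b → E a b) :
    ∀ {x y : V} (w : X.Walk x y), Even w.length → E x y
  | _, _, .nil, _ => hr _
  | _, _, .cons h .nil, hev => by simp at hev
  | _, _, .cons h (.cons h' w), hev =>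
    ht _ _ _ (hE _ _ _ h h') (even_of_trans hr ht hE w (by
      simp only [SimpleGraph.Walk.length_cons] at hev
      rw [Nat.even_add_one, Nat.even_add_one, not_not] at hev
      exact hev))

theorem even_walk {V : Type*} {X : SimpleGraph V} (hc : X.Connected) (hb : ¬ X.Colorable 2)
    (x y : V) : ∃ w : X.Walk x y, Even w.length := by
  rw [two_colorable_iff_forall_loop_even] at hb
  push Not at hb
  obtain ⟨v, w, hw⟩ := hb
  obtain ⟨p⟩ := hc.preconnected x v
  obtain ⟨q⟩ := hc.preconnected v y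
  by_cases h : Even (p.append q).length
  · exact ⟨_, h⟩
  · refine ⟨p.append (w.append q), ?_⟩
    rw [SimpleGraph.Walk.length_append] at h
    rw [SimpleGraph.Walk.length_append, SimpleGraph.Walk.length_append]
    grind

/-! ## The graph `Γ` -/

/-- the two-point functions from which `Γ` is built -/
structure Met {V : Type*} (M : V → V → ℝ) : Prop where
  pos : ∀ x y, 0 < M x y
  one : ∀ x y, M x y ≤ 1
  self : ∀ x, M x x = 1
  symm : ∀ x y, M x y = M y x
  lt : ∀ x y, x ≠ y → M x y < 1
  tri : ∀ x m y, M x m * M m y ≤ M x y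

/-- no third vertex lies between `x` and `y` -/
def btw {V : Type*} (M : V → V → ℝ) (x y : V) : Prop :=
  x ≠ y ∧ ∀ m, m ≠ x → m ≠ y → M x m * M m y ≠ M x y

/-- the graph of the pairs with no third vertex between them -/
def gam {V : Type*} (M : V → V → ℝ) (hM : Met M) : SimpleGraph V where
  Adj x y := btw M x y
  symm := ⟨fun x y h => ⟨h.1.symm, fun m h1 h2 h3 => h.2 m h2 h1 (by
    rw [hM.symm x m, hM.symm m y, hM.symm x y, mul_comm]; exact h3)⟩⟩
  loopless := ⟨fun _ h => h.1 rfl⟩

theorem gam_reach {V : Type*} [Finite V] {M : V → V → ℝ} (hM : Met M) (p : V × V) :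
    (gam M hM).Reachable p.1 p.2 := by
  have wf : WellFounded (fun p q : V × V => M q.1 q.2 < M p.1 p.2) := by
    have : IsTrans (V × V) (fun p q : V × V => M q.1 q.2 < M p.1 p.2) :=
      ⟨fun a b c h1 h2 => h2.trans h1⟩
    have : Std.Irrefl (fun p q : V × V => M q.1 q.2 < M p.1 p.2) := ⟨fun a h => lt_irrefl _ h⟩
    exact Finite.wellFounded_of_trans_of_irrefl _
  induction p using wf.induction with
  | _ p ih =>
    by_cases h0 : p.1 = p.2
    · rw [h0]
    by_cases h1 : (gam M hM).Adj p.1 p.2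
    · exact h1.reachable
    · have h2 : ∃ m, m ≠ p.1 ∧ m ≠ p.2 ∧ M p.1 m * M m p.2 = M p.1 p.2 := by
        by_contra hcon
        push Not at hcon
        exact h1 ⟨h0, hcon⟩
      obtain ⟨m, h3, h4, h5⟩ := h2
      have l1 : M p.1 p.2 < M p.1 m := by
        rw [← h5]
        have := hM.lt m p.2 h4
        have := hM.pos p.1 m
        nlinarith
      have l2 : M p.1 p.2 < M m p.2 := by
        rw [← h5]
        have := hM.lt p.1 m (Ne.symm h3)
        have := hM.pos m p.2
        nlinarith
      exact (ih (p.1, m) l1).trans (ih (m, p.2) l2)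

theorem box_iff {V : Type*} {M : V → V → ℝ} (hM : Met M) (z z' : V × V) :
    (gam M hM □ gam M hM).Adj z z' ↔ btw (sqr M) z z' := by
  rw [boxProd_adj]
  -- one coordinate equal, no third vertex between the others
  have key : ∀ x y t : V, btw M x y → ∀ a b : V, (a ≠ x ∨ b ≠ t) → (a ≠ y ∨ b ≠ t) →
      M x a * M t b * (M a y * M b t) ≠ M x y * M t t := by
    intro x y t hxy a b h1 h2 h3
    rw [hM.self, mul_one] at h3
    have e : M x a * M t b * (M a y * M b t) = (M x a * M a y) * (M t b * M b t) := by ring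
    rw [e] at h3
    by_cases hb : b = t
    · subst hb
      rw [hM.self, one_mul, mul_one] at h3
      have h1' : a ≠ x := by tauto
      have h2' : a ≠ y := by tauto
      exact hxy.2 a h1' h2' h3
    · have l1 := hM.lt b t hb
      have l2 := hM.one t b
      have l3 := hM.pos t b
      have l4 := hM.pos b t
      have l5 : M t b * M b t < 1 := by nlinarith
      have l6 := hM.tri x a y
      have l7 : 0 < M x a * M a y := mul_pos (hM.pos _ _) (hM.pos _ _)
      nlinarith
  constructor
  · rintro (⟨h, h2⟩ | ⟨h, h1⟩)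
    · refine ⟨fun he => h.1 (congrArg Prod.fst he), fun m m1 m2 => ?_⟩
      unfold sqr
      rw [← h2]
      refine key _ _ _ h m.1 m.2 ?_ ?_
      · by_contra hcon
        push Not at hcon
        exact m1 (Prod.ext hcon.1 hcon.2)
      · by_contra hcon
        push Not at hcon
        exact m2 (Prod.ext hcon.1 (hcon.2.trans h2))
    · refine ⟨fun he => h.1 (congrArg Prod.snd he), fun m m1 m2 h3 => ?_⟩
      unfold sqr at h3
      rw [← h1] at h3
      refine key z.2 z'.2 z.1 h m.2 m.1 ?_ ?_ ?_
      · by_contra hcon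
        push Not at hcon
        exact m1 (Prod.ext hcon.2 hcon.1)
      · by_contra hcon
        push Not at hcon
        exact m2 (Prod.ext (hcon.2.trans h1) hcon.1)
      · rw [mul_comm (M z.2 m.2) _, mul_comm (M m.2 z'.2) _, h3, mul_comm]
  · intro h
    by_cases h1 : z.1 = z'.1
    · right
      refine ⟨⟨fun h2 => h.1 (Prod.ext h1 h2), fun m m1 m2 h3 => ?_⟩, h1⟩
      refine h.2 (z.1, m) (fun e => m1 (congrArg Prod.snd e))
        (fun e => m2 (congrArg Prod.snd e)) ?_
      unfold sqr
      rw [← h1, hM.self, one_mul, one_mul, one_mul]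
      exact h3
    · by_cases h2 : z.2 = z'.2
      · left
        refine ⟨⟨h1, fun m m1 m2 h3 => ?_⟩, h2⟩
        refine h.2 (m, z.2) (fun e => m1 (congrArg Prod.fst e))
          (fun e => m2 (congrArg Prod.fst e)) ?_
        unfold sqr
        rw [← h2, hM.self, mul_one, mul_one, mul_one]
        exact h3
      · exfalso
        refine h.2 (z'.1, z.2) (fun e => h1 (by have e' := congrArg Prod.fst e; exact e'.symm))
          (fun e => h2 (by have e' := congrArg Prod.snd e; exact e')) ?_
        unfold sqr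
        rw [hM.self, hM.self, mul_one, one_mul]

theorem btw_iff {V W : Type*} [Fintype V] [Fintype W] {A : Type*} [Ring A] [StarRing A]
    [FReal A] {G : SimpleGraph V} {H : SimpleGraph W} {u : V → W → A} (hu : QI G H u)
    {M : V → V → ℝ} {M' : W → W → ℝ} (hM : Compat u M M') {z z' : V} {w w' : W}
    (hne : u z w * u z' w' ≠ 0) : btw M z z' ↔ btw M' w w' := by
  constructor
  · intro h
    refine ⟨fun h0 => h.1 ((hu.eq_of_ne hne).2 h0), fun m' m1 m2 h3 => ?_⟩
    obtain ⟨m, k1, k2⟩ := mid' hu hne m'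
    refine h.2 m (fun h0 => m1 ((hu.eq_of_ne k1).1 h0.symm).symm)
      (fun h0 => m2 ((hu.eq_of_ne k2).1 h0)) ?_
    rw [hM _ _ _ _ k1, hM _ _ _ _ k2, hM _ _ _ _ hne]
    exact h3
  · intro h
    refine ⟨fun h0 => h.1 ((hu.eq_of_ne hne).1 h0), fun m m1 m2 h3 => ?_⟩
    obtain ⟨m', k1, k2⟩ := mid hu hne m
    refine h.2 m' (fun h0 => m1 ((hu.eq_of_ne k1).2 h0.symm).symm)
      (fun h0 => m2 ((hu.eq_of_ne k2).2 h0)) ?_
    rw [← hM _ _ _ _ k1, ← hM _ _ _ _ k2, ← hM _ _ _ _ hne]
    exact h3

end Skel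

open Skel in
/-- Module SKEL. -/
theorem skel : StSkel := by
  intro V _ X hc hb ht
  have : Nonempty V := hc.nonempty
  -- no isolated vertices
  have hd : ∀ x, ∃ m, X.Adj x m := by
    intro x
    by_contra hcon
    push Not at hcon
    apply hb
    have hx : ∀ y, y = x := by
      intro y
      obtain ⟨p⟩ := hc.preconnected x y
      cases p with
      | nil => rfl
      | cons h _ => exact absurd h (hcon _)
    refine ⟨SimpleGraph.Coloring.mk (fun _ => (0 : Fin 2)) ?_⟩
    intro a b hab
    rw [hx b] at hab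
    exact absurd hab.symm (hcon _)
  have hg : Good (wt X) := wt_good X hd
  set M := MM0 (wt X) with hMdef
  have hgM : Good M := hg.MM0
  have hpos : ∀ x y, 0 < M x y := by
    intro x y
    obtain ⟨w, hw⟩ := even_walk hc hb x y
    refine even_of_trans (E := fun x y => 0 < M x y) (fun x => ?_) (fun x y z h1 h2 => ?_)
      (fun a m b h1 h2 => ?_) w hw
    · rw [hgM.self]; exact one_pos
    · exact lt_of_lt_of_le (mul_pos h1 h2) (hg.tri x y z)
    · refine lt_of_lt_of_le ?_ (hg.le_MM0 a b 0)
      have p0 : (0 : ℝ) < cn X a b := by exact_mod_cast cn_pos X h1 h2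
      have p1 : (0 : ℝ) < cn X a a := by exact_mod_cast cn_pos X h1 h1.symm
      have p2 : (0 : ℝ) < cn X b b := by exact_mod_cast cn_pos X h2.symm h2
      change 0 < wt X a b
      unfold wt
      positivity
  have hM : Met M := ⟨hpos, hgM.one, hgM.self, hgM.symm,
    fun x y hxy => hg.lt_one (fun a b hab => wt_lt X hd ht hab) hxy, hg.tri⟩
  refine ⟨gam M hM, ⟨fun x y => gam_reach hM (x, y)⟩, ?_⟩
  intro A _ _ _ u hu
  -- compatibility of the product function
  have hcomp : Compat u (sqr M) (sqr M) := by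
    have h1 : Compat u (wt (dprod X X)) (wt (dprod X X)) := compat_wt hu
    rw [wt_dprod] at h1
    intro z z' w w' hne
    have h2 : ∀ k, sqr (it (wt X) k) z z' = sqr (it (wt X) k) w w' := by
      intro k
      have := compat_it hu h1 k z z' w w' hne
      rwa [it_sqr hg k] at this
    have t1 : Tendsto (fun k => sqr (it (wt X) k) z z') atTop (𝓝 (sqr M z z')) :=
      (hg.tendsto _ _).mul (hg.tendsto _ _)
    have t2 : Tendsto (fun k => sqr (it (wt X) k) w w') atTop (𝓝 (sqr M w w')) :=
      (hg.tendsto _ _).mul (hg.tendsto _ _)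
    simp only [h2] at t1
    exact tendsto_nhds_unique t1 t2
  exact ⟨hu.star_eq, hu.mul_self, hu.row, hu.col, fun z z' w w' hne => by
    rw [box_iff, box_iff]
    exact btw_iff hu hcomp hne⟩

end QSym
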